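import Pool.Agent.Lib.MP_8cb858_nt.SEL.Spec

section
/-!
# ARC: majorants at the infinite places
-/
namespace Pool.Agent.Lib.MP_8cb858_nt.SEL

open NumberField IsDedekindDomain
open scoped Classical ComplexOrder

universe u

namespace ARCM

section sqr
open scoped MatrixOrder

theorem sqr_ex {R : Matrix (Fin 3) (Fin 3) ℝ} (hR : R.PosSemidef) :
    ∃ B : Matrix (Fin 3) (Fin 3) ℝ, R = B.conjTranspose * B := by
  obtain ⟨B, hB⟩ := CStarAlgebra.nonneg_iff_eq_star_mul_self.mp hR.nonneg
  exact ⟨B, hB⟩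

end sqr

/-! ## Linear algebra over the complex numbers -/

theorem cs (u w : Fin 3 → ℂ) : ∑ i, ‖u i‖ * ‖w i‖ ≤ en u * en w :=
  Real.sum_mul_le_sqrt_mul_sqrt _ _ _

theorem en_congr {M M' : Matrix (Fin 3) (Fin 3) ℂ}
    (h : M.conjTranspose * M = M'.conjTranspose * M') (x : Fin 3 → ℂ) :
    en (M.mulVec x) = en (M'.mulVec x) := by
  have key : ∀ N : Matrix (Fin 3) (Fin 3) ℂ,
      ((∑ i, ‖(N.mulVec x) i‖ ^ 2 : ℝ) : ℂ) =
        star x ⬝ᵥ (N.conjTranspose * N).mulVec x := by
    intro N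
    rw [← Matrix.mulVec_mulVec, Matrix.dotProduct_mulVec, Matrix.vecMul_conjTranspose, star_star]
    simp only [dotProduct, Pi.star_apply]
    push_cast
    apply Finset.sum_congr rfl
    intro i _
    rw [← Complex.conj_mul' ((N.mulVec x) i)]
    rfl
  have h1 := key M
  have h2 := key M'
  rw [h, ← h2] at h1
  unfold en
  rw [Complex.ofReal_inj.1 h1]

variable {t : Fin 3 → ℂ} {Z : Matrix (Fin 3) (Fin 3) ℂ}

/-- the normalized matrix -/
noncomputable def Nm (t : Fin 3 → ℂ) (Z : Matrix (Fin 3) (Fin 3) ℂ) : Matrix (Fin 3) (Fin 3) ℂ :=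
  fun i j => ((1 / √‖fp t i‖ : ℝ) : ℂ) * Z i j

theorem fp_ne (ht : Function.Injective t) (i : Fin 3) : fp t i ≠ 0 := by
  unfold fp
  apply mul_ne_zero
  · rw [sub_ne_zero]
    intro h
    have := ht h
    revert this
    fin_cases i <;> decide
  · rw [sub_ne_zero]
    intro h
    have := ht h
    revert this
    fin_cases i <;> decide

theorem gA_eq (x y : Fin 3 → ℂ) : x ⬝ᵥ (gA t Z).mulVec y =
    ∑ i, Z.mulVec x i * Z.mulVec y i / fp t i := by
  simp only [gA, dotProduct, Matrix.mulVec, Fin.sum_univ_three]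
  ring

theorem gB_eq (x y : Fin 3 → ℂ) : x ⬝ᵥ (gB t Z).mulVec y =
    ∑ i, t i * (Z.mulVec x i * Z.mulVec y i) / fp t i := by
  simp only [gB, dotProduct, Matrix.mulVec, Fin.sum_univ_three]
  ring

theorem Nm_mulVec (x : Fin 3 → ℂ) (i : Fin 3) :
    (Nm t Z).mulVec x i = ((1 / √‖fp t i‖ : ℝ) : ℂ) * Z.mulVec x i := by
  simp only [Nm, dotProduct, Matrix.mulVec, Fin.sum_univ_three]
  ring

theorem Nm_norm (ht : Function.Injective t) (x y : Fin 3 → ℂ) (i : Fin 3) :
    ‖(Nm t Z).mulVec x i‖ * ‖(Nm t Z).mulVec y i‖ =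
      ‖Z.mulVec x i * Z.mulVec y i / fp t i‖ := by
  have h : 0 < ‖fp t i‖ := norm_pos_iff.2 (fp_ne ht i)
  have hs : 0 < √‖fp t i‖ := Real.sqrt_pos.2 h
  have hss : √‖fp t i‖ * √‖fp t i‖ = ‖fp t i‖ := Real.mul_self_sqrt h.le
  have key : ∀ s n p q : ℝ, 0 < s → s * s = n → (1 / s * p) * (1 / s * q) = p * q / n := by
    intro s n p q hs h
    subst h
    field_simp
  rw [Nm_mulVec, Nm_mulVec, norm_mul, norm_mul, norm_div, norm_mul, Complex.norm_real,
    Real.norm_of_nonneg (by positivity)]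
  exact key _ _ _ _ hs hss

theorem bndA (ht : Function.Injective t) (x y : Fin 3 → ℂ) :
    ‖x ⬝ᵥ (gA t Z).mulVec y‖ ≤ en ((Nm t Z).mulVec x) * en ((Nm t Z).mulVec y) := by
  rw [gA_eq]
  refine (norm_sum_le _ _).trans ?_
  refine le_trans (le_of_eq ?_) (cs _ _)
  apply Finset.sum_congr rfl
  intro i _
  exact (Nm_norm ht x y i).symm

theorem bndB (ht : Function.Injective t) {r : ℝ} (hr : ∀ i, ‖t i‖ ≤ r) (hr0 : 0 ≤ r)
    (x y : Fin 3 → ℂ) :
    ‖x ⬝ᵥ (gB t Z).mulVec y‖ ≤ r * (en ((Nm t Z).mulVec x) * en ((Nm t Z).mulVec y)) := by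
  rw [gB_eq]
  refine (norm_sum_le _ _).trans ?_
  refine le_trans ?_ (mul_le_mul_of_nonneg_left (cs _ _) hr0)
  rw [Finset.mul_sum]
  apply Finset.sum_le_sum
  intro i _
  rw [Nm_norm ht x y i]
  have : t i * (Z.mulVec x i * Z.mulVec y i) / fp t i =
    t i * (Z.mulVec x i * Z.mulVec y i / fp t i) := by ring
  rw [this, norm_mul]
  exact mul_le_mul_of_nonneg_right (hr i) (norm_nonneg _)

theorem prod_fp {K : Type u} [Field K] (th : Fin 3 → K) :
    fp th 0 * fp th 1 * fp th 2 = - (vnd th).det ^ 2 := by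
  have e1 : (1 : Fin 3) + 1 = 2 := rfl
  have e2 : (1 : Fin 3) + 2 = 0 := rfl
  have e3 : (2 : Fin 3) + 1 = 0 := rfl
  have e4 : (2 : Fin 3) + 2 = 1 := rfl
  simp only [fp, vnd, Matrix.det_fin_three, zero_add, e1, e2, e3, e4, Fin.val_zero, Fin.val_one,
    Fin.val_two, pow_zero, pow_one]
  ring

theorem Nm_det (ht : Function.Injective t) (hZ : Z.det = (vnd t).det) : ‖(Nm t Z).det‖ = 1 := by
  have h1 : Nm t Z = Matrix.diagonal (fun i => ((1 / √‖fp t i‖ : ℝ) : ℂ)) * Z := by
    ext i j
    rw [Matrix.diagonal_mul]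
    rfl
  have h2 : ‖Z.det‖ ^ 2 = ‖fp t 0‖ * ‖fp t 1‖ * ‖fp t 2‖ := by
    rw [← norm_mul, ← norm_mul, prod_fp, norm_neg, norm_pow, hZ]
  have h3 : ‖(Nm t Z).det‖ ^ 2 = 1 := by
    rw [h1, Matrix.det_mul, Matrix.det_diagonal, norm_mul, mul_pow, h2, Fin.prod_univ_three,
      norm_mul, norm_mul, Complex.norm_real, Complex.norm_real, Complex.norm_real,
      Real.norm_of_nonneg (by positivity), Real.norm_of_nonneg (by positivity),
      Real.norm_of_nonneg (by positivity)]
    have p0 : 0 < ‖fp t 0‖ := norm_pos_iff.2 (fp_ne ht 0)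
    have p1 : 0 < ‖fp t 1‖ := norm_pos_iff.2 (fp_ne ht 1)
    have p2 : 0 < ‖fp t 2‖ := norm_pos_iff.2 (fp_ne ht 2)
    rw [mul_pow, mul_pow, div_pow, div_pow, div_pow, Real.sq_sqrt p0.le, Real.sq_sqrt p1.le,
      Real.sq_sqrt p2.le]
    field_simp
  have h4 : 0 ≤ ‖(Nm t Z).det‖ := norm_nonneg _
  nlinarith

/-- a real matrix with the same norm form -/
theorem real_model {M : Matrix (Fin 3) (Fin 3) ℂ} (hd : ‖M.det‖ = 1)
    (hr : ∀ j l, (starRingEnd ℂ) ((M.conjTranspose * M) j l) = (M.conjTranspose * M) j l) :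
    ∃ U : Matrix (Fin 3) (Fin 3) ℂ, ‖U.det‖ = 1 ∧ (∀ i j, (U i j).im = 0) ∧
      ∀ x, en (U.mulVec x) = en (M.mulVec x) := by
  set H := M.conjTranspose * M with hH
  let R : Matrix (Fin 3) (Fin 3) ℝ := fun i j => (H i j).re
  have hRH : R.map (fun x : ℝ => (x : ℂ)) = H := by
    ext i j
    exact (Complex.conj_eq_iff_re.1 (hr i j))
  have hpH : H.PosSemidef := Matrix.posSemidef_conjTranspose_mul_self M
  have hpR : R.PosSemidef := by
    refine Matrix.PosSemidef.of_dotProduct_mulVec_nonneg ?_ ?_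
    · ext i j
      have h1 : H.conjTranspose = H := hpH.1
      have h2 := congrFun (congrFun h1 i) j
      rw [Matrix.conjTranspose_apply] at h2
      show star (R j i) = R i j
      simp only [R, star_trivial]
      rw [← h2]
      simp
    · intro x
      have h1 := hpH.dotProduct_mulVec_nonneg (fun i => (x i : ℂ))
      have h2 : star (fun i => (x i : ℂ)) ⬝ᵥ H.mulVec (fun i => (x i : ℂ)) =
          ((star x ⬝ᵥ R.mulVec x : ℝ) : ℂ) := by
        rw [← hRH]
        simp only [dotProduct, Matrix.mulVec, Fin.sum_univ_three, Matrix.map_apply,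
          Pi.star_apply, star_trivial]
        push_cast
        simp
      rw [h2] at h1
      exact_mod_cast h1
  obtain ⟨B, hB⟩ := sqr_ex hpR
  have hU : (B.map (fun x : ℝ => (x : ℂ))).conjTranspose * B.map (fun x : ℝ => (x : ℂ)) = H := by
    rw [← hRH, hB]
    ext i j
    simp [Matrix.mul_apply, Fin.sum_univ_three]
  refine ⟨B.map (fun x : ℝ => (x : ℂ)), ?_, ?_, ?_⟩
  · have h1 : ‖(B.map (fun x : ℝ => (x : ℂ))).det‖ ^ 2 = ‖M.det‖ ^ 2 := by
      have h2 : ‖((B.map (fun x : ℝ => (x : ℂ))).conjTranspose *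
          B.map (fun x : ℝ => (x : ℂ))).det‖ = ‖H.det‖ := by rw [hU]
      rw [hH, Matrix.det_mul, Matrix.det_mul, Matrix.det_conjTranspose, Matrix.det_conjTranspose,
        norm_mul, norm_mul, norm_star, norm_star] at h2
      rw [pow_two, pow_two]
      exact h2
    rw [hd] at h1
    have h4 : 0 ≤ ‖(B.map (fun x : ℝ => (x : ℂ))).det‖ := norm_nonneg _
    nlinarith
  · intro i j
    simp
  · intro x
    exact en_congr hU x

/-! ## Roots -/

theorem root_eq {K : Type u} [Field K] {a b : K} {th : Fin 3 → K} (h : IsRoots a b th) (x : K) :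
    x ^ 3 + a * x + b = (x - th 0) * (x - th 1) * (x - th 2) := by
  have h1 := h.e1
  have h2 := h.e2
  have h3 := h.e3
  linear_combination x ^ 2 * h1 - x * h2 + h3

theorem root_ex {K : Type u} [Field K] {a b : K} {th : Fin 3 → K} (h : IsRoots a b th) {x : K}
    (hx : x ^ 3 + a * x + b = 0) : ∃ k, x = th k := by
  rw [root_eq h] at hx
  rcases mul_eq_zero.1 hx with h1 | h1
  · rcases mul_eq_zero.1 h1 with h2 | h2
    · exact ⟨0, sub_eq_zero.1 h2⟩
    · exact ⟨1, sub_eq_zero.1 h2⟩
  · exact ⟨2, sub_eq_zero.1 h1⟩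

theorem root_zero {K : Type u} [Field K] {a b : K} {th : Fin 3 → K} (h : IsRoots a b th)
    (i : Fin 3) : th i ^ 3 + a * th i + b = 0 := by
  rw [root_eq h]
  fin_cases i <;> simp

theorem fp_eq {K : Type u} [Field K] {a b : K} {th : Fin 3 → K} (h : IsRoots a b th)
    (i : Fin 3) : fp th i = 3 * th i ^ 2 + a := by
  have h1 := h.e1
  have h2 := h.e2
  have e1 : (1 : Fin 3) + 1 = 2 := rfl
  have e2 : (1 : Fin 3) + 2 = 0 := rfl
  have e3 : (2 : Fin 3) + 1 = 0 := rfl
  have e4 : (2 : Fin 3) + 2 = 1 := rfl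
  fin_cases i
  · show (th 0 - th (0 + 1)) * (th 0 - th (0 + 2)) = 3 * th 0 ^ 2 + a
    rw [zero_add, zero_add]
    linear_combination -2 * th 0 * h1 + h2
  · show (th 1 - th (1 + 1)) * (th 1 - th (1 + 2)) = 3 * th 1 ^ 2 + a
    rw [e1, e2]
    linear_combination -2 * th 1 * h1 + h2
  · show (th 2 - th (2 + 1)) * (th 2 - th (2 + 2)) = 3 * th 2 ^ 2 + a
    rw [e3, e4]
    linear_combination -2 * th 2 * h1 + h2

theorem root_bd {a b z : ℂ} {r : ℝ} (hr : 0 < r) (ha : ‖a‖ ≤ r ^ 2) (hb : ‖b‖ ≤ r ^ 3)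
    (hz : z ^ 3 + a * z + b = 0) : ‖z‖ ≤ 2 * r := by
  by_contra hcon
  push Not at hcon
  have h1 : z ^ 3 = -(a * z + b) := by linear_combination hz
  have h2 : ‖z‖ ^ 3 ≤ r ^ 2 * ‖z‖ + r ^ 3 := by
    rw [← norm_pow, h1, norm_neg]
    refine (norm_add_le _ _).trans ?_
    rw [norm_mul]
    have := norm_nonneg z
    gcongr
  set s := ‖z‖ with hs
  have h3 : 0 < s := by linarith
  have h4 : r ^ 2 * s ≤ s ^ 2 / 4 * s := by
    apply mul_le_mul_of_nonneg_right _ h3.le
    nlinarith
  have h5 : r ^ 3 ≤ s ^ 3 / 8 := by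
    have : r ^ 3 ≤ (s / 2) ^ 3 := by
      apply pow_le_pow_left₀ hr.le
      linarith
    calc r ^ 3 ≤ (s / 2) ^ 3 := this
      _ = s ^ 3 / 8 := by ring
  have h6 : 0 < s ^ 3 := by positivity
  nlinarith

theorem sg_sq {F : Type u} [Field F] {E : WeierstrassCurve F} {K : Type u} [Field K]
    [Algebra F K] (th : Fin 3 → K) (S : Pt E K) (i : Fin 3) : sg th S i * sg th S i = 1 := by
  unfold sg
  split
  · rfl
  · split_ifs <;> rfl

end ARCM

open ARCM in
theorem specARC (hEMB : SpecEMB.{u, 0}) : SpecARC.{u} := by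
  intro F _ _ a b c th Z A B ρ h2c hR hTw hZd hgA hgB hρ
  suffices h : ∀ v : InfinitePlace F, ∃ U : Matrix (Fin 3) (Fin 3) ℂ, ‖U.det‖ = 1 ∧
      (v.IsReal → ∀ i j, (U i j).im = 0) ∧
      (∀ x y : Fin 3 → ℂ, ‖x ⬝ᵥ (A.map v.embedding).mulVec y‖ ≤
        en (U.mulVec x) * en (U.mulVec y)) ∧
      (∀ x y : Fin 3 → ℂ, ‖x ⬝ᵥ (B.map v.embedding).mulVec y‖ ≤
        2 * ρ v * (en (U.mulVec x) * en (U.mulVec y))) by
    choose U hU using h
    exact ⟨U, hU⟩
  intro v
  let _ : Algebra F ℂ := v.embedding.toAlgebra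
  let i : AlgebraicClosure F →ₐ[F] ℂ := IsAlgClosed.lift
  have hi : ∀ x : F, i (algebraMap F (AlgebraicClosure F) x) = v.embedding x := fun x =>
    i.commutes x
  let t : Fin 3 → ℂ := fun k => i (th k)
  let Zc : Matrix (Fin 3) (Fin 3) ℂ := Z.map i
  have hinj : Function.Injective i := i.toRingHom.injective
  have ht : Function.Injective t := hinj.comp hR.inj
  have hfp : ∀ k, fp t k = i (fp th k) := by
    intro k
    simp only [fp, t, map_mul, map_sub]
  have hA : A.map v.embedding = gA t Zc := by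
    ext j k
    have h1 := congrArg i (congrFun (congrFun hgA j) k)
    rw [Matrix.map_apply, hi] at h1
    rw [Matrix.map_apply, ← h1]
    simp only [gA, map_sum, map_div₀, map_mul, hfp]
    rfl
  have hB : B.map v.embedding = gB t Zc := by
    ext j k
    have h1 := congrArg i (congrFun (congrFun hgB j) k)
    rw [Matrix.map_apply, hi] at h1
    rw [Matrix.map_apply, ← h1]
    simp only [gB, map_sum, map_div₀, map_mul, hfp]
    rfl
  have hdet : Zc.det = (vnd t).det := by
    have h1 : Zc.det = i Z.det := (i.toRingHom.map_det Z).symm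
    have h2 : (vnd t).det = i (vnd th).det := by
      have h3 : vnd t = (vnd th).map i := by
        ext j k
        simp [vnd, t]
      rw [h3]
      exact (i.toRingHom.map_det (vnd th)).symm
    rw [h1, h2, hZd]
  have hroot : ∀ k, ‖t k‖ ≤ 2 * ρ v := by
    intro k
    have h1 := congrArg i (root_zero hR k)
    rw [map_add, map_add, map_pow, map_mul, hi, hi, map_zero] at h1
    apply root_bd (hρ v).1 _ _ h1
    · rw [InfinitePlace.norm_embedding_eq]
      exact (hρ v).2.1
    · rw [InfinitePlace.norm_embedding_eq]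
      exact (hρ v).2.2
  have hρ2 : 0 ≤ 2 * ρ v := by linarith [(hρ v).1]
  by_cases hv : v.IsReal
  · -- the real case
    have hσ : ∀ x : F, (starRingEnd ℂ) (v.embedding x) = v.embedding x := by
      intro x
      have h1 := ComplexEmbedding.isReal_iff.1 (InfinitePlace.isReal_iff.1 hv)
      have h2 := congrArg (fun φ : F →+* ℂ => φ x) h1
      simpa using h2
    let j : AlgebraicClosure F →ₐ[F] ℂ :=
      { toRingHom := (starRingEnd ℂ).comp i.toRingHom
        commutes' := by
          intro r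
          show (starRingEnd ℂ) (i (algebraMap F (AlgebraicClosure F) r)) = v.embedding r
          rw [hi, hσ] }
    obtain ⟨s, hs⟩ := hEMB F ℂ i j
    have hs' : ∀ x, (starRingEnd ℂ) (i x) = i (s x) := fun x => (hs x).symm
    have hperm : ∀ k, ∃ l, s (th k) = th l := by
      intro k
      apply root_ex hR
      have h1 := congrArg s (root_zero hR k)
      rw [map_add, map_add, map_pow, map_mul, map_zero] at h1
      have h2 : ∀ x : F, s (algebraMap F (AlgebraicClosure F) x) = algebraMap F _ x := fun x =>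
        s.commutes x
      rw [h2, h2] at h1
      exact h1
    choose π hπ using hperm
    have hπi : Function.Injective π := by
      intro k l hkl
      apply hR.inj
      apply s.injective
      rw [hπ, hπ, hkl]
    have hπb : Function.Bijective π := Finite.injective_iff_bijective.1 hπi
    have hf : ∀ k, ‖fp t (π k)‖ = ‖fp t k‖ := by
      intro k
      have h1 : s (fp th k) = fp th (π k) := by
        rw [fp_eq hR, fp_eq hR, map_add, map_mul, map_pow, hπ, map_ofNat]
        congr 1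
        exact s.commutes a
      rw [hfp, hfp, ← h1, ← hs']
      exact RCLike.norm_conj _
    have hZ : ∀ k l, Zc k l = ((sg th (c s) (π k) : ℤ) : ℂ) * (starRingEnd ℂ) (Zc (π k) l) := by
      intro k l
      have h1 := hTw.2 s k (π k) l (hπ k)
      have h2 : (starRingEnd ℂ) (Zc k l) = ((sg th (c s) (π k) : ℤ) : ℂ) * Zc (π k) l := by
        show (starRingEnd ℂ) (i (Z k l)) = _ * i (Z (π k) l)
        rw [hs', h1, map_mul, map_intCast]
      have h3 := congrArg (starRingEnd ℂ) h2
      rw [Complex.conj_conj, map_mul, map_intCast] at h3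
      exact h3
    have hreal : ∀ k l, (starRingEnd ℂ) (((Nm t Zc).conjTranspose * Nm t Zc) k l) =
        ((Nm t Zc).conjTranspose * Nm t Zc) k l := by
      intro k l
      have e1 : ∀ m n p : Fin 3, star (Nm t Zc m n) * Nm t Zc m p =
          ((1 / √‖fp t m‖ * (1 / √‖fp t m‖) : ℝ) : ℂ) * ((starRingEnd ℂ) (Zc m n) * Zc m p) := by
        intro m n p
        simp only [Nm, star_mul', Complex.star_def, Complex.conj_ofReal]
        push_cast
        ring
      simp only [Matrix.mul_apply, Matrix.conjTranspose_apply, e1, map_sum, map_mul,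
        Complex.conj_ofReal, Complex.conj_conj]
      rw [← Equiv.sum_comp (Equiv.ofBijective π hπb) (fun m =>
        ((1 / √‖fp t m‖ * (1 / √‖fp t m‖) : ℝ) : ℂ) * ((starRingEnd ℂ) (Zc m k) * Zc m l))]
      apply Finset.sum_congr rfl
      intro m _
      simp only [Equiv.ofBijective_apply]
      rw [hf m]
      congr 1
      rw [hZ m k, hZ m l, map_mul, map_intCast, Complex.conj_conj]
      have h1 : ((sg th (c s) (π m) : ℤ) : ℂ) * ((sg th (c s) (π m) : ℤ) : ℂ) = 1 := by
        exact_mod_cast sg_sq th (c s) (π m)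
      linear_combination ((starRingEnd ℂ) (Zc (π m) k) * Zc (π m) l) * h1
    obtain ⟨U, hU1, hU2, hU3⟩ := real_model (Nm_det ht hdet) hreal
    refine ⟨U, hU1, fun _ => hU2, ?_, ?_⟩
    · intro x y
      rw [hA, hU3, hU3]
      exact bndA ht x y
    · intro x y
      rw [hB, hU3, hU3]
      exact bndB ht hroot hρ2 x y
  · refine ⟨Nm t Zc, Nm_det ht hdet, fun h => absurd h hv, ?_, ?_⟩
    · intro x y
      rw [hA]
      exact bndA ht x y
    · intro x y
      rw [hB]
      exact bndB ht hroot hρ2 x y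

end Pool.Agent.Lib.MP_8cb858_nt.SEL
end

section
/-!
# BCH : change of basis
-/
namespace Pool.Agent.Lib.MP_8cb858_nt.SEL

open NumberField IsDedekindDomain
open scoped Classical

universe u

namespace BCHM

lemma gA_mul {K : Type u} [Field K] (th : Fin 3 → K) (Z G : Matrix (Fin 3) (Fin 3) K) :
    gA th (Z * G) = G.transpose * gA th Z * G := by
  ext j k
  simp only [gA, Matrix.mul_apply, Matrix.transpose_apply, Fin.sum_univ_three]
  ring

lemma gB_mul {K : Type u} [Field K] (th : Fin 3 → K) (Z G : Matrix (Fin 3) (Fin 3) K) :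
    gB th (Z * G) = G.transpose * gB th Z * G := by
  ext j k
  simp only [gB, Matrix.mul_apply, Matrix.transpose_apply, Fin.sum_univ_three]
  ring

lemma map_tmul {R S : Type*} [CommRing R] [CommRing S] (f : R →+* S)
    (A g : Matrix (Fin 3) (Fin 3) R) :
    (g.transpose * A * g).map f = (g.map f).transpose * A.map f * g.map f := by
  rw [Matrix.map_mul, Matrix.map_mul, Matrix.transpose_map]

lemma bil (A g : Matrix (Fin 3) (Fin 3) ℂ) (x y : Fin 3 → ℂ) :
    x ⬝ᵥ (g.transpose * A * g).mulVec y = g.mulVec x ⬝ᵥ A.mulVec (g.mulVec y) := by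
  rw [← Matrix.mulVec_mulVec, ← Matrix.mulVec_mulVec, Matrix.dotProduct_mulVec,
    Matrix.vecMul_transpose]

lemma twisted_mul {F : Type u} [Field F] {E : WeierstrassCurve F}
    {th : Fin 3 → AlgebraicClosure F} {c : Gal F → Pt E (AlgebraicClosure F)}
    {Z : Matrix (Fin 3) (Fin 3) (AlgebraicClosure F)} (h : Twisted th c Z)
    (g : Matrix (Fin 3) (Fin 3) F) (hg : g.det ≠ 0) :
    Twisted th c (Z * g.map (algebraMap F (AlgebraicClosure F))) := by
  refine ⟨?_, fun s i k j hs => ?_⟩
  · rw [Matrix.det_mul]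
    refine mul_ne_zero h.1 ?_
    have h1 : (g.map (algebraMap F (AlgebraicClosure F))).det
        = algebraMap F (AlgebraicClosure F) g.det := by
      rw [RingHom.map_det]; rfl
    rw [h1]
    exact (map_ne_zero _).2 hg
  · simp only [Matrix.mul_apply, Fin.sum_univ_three, Matrix.map_apply, map_add, map_mul,
      h.2 s i k _ hs, AlgEquiv.commutes]
    ring

end BCHM

open BCHM

theorem specBCH (hDET : SpecDET.{u}) : SpecBCH.{u} := by
  refine ⟨?_, ?_, ?_⟩
  · intro F _ _ a b c A B g h hg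
    obtain ⟨th, hth, Z, hZ, hA, hB⟩ := h
    refine ⟨th, hth, Z * g.map (algebraMap F (AlgebraicClosure F)), twisted_mul hZ g hg, ?_, ?_⟩
    · rw [gA_mul, hA, map_tmul]
    · rw [gB_mul, hB, map_tmul]
  · intro F _ _ A B g ρ U h hg v
    obtain ⟨h1, h2, h3, h4⟩ := h v
    refine ⟨?_, ?_, ?_, ?_⟩
    · rw [Matrix.det_mul, norm_mul, h1, one_mul]
      have h5 : (g.map v.embedding).det = v.embedding g.det := by
        rw [RingHom.map_det]; rfl
      rw [h5, hg, map_one, norm_one]
    · intro hv i j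
      have h6 : ∀ x : F, (v.embedding x).im = 0 := by
        intro x
        have h7 : ComplexEmbedding.IsReal v.embedding := InfinitePlace.isReal_iff.1 hv
        have h8 : (starRingEnd ℂ) (v.embedding x) = v.embedding x := RingHom.congr_fun h7 x
        exact Complex.conj_eq_iff_im.1 h8
      simp only [Matrix.mul_apply, Matrix.map_apply, Fin.sum_univ_three, Complex.add_im,
        Complex.mul_im, h6, h2 hv]
      ring
    · intro x y
      rw [map_tmul, bil, ← Matrix.mulVec_mulVec, ← Matrix.mulVec_mulVec]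
      exact h3 _ _
    · intro x y
      rw [map_tmul, bil, ← Matrix.mulVec_mulVec, ← Matrix.mulVec_mulVec]
      exact h4 _ _
  · intro F _ _ a b c A B h
    obtain ⟨th, hth, Z, hZ, hA, hB⟩ := h
    obtain ⟨d1, d2, d3, d4, d5, d6, d7⟩ := hDET (AlgebraicClosure F) _ _ th Z hth
    have hinj : Function.Injective (algebraMap F (AlgebraicClosure F)) :=
      (algebraMap F (AlgebraicClosure F)).injective
    have hm : ∀ M N : Matrix (Fin 3) (Fin 3) F,
        M.map (algebraMap F (AlgebraicClosure F)) = N.map (algebraMap F (AlgebraicClosure F)) →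
        M = N := fun M N h => Matrix.map_injective hinj h
    rw [hA, hB] at d7
    rw [hA] at d3 d5
    rw [hB] at d4
    refine ⟨?_, ?_, ?_, ?_⟩
    · refine hm _ _ ?_
      exact Matrix.transpose_map.trans d3
    · refine hm _ _ ?_
      exact Matrix.transpose_map.trans d4
    · intro h0
      have h1 : (A.map (algebraMap F (AlgebraicClosure F))).det = 0 := by
        have h2 : (A.map (algebraMap F (AlgebraicClosure F))).det
            = algebraMap F (AlgebraicClosure F) A.det := by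
          rw [RingHom.map_det]; rfl
        rw [h2, h0, map_zero]
      rw [h1, zero_mul] at d5
      exact hZ.1 (pow_eq_zero_iff (two_ne_zero)|>.1 (neg_eq_zero.1 d5.symm))
    · apply hinj
      rw [map_zero, ← d7]
      have h3 : (A.adjugate).map (algebraMap F (AlgebraicClosure F))
          = (A.map (algebraMap F (AlgebraicClosure F))).adjugate := by
        exact RingHom.map_adjugate (algebraMap F (AlgebraicClosure F)) A
      rw [← h3, ← Matrix.map_mul]
      exact (AddMonoidHom.map_trace (algebraMap F (AlgebraicClosure F)).toAddMonoidHom _)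

end Pool.Agent.Lib.MP_8cb858_nt.SEL
end

section
set_option autoImplicit false

/-!
# CNU: upper bound for the number of integers in a box of any shape
-/

namespace Pool.Agent.Lib.MP_8cb858_nt.SEL

open NumberField IsDedekindDomain
open scoped Classical

universe u

namespace CNUM

section

variable {F : Type u} [Field F] [NumberField F]

lemma norm_ge_one {a : 𝓞 F} (ha : a ≠ 0) : 1 ≤ ∏ v : InfinitePlace F, v (a : F) ^ v.mult := by
  rw [InfinitePlace.prod_eq_abs_norm]
  rw [← Algebra.coe_norm_int, ← Int.cast_one, ← Int.cast_abs, Rat.cast_intCast, Int.cast_le]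
  exact Int.one_le_abs (Algebra.norm_ne_zero_iff.mpr ha)

variable (F) in
/-- the integers in a box -/
def box (s : InfinitePlace F → ℝ) : Set (𝓞 F) := {x : 𝓞 F | ∀ v : InfinitePlace F, v (x : F) ≤ s v}

lemma box_finite (s : InfinitePlace F → ℝ) : (box F s).Finite := by
  obtain ⟨B, hB⟩ : ∃ B : ℝ, ∀ v : InfinitePlace F, s v ≤ B := by
    obtain ⟨B, hB⟩ := (Set.finite_range s).bddAbove
    exact ⟨B, fun v => hB ⟨v, rfl⟩⟩
  have h1 := Embeddings.finite_of_norm_le F ℂ B
  refine Set.Finite.of_finite_image (f := fun x : 𝓞 F => (x : F)) (h1.subset ?_)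
    (fun x _ y _ h => RingOfIntegers.ext h)
  rintro _ ⟨x, hx, rfl⟩
  refine ⟨x.isIntegral_coe, fun φ => ?_⟩
  have h2 := hx (InfinitePlace.mk φ)
  rw [InfinitePlace.apply] at h2
  exact h2.trans (hB _)

/-- the cell of a point at a place -/
noncomputable def cell (w : InfinitePlace F → ℝ) (x : 𝓞 F) (v : InfinitePlace F) : ℤ × ℤ :=
  (⌊(v.embedding (x : F)).re / w v⌋, ⌊(v.embedding (x : F)).im / w v⌋)

lemma im_eq_zero {v : InfinitePlace F} (hv : v.IsReal) (x : F) : (v.embedding x).im = 0 := by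
  rw [← InfinitePlace.embedding_of_isReal_apply hv, Complex.ofReal_im]

lemma floor_close {x y w : ℝ} (hw : 0 < w) (h : ⌊x / w⌋ = ⌊y / w⌋) : |x - y| < w := by
  have h1 := Int.abs_sub_lt_one_of_floor_eq_floor h
  rw [← sub_div, abs_div, abs_of_pos hw, div_lt_one hw] at h1
  exact h1

/-- two points of a cell are close -/
lemma cell_close {w : InfinitePlace F → ℝ} (hw : ∀ v, 0 < w v) {x y : 𝓞 F}
    (h : cell w x = cell w y) (v : InfinitePlace F) : v ((x - y : 𝓞 F) : F) < 2 * w v := by
  have h1 := congrFun h v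
  simp only [cell, Prod.mk.injEq] at h1
  have hr := floor_close (hw v) h1.1
  have hi := floor_close (hw v) h1.2
  rw [← InfinitePlace.norm_embedding_eq]
  have e : v.embedding ((x - y : 𝓞 F) : F) = v.embedding (x : F) - v.embedding (y : F) := by
    push_cast
    rw [map_sub]
  rw [e]
  refine lt_of_le_of_lt (Complex.norm_le_abs_re_add_abs_im _) ?_
  rw [Complex.sub_re, Complex.sub_im]
  linarith

lemma floor_mem {x s Y : ℝ} (hx : |x| ≤ s) {w : ℝ} (hw : 0 < w) (hY : s / w ≤ Y) :
    ⌊x / w⌋ ∈ Finset.Icc (-⌈Y⌉) ⌈Y⌉ := by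
  have h1 : |x / w| ≤ Y := by
    rw [abs_div, abs_of_pos hw]
    exact (div_le_div_of_nonneg_right hx hw.le).trans hY
  rw [abs_le] at h1
  rw [Finset.mem_Icc]
  constructor
  · rw [Int.le_floor]
    push_cast
    have := Int.le_ceil Y
    linarith [h1.1]
  · have h3 : ((⌊x / w⌋ : ℤ) : ℝ) ≤ (⌈Y⌉ : ℤ) :=
      (Int.floor_le _).trans (h1.2.trans (Int.le_ceil Y))
    exact_mod_cast h3

/-- the possible cells at a place -/
noncomputable def cells (Y : InfinitePlace F → ℝ) (v : InfinitePlace F) : Finset (ℤ × ℤ) :=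
  if v.IsReal then Finset.Icc (-⌈Y v⌉) ⌈Y v⌉ ×ˢ {0}
  else Finset.Icc (-⌈Y v⌉) ⌈Y v⌉ ×ˢ Finset.Icc (-⌈Y v⌉) ⌈Y v⌉

lemma cell_mem {s w Y : InfinitePlace F → ℝ} (hw : ∀ v, 0 < w v) (hY : ∀ v, s v / w v ≤ Y v)
    {x : 𝓞 F} (hx : x ∈ box F s) (v : InfinitePlace F) : cell w x v ∈ cells Y v := by
  have h1 : ‖v.embedding (x : F)‖ ≤ s v := by
    rw [InfinitePlace.norm_embedding_eq]
    exact hx v
  have hre := (Complex.abs_re_le_norm (v.embedding (x : F))).trans h1
  have him := (Complex.abs_im_le_norm (v.embedding (x : F))).trans h1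
  have m1 := floor_mem hre (hw v) (hY v)
  have m2 := floor_mem him (hw v) (hY v)
  unfold cells
  split_ifs with hv
  · rw [Finset.mem_product]
    refine ⟨m1, ?_⟩
    simp only [cell, Finset.mem_singleton]
    rw [im_eq_zero hv]
    simp
  · rw [Finset.mem_product]
    exact ⟨m1, m2⟩

lemma card_Icc_le {Y : ℝ} (hY : 0 ≤ Y) :
    ((Finset.Icc (-⌈Y⌉) ⌈Y⌉).card : ℝ) ≤ 2 * Y + 3 := by
  rw [Int.card_Icc]
  have h0 : 0 ≤ ⌈Y⌉ := Int.ceil_nonneg hY
  have h1 : ((⌈Y⌉ + 1 - -⌈Y⌉).toNat : ℤ) = 2 * ⌈Y⌉ + 1 := by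
    rw [Int.toNat_of_nonneg (by omega)]; ring
  have h2 : (((⌈Y⌉ + 1 - -⌈Y⌉).toNat : ℕ) : ℝ) = 2 * (⌈Y⌉ : ℝ) + 1 := by
    exact_mod_cast h1
  rw [h2]
  have := Int.ceil_lt_add_one Y
  linarith

lemma card_cells_le {Y : InfinitePlace F → ℝ} (hY : ∀ v, 0 ≤ Y v) (v : InfinitePlace F) :
    ((cells Y v).card : ℝ) ≤ (2 * Y v + 3) ^ v.mult := by
  have h1 := card_Icc_le (hY v)
  unfold cells InfinitePlace.mult
  by_cases hv : v.IsReal
  · rw [if_pos hv, if_pos hv, Finset.card_product]
    simpa using h1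
  · rw [if_neg hv, if_neg hv, Finset.card_product]
    push_cast
    rw [sq]
    exact mul_le_mul h1 h1 (Nat.cast_nonneg _) (by linarith [hY v])

/-- the total number of cells -/
lemma card_pi_le {Y : InfinitePlace F → ℝ} (hY : ∀ v, 0 ≤ Y v) :
    ((Fintype.piFinset (cells Y)).card : ℝ) ≤ vol (fun v : InfinitePlace F => 2 * Y v + 3) := by
  rw [Fintype.card_piFinset]
  push_cast
  unfold vol
  exact Finset.prod_le_prod (fun _ _ => Nat.cast_nonneg _) fun v _ => card_cells_le hY v

lemma vol_mono {r s : InfinitePlace F → ℝ} (h0 : ∀ v, 0 ≤ r v) (h : ∀ v, r v ≤ s v) :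
    vol r ≤ vol s :=
  Finset.prod_le_prod (fun v _ => pow_nonneg (h0 v) _) fun v _ => pow_le_pow_left₀ (h0 v) (h v) _

lemma vol_const (c : ℝ) : vol (fun _ : InfinitePlace F => c) = c ^ Module.finrank ℚ F := by
  unfold vol
  rw [Finset.prod_pow_eq_pow_sum, InfinitePlace.sum_mult_eq]

lemma vol_mul (r s : InfinitePlace F → ℝ) : vol (fun v => r v * s v) = vol r * vol s := by
  unfold vol
  rw [← Finset.prod_mul_distrib]
  exact Finset.prod_congr rfl fun v _ => mul_pow _ _ _

lemma vol_pow (r : InfinitePlace F → ℝ) (k : ℕ) : vol (fun v => r v ^ k) = vol r ^ k := by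
  unfold vol
  rw [← Finset.prod_pow]
  exact Finset.prod_congr rfl fun v _ => by rw [← pow_mul, ← pow_mul, Nat.mul_comm]

lemma vol_pos {r : InfinitePlace F → ℝ} (h : ∀ v, 0 < r v) : 0 < vol r :=
  Finset.prod_pos fun v _ => pow_pos (h v) _

lemma one_le_vol {r : InfinitePlace F → ℝ} (h : ∀ v, 1 ≤ r v) : 1 ≤ vol r := by
  have h1 := vol_mono (r := fun _ : InfinitePlace F => (1 : ℝ)) (fun _ => zero_le_one) h
  rwa [vol_const, one_pow] at h1

end

end CNUM

open CNUM in
theorem specCNU : SpecCNU.{u} := by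
  intro F _ _
  set n := Module.finrank ℚ F with hn
  have hn0 : 0 < n := Module.finrank_pos
  refine ⟨11 ^ n, one_le_pow₀ (by norm_num), fun s hs => ⟨box_finite s, ?_⟩⟩
  set T : ℝ := max 1 (vol s) with hT
  have hT1 : 1 ≤ T := le_max_left _ _
  set μ : ℝ := T ^ ((n : ℝ)⁻¹) with hμ
  have hμ1 : 1 ≤ μ := Real.one_le_rpow hT1 (by positivity)
  have hμ0 : 0 < μ := by linarith
  have hμn : μ ^ n = T := Real.rpow_inv_natCast_pow (by linarith) hn0.ne'
  set w : InfinitePlace F → ℝ := fun v => s v / (4 * μ) with hw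
  have hw0 : ∀ v, 0 < w v := fun v => div_pos (hs v) (by linarith)
  have hY : ∀ v, s v / w v ≤ (fun _ : InfinitePlace F => 4 * μ) v := by
    intro v
    simp only [hw]
    rw [div_div_eq_mul_div, mul_comm, mul_div_assoc, div_self (hs v).ne', mul_one]
  have hinj : Set.InjOn (cell w) (box F s) := by
    intro x _ y _ hxy
    by_contra hne
    have h1 : x - y ≠ 0 := sub_ne_zero.mpr hne
    have h2 := norm_ge_one h1
    have h3 : ∏ v : InfinitePlace F, v ((x - y : 𝓞 F) : F) ^ v.mult < 1 := by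
      calc ∏ v : InfinitePlace F, v ((x - y : 𝓞 F) : F) ^ v.mult
          < ∏ v : InfinitePlace F, (s v / μ) ^ v.mult := by
            obtain ⟨v0⟩ : Nonempty (InfinitePlace F) := inferInstance
            refine Finset.prod_lt_prod_of_nonempty (fun v _ => ?_) (fun v _ => ?_)
              ⟨v0, Finset.mem_univ v0⟩
            · have : 0 < v ((x - y : 𝓞 F) : F) := by
                rw [InfinitePlace.pos_iff]
                intro h
                exact h1 (by exact_mod_cast h)
              positivity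
            · have h4 := cell_close hw0 hxy v
              have h5 : 2 * w v ≤ s v / μ := by
                simp only [hw]
                rw [← mul_div_assoc, div_le_div_iff₀ (by positivity) hμ0]
                nlinarith [hs v]
              refine pow_lt_pow_left₀ (lt_of_lt_of_le h4 h5) (apply_nonneg v _) ?_
              exact InfinitePlace.mult_ne_zero
        _ = vol s / T := by
            have h6 : (∏ v : InfinitePlace F, (s v / μ) ^ v.mult) * μ ^ n = vol s := by
              rw [← vol_const (F := F) μ]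
              change vol (fun v => s v / μ) * vol (fun _ : InfinitePlace F => μ) = vol s
              rw [← vol_mul]
              congr 1
              funext v
              field_simp
            rw [hμn] at h6
            rw [eq_div_iff (by positivity), h6]
        _ ≤ 1 := by
            rw [div_le_one (by positivity)]
            exact le_max_right _ _
    linarith
  have hmaps : Set.MapsTo (cell w) (box F s)
      (Fintype.piFinset (cells (fun _ : InfinitePlace F => 4 * μ)) : Set _) := by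
    intro x hx
    rw [Finset.mem_coe, Fintype.mem_piFinset]
    exact fun v => cell_mem hw0 hY hx v
  have hcard := Set.ncard_le_ncard_of_injOn (cell w) hmaps hinj (Finset.finite_toSet _)
  rw [Set.ncard_coe_finset] at hcard
  have h7 : ((box F s).ncard : ℝ) ≤
      ((Fintype.piFinset (cells (fun _ : InfinitePlace F => 4 * μ))).card : ℝ) := by
    exact_mod_cast hcard
  refine h7.trans ((card_pi_le fun _ => by positivity).trans ?_)
  rw [vol_const, ← hμn, ← mul_pow]
  refine pow_le_pow_left₀ (by positivity) ?_ _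
  linarith

end Pool.Agent.Lib.MP_8cb858_nt.SEL
end

section
set_option autoImplicit false

/-!
# BX2: the number of reduced pairs of the second type
-/

namespace Pool.Agent.Lib.MP_8cb858_nt.SEL

open NumberField IsDedekindDomain
open scoped Classical

universe u

namespace BX2M

/-- the relation between the entries of a pair of the second type -/
lemma relation {R : Type u} [CommRing R] [IsDomain R] {A B : Matrix (Fin 3) (Fin 3) R}
    (hA : A.IsSymm) (hB : B.IsSymm) (hdet : A.det ≠ 0) (htr : (A.adjugate * B).trace = 0)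
    (h00 : A 0 0 = 0) (h01 : A 0 1 = 0) (h12 : A 1 2 = 0) (h22 : A 2 2 = 0) :
    A 0 2 ≠ 0 ∧ 2 * (A 1 1 * B 0 2) + A 0 2 * B 1 1 = 0 := by
  have a10 : A 1 0 = 0 := by rw [hA.apply 0 1, h01]
  have a20 : A 2 0 = A 0 2 := hA.apply 0 2
  have a21 : A 2 1 = 0 := by rw [hA.apply 1 2, h12]
  have b20 : B 2 0 = B 0 2 := hB.apply 0 2
  have hd : A.det = - (A 0 2) ^ 2 * A 1 1 := by
    rw [Matrix.det_fin_three, h00, h01, h12, h22, a10, a20, a21]
    ring
  have hne : A 0 2 ≠ 0 := by
    intro h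
    rw [hd, h] at hdet
    apply hdet
    ring
  refine ⟨hne, ?_⟩
  rw [Matrix.adjugate_fin_three] at htr
  simp only [Matrix.trace, Matrix.diag, Matrix.mul_apply, Fin.sum_univ_three, Matrix.of_apply,
    Matrix.cons_val', Matrix.cons_val, h00, h01, h12, h22, a10, a20, a21, b20] at htr
  have h5 : A 0 2 * (2 * (A 1 1 * B 0 2) + A 0 2 * B 1 1) = 0 := by
    linear_combination -htr
  exact (mul_eq_zero.1 h5).resolve_left hne

end BX2M

open CNUM BX2M in
theorem specBX2 (hCNU : SpecCNU.{u}) : SpecBX2.{u} := by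
  intro F _ _ C hC
  obtain ⟨C1, hC1, hN⟩ := hCNU F
  set n := Module.finrank ℚ F with hn
  have hn0 : 0 < n := Module.finrank_pos
  have fS1 : (box F (fun _ => C)).Finite := box_finite _
  set N1 : ℕ := (box F (fun _ : InfinitePlace F => C)).ncard with hN1
  refine ⟨((N1 : ℝ) ^ 3) ^ 3 * (C1 ^ 5 * (C ^ n) ^ 5) + 1, by positivity, fun ρ hρ => ?_⟩
  have hρ0 : ∀ v, 0 < ρ v := fun v => lt_of_lt_of_le one_pos (hρ v)
  have hv : 0 < vol ρ := vol_pos hρ0
  set V0 : ℝ := C ^ n * vol ρ with hV0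
  have hV0p : 0 < V0 := by positivity
  have hvol : ∀ q : ℝ, vol (fun v : InfinitePlace F => C * ρ v * q) = V0 * q ^ n := by
    intro q
    rw [vol_mul (fun v => C * ρ v) (fun _ => q), vol_mul (fun _ => C) ρ, vol_const, vol_const]
  -- nonempty `R2` gives a lower bound for the volume
  have hlow : ∀ k : ℕ, (R2 F C ρ k).Nonempty → 1 ≤ V0 * (((2 : ℝ) ^ k ^ 1) ^ 2)⁻¹ ^ n := by
    rintro k ⟨P, hP⟩
    obtain ⟨-, -, -, -, -, -, -, -, hne, hb⟩ := hP
    have h1 := norm_ge_one hne
    have h2 : ∏ v : InfinitePlace F, v (P.2 0 0 : F) ^ v.mult ≤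
        vol (fun v : InfinitePlace F => C * ρ v * (((2 : ℝ) ^ k ^ 1) ^ 2)⁻¹) := by
      refine vol_mono (r := fun v : InfinitePlace F => v (P.2 0 0 : F))
        (fun v => apply_nonneg _ _) fun v => ?_
      refine ((hb v 0 0).2).trans (le_of_eq ?_)
      congr 1
      rw [pow_one, ← pow_mul, ← zpow_natCast, ← zpow_neg]
      congr 1
    rw [hvol] at h2
    exact h1.trans h2
  refine ⟨fun k => ?_, ?_⟩
  · by_cases hemp : R2 F C ρ k = ∅
    · rw [hemp]
      refine ⟨Set.finite_empty, ?_⟩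
      simp only [Set.ncard_empty, Nat.cast_zero]
      positivity
    have hl := hlow k (Set.nonempty_iff_ne_empty.2 hemp)
    rw [pow_one] at hl
    set t : ℝ := (2 : ℝ) ^ k with ht
    have ht1 : 1 ≤ t := one_le_pow₀ (by norm_num)
    have ht0 : 0 < t := by linarith
    have hzp : ∀ m : ℕ, (2 : ℝ) ^ ((k : ℤ) * (m : ℤ)) = t ^ m := by
      intro m
      rw [zpow_mul, zpow_natCast, zpow_natCast]
    -- the number of integers in the boxes
    have hcard : ∀ q : ℝ, (t ^ 2)⁻¹ ≤ q →
        ((box F (fun v => C * ρ v * q)).ncard : ℝ) ≤ C1 * (V0 * q ^ n) := by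
      intro q hq
      have hq0 : 0 < q := lt_of_lt_of_le (by positivity) hq
      have h1 := (hN (fun v => C * ρ v * q) (fun v =>
        mul_pos (mul_pos (by linarith) (hρ0 v)) hq0)).2
      rw [hvol] at h1
      have h2 : 1 ≤ V0 * q ^ n :=
        hl.trans (mul_le_mul_of_nonneg_left (pow_le_pow_left₀ (by positivity) hq n) hV0p.le)
      rw [max_eq_right h2] at h1
      exact h1
    have q1 : (t ^ 2)⁻¹ ≤ t⁻¹ := by
      apply inv_anti₀ ht0
      nlinarith
    have q2 : (t ^ 2)⁻¹ ≤ 1 := by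
      apply inv_le_one_of_one_le₀
      exact one_le_pow₀ ht1
    have q3 : (t ^ 2)⁻¹ ≤ t := q2.trans ht1
    have q4 : (t ^ 2)⁻¹ ≤ t ^ 2 := q2.trans (one_le_pow₀ ht1)
    have f0 : (box F (fun v => C * ρ v * (t ^ 2)⁻¹)).Finite := box_finite _
    have f1 : (box F (fun v => C * ρ v * t⁻¹)).Finite := box_finite _
    have f2 : (box F (fun v => C * ρ v * 1)).Finite := box_finite _
    have f3 : (box F (fun v => C * ρ v * t)).Finite := box_finite _
    have f4 : (box F (fun v => C * ρ v * t ^ 2)).Finite := box_finite _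
    have c0 := hcard _ le_rfl
    have c1 := hcard _ q1
    have c2 := hcard _ q2
    have c3 := hcard _ q3
    have c4 := hcard _ q4
    let Ψ : Matrix (Fin 3) (Fin 3) (𝓞 F) × Matrix (Fin 3) (Fin 3) (𝓞 F) →
        (Fin 3 → Fin 3 → 𝓞 F) × (𝓞 F × (𝓞 F × (𝓞 F × (𝓞 F × 𝓞 F)))) := fun P =>
      (fun i j => P.1 i j, P.2 0 0, P.2 0 1, P.2 0 2, P.2 1 2, P.2 2 2)
    let T : Finset ((Fin 3 → Fin 3 → 𝓞 F) × (𝓞 F × (𝓞 F × (𝓞 F × (𝓞 F × 𝓞 F))))) :=
      (Fintype.piFinset fun _ : Fin 3 => Fintype.piFinset fun _ : Fin 3 => fS1.toFinset) ×ˢ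
        (f0.toFinset ×ˢ (f1.toFinset ×ˢ (f2.toFinset ×ˢ (f3.toFinset ×ˢ f4.toFinset))))
    have hmaps : Set.MapsTo Ψ (R2 F C ρ k) (T : Set _) := by
      intro P hP
      obtain ⟨-, -, -, -, -, -, -, -, -, hb⟩ := hP
      simp only [T, Ψ, Finset.mem_coe, Finset.mem_product, Fintype.mem_piFinset,
        Set.Finite.mem_toFinset]
      refine ⟨fun i j v => (hb v i j).1, fun v => ?_, fun v => ?_, fun v => ?_, fun v => ?_,
        fun v => ?_⟩
      · refine ((hb v 0 0).2).trans (le_of_eq ?_)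
        congr 1
        rw [← hzp 2, ← zpow_neg]
        congr 1
      · refine ((hb v 0 1).2).trans (le_of_eq ?_)
        congr 1
        have := hzp 1
        rw [pow_one] at this
        rw [← this, ← zpow_neg]
        congr 1
      · refine ((hb v 0 2).2).trans (le_of_eq ?_)
        congr 1
      · refine ((hb v 1 2).2).trans (le_of_eq ?_)
        congr 1
        have := hzp 1
        rw [pow_one] at this
        rw [← this]
        rfl
      · refine ((hb v 2 2).2).trans (le_of_eq ?_)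
        congr 1
        rw [← hzp 2]
        rfl
    have hinj : Set.InjOn Ψ (R2 F C ρ k) := by
      intro P hP P' hP' h
      obtain ⟨s1, s2, d, tr, a00, a01, a12, a22, -, -⟩ := hP
      obtain ⟨s1', s2', d', tr', a00', a01', a12', a22', -, -⟩ := hP'
      simp only [Ψ, Prod.mk.injEq] at h
      obtain ⟨h1, e00, e01, e02, e12, e22⟩ := h
      have hA : P.1 = P'.1 := by
        ext i j
        exact congrArg _ (congrFun (congrFun h1 i) j)
      obtain ⟨hne, r1⟩ := relation s1 s2 d tr a00 a01 a12 a22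
      obtain ⟨-, r2⟩ := relation s1' s2' d' tr' a00' a01' a12' a22'
      rw [← hA, ← e02] at r2
      have e11 : P.2 1 1 = P'.2 1 1 := by
        have h6 : P.1 0 2 * (P.2 1 1 - P'.2 1 1) = 0 := by linear_combination r1 - r2
        exact sub_eq_zero.1 ((mul_eq_zero.1 h6).resolve_left hne)
      have e10 : P.2 1 0 = P'.2 1 0 := by rw [s2.apply 0 1, s2'.apply 0 1, e01]
      have e20 : P.2 2 0 = P'.2 2 0 := by rw [s2.apply 0 2, s2'.apply 0 2, e02]
      have e21 : P.2 2 1 = P'.2 2 1 := by rw [s2.apply 1 2, s2'.apply 1 2, e12]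
      refine Prod.ext hA ?_
      refine Matrix.ext fun i j => ?_
      fin_cases i <;> fin_cases j <;> assumption
    have hfin : (R2 F C ρ k).Finite :=
      Set.Finite.of_finite_image ((Finset.finite_toSet T).subset (Set.image_subset_iff.2 hmaps))
        hinj
    refine ⟨hfin, ?_⟩
    have hc := Set.ncard_le_ncard_of_injOn Ψ hmaps hinj (Finset.finite_toSet T)
    rw [Set.ncard_coe_finset] at hc
    have hT : (T.card : ℝ) = ((N1 : ℝ) ^ 3) ^ 3 *
        (((box F (fun v => C * ρ v * (t ^ 2)⁻¹)).ncard : ℝ) *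
        (((box F (fun v => C * ρ v * t⁻¹)).ncard : ℝ) *
        (((box F (fun v => C * ρ v * 1)).ncard : ℝ) *
        (((box F (fun v => C * ρ v * t)).ncard : ℝ) *
        ((box F (fun v => C * ρ v * t ^ 2)).ncard : ℝ))))) := by
      simp only [T, Finset.card_product, Fintype.card_piFinset, Finset.prod_const,
        Finset.card_univ, Fintype.card_fin]
      rw [← Set.ncard_eq_toFinset_card _ fS1, ← Set.ncard_eq_toFinset_card _ f0,
        ← Set.ncard_eq_toFinset_card _ f1, ← Set.ncard_eq_toFinset_card _ f2,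
        ← Set.ncard_eq_toFinset_card _ f3, ← Set.ncard_eq_toFinset_card _ f4]
      push_cast
      rfl
    have hprod : ((box F (fun v => C * ρ v * (t ^ 2)⁻¹)).ncard : ℝ) *
        (((box F (fun v => C * ρ v * t⁻¹)).ncard : ℝ) *
        (((box F (fun v => C * ρ v * 1)).ncard : ℝ) *
        (((box F (fun v => C * ρ v * t)).ncard : ℝ) *
        ((box F (fun v => C * ρ v * t ^ 2)).ncard : ℝ)))) ≤ C1 ^ 5 * V0 ^ 5 := by
      have e : C1 ^ 5 * V0 ^ 5 = (C1 * (V0 * (t ^ 2)⁻¹ ^ n)) * ((C1 * (V0 * t⁻¹ ^ n)) *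
          ((C1 * (V0 * 1 ^ n)) * ((C1 * (V0 * t ^ n)) * (C1 * (V0 * (t ^ 2) ^ n))))) := by
        have u1 : (t ^ 2)⁻¹ ^ n * (t ^ 2) ^ n = 1 := by
          rw [← mul_pow, inv_mul_cancel₀ (by positivity), one_pow]
        have u2 : t⁻¹ ^ n * t ^ n = 1 := by
          rw [← mul_pow, inv_mul_cancel₀ ht0.ne', one_pow]
        rw [one_pow]
        generalize (t ^ 2)⁻¹ ^ n = a at *
        generalize (t ^ 2) ^ n = d at *
        generalize t⁻¹ ^ n = b at *
        generalize t ^ n = c at *
        linear_combination (-(C1 ^ 5 * V0 ^ 5) * (b * c)) * u1 - C1 ^ 5 * V0 ^ 5 * u2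
      rw [e]
      have p4 := c4
      have p3 := mul_le_mul c3 p4 (Nat.cast_nonneg _) (by positivity)
      have p2 := mul_le_mul c2 p3 (by positivity) (by positivity)
      have p1 := mul_le_mul c1 p2 (by positivity) (by positivity)
      exact mul_le_mul c0 p1 (by positivity) (by positivity)
    calc ((R2 F C ρ k).ncard : ℝ) ≤ (T.card : ℝ) := by exact_mod_cast hc
      _ ≤ ((N1 : ℝ) ^ 3) ^ 3 * (C1 ^ 5 * V0 ^ 5) := by
          rw [hT]
          exact mul_le_mul_of_nonneg_left hprod (by positivity)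
      _ ≤ _ := by
          rw [hV0, mul_pow (C ^ n)]
          nlinarith [pow_pos hv 5]
  · obtain ⟨K, hK⟩ := pow_unbounded_of_one_lt V0 (show (1 : ℝ) < 2 by norm_num)
    refine ⟨K, fun k hk => ?_⟩
    by_contra hne
    have hl := hlow k (Set.nonempty_iff_ne_empty.2 hne)
    rw [pow_one] at hl
    have h1 : (2 : ℝ) ^ K ≤ 2 ^ k := pow_le_pow_right₀ (by norm_num) hk
    have h2 : (1 : ℝ) ≤ 2 ^ k := one_le_pow₀ (by norm_num)
    have h3 : (2 : ℝ) ^ k ≤ ((2 : ℝ) ^ k) ^ 2 := by nlinarith
    have h4 : ((2 : ℝ) ^ k) ^ 2 ≤ (((2 : ℝ) ^ k) ^ 2) ^ n :=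
      le_self_pow₀ (h2.trans h3) hn0.ne'
    rw [inv_pow, ← div_eq_mul_inv, one_le_div (by positivity)] at hl
    linarith

end Pool.Agent.Lib.MP_8cb858_nt.SEL
end

section
/-!
# CLS: every nontrivial class has reduced models, many of them in the cusp
-/
namespace Pool.Agent.Lib.MP_8cb858_nt.SEL

open NumberField IsDedekindDomain
open scoped Classical

universe u

namespace CLSM

/-! ## The Euclidean norm -/

theorem en_eq (u : Fin 3 → ℂ) : en u = ‖(WithLp.toLp 2 u : EuclideanSpace ℂ (Fin 3))‖ := by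
  rw [EuclideanSpace.norm_eq]
  rfl

theorem en_nonneg (u : Fin 3 → ℂ) : 0 ≤ en u := Real.sqrt_nonneg _

theorem en_add (u w : Fin 3 → ℂ) : en (u + w) ≤ en u + en w := by
  rw [en_eq, en_eq, en_eq, WithLp.toLp_add]
  exact norm_add_le _ _

theorem en_smul (z : ℂ) (u : Fin 3 → ℂ) : en (z • u) = ‖z‖ * en u := by
  rw [en_eq, en_eq, WithLp.toLp_smul, norm_smul]

section

variable {F : Type u} [Field F]

/-! ## Inclusion of integral matrices -/

theorem inc_mul (A B : Matrix (Fin 3) (Fin 3) (𝓞 F)) : inc (A * B) = inc A * inc B := by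
  unfold inc
  exact Matrix.map_mul

theorem inc_transpose (A : Matrix (Fin 3) (Fin 3) (𝓞 F)) :
    inc A.transpose = (inc A).transpose := by
  unfold inc
  exact Matrix.transpose_map.symm

theorem inc_det (A : Matrix (Fin 3) (Fin 3) (𝓞 F)) : (inc A).det = algebraMap (𝓞 F) F A.det := by
  unfold inc
  exact ((algebraMap (𝓞 F) F).map_det A).symm

theorem inj : Function.Injective (algebraMap (𝓞 F) F) := FaithfulSMul.algebraMap_injective _ _

theorem inc_inj {A B : Matrix (Fin 3) (Fin 3) (𝓞 F)} (h : inc A = inc B) : A = B := by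
  ext i j
  have := congrFun (congrFun h i) j
  simpa [inc] using this

theorem inc_props {P₁ P₂ : Matrix (Fin 3) (Fin 3) (𝓞 F)}
    (h : (inc P₁).IsSymm ∧ (inc P₂).IsSymm ∧ (inc P₁).det ≠ 0 ∧
      ((inc P₁).adjugate * inc P₂).trace = 0) :
    P₁.IsSymm ∧ P₂.IsSymm ∧ P₁.det ≠ 0 ∧ (P₁.adjugate * P₂).trace = 0 := by
  obtain ⟨h1, h2, h3, h4⟩ := h
  refine ⟨?_, ?_, ?_, ?_⟩
  · apply inc_inj
    rw [inc_transpose]
    exact h1
  · apply inc_inj
    rw [inc_transpose]
    exact h2
  · intro h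
    apply h3
    rw [inc_det, h, map_zero]
  · have h5 : (inc P₁).adjugate = inc P₁.adjugate := by
      unfold inc
      exact ((algebraMap (𝓞 F) F).map_adjugate P₁).symm
    rw [h5, ← inc_mul] at h4
    apply inj (F := F)
    rw [map_zero, ← h4]
    simp only [Matrix.trace, Matrix.diag_apply, inc, Matrix.map_apply, map_sum]

/-! ## The unipotent matrices -/

/-- the unipotent matrix -/
def Nq (d e q : 𝓞 F) : Matrix (Fin 3) (Fin 3) (𝓞 F) :=
  !![1, -2 * e * q, -2 * d * e * q ^ 2; 0, 1, 2 * d * q; 0, 0, 1]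

theorem Nq_det (d e q : 𝓞 F) : (Nq d e q).det = 1 := by
  simp [Nq, Matrix.det_fin_three]

theorem Nq_gram (d e q : 𝓞 F) {G : Matrix (Fin 3) (Fin 3) (𝓞 F)} (hG : G.IsSymm)
    (h00 : G 0 0 = 0) (h01 : G 0 1 = 0) (h12 : G 1 2 = 0) (h22 : G 2 2 = 0) (h02 : G 0 2 = d)
    (h11 : G 1 1 = e) : (Nq d e q).transpose * G * Nq d e q = G := by
  have h10 : G 1 0 = 0 := by rw [← h01]; exact hG.apply 0 1
  have h21 : G 2 1 = 0 := by rw [← h12]; exact hG.apply 1 2
  have h20 : G 2 0 = d := by rw [← h02]; exact hG.apply 0 2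
  ext1 i j
  fin_cases i <;> fin_cases j <;>
    simp [Nq, Matrix.mul_apply, Fin.sum_univ_three, h00, h01, h02, h10, h11, h12, h20, h21,
      h22] <;> ring

theorem Nq_00 (d e q : 𝓞 F) (H : Matrix (Fin 3) (Fin 3) (𝓞 F)) :
    ((Nq d e q).transpose * H * Nq d e q) 0 0 = H 0 0 := by
  simp [Nq, Matrix.mul_apply, Fin.sum_univ_three]

theorem Nq_01 (d e q : 𝓞 F) (H : Matrix (Fin 3) (Fin 3) (𝓞 F)) :
    ((Nq d e q).transpose * H * Nq d e q) 0 1 = H 0 1 - 2 * e * q * H 0 0 := by
  simp [Nq, Matrix.mul_apply, Fin.sum_univ_three]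
  ring

theorem det_G {G : Matrix (Fin 3) (Fin 3) (𝓞 F)} (hG : G.IsSymm)
    (h00 : G 0 0 = 0) (h01 : G 0 1 = 0) (h12 : G 1 2 = 0) (h22 : G 2 2 = 0) :
    G.det = - (G 0 2 ^ 2 * G 1 1) := by
  have h10 : G 1 0 = 0 := by rw [← h01]; exact hG.apply 0 1
  have h21 : G 2 1 = 0 := by rw [← h12]; exact hG.apply 1 2
  have h20 : G 2 0 = G 0 2 := hG.apply 0 2
  rw [Matrix.det_fin_three, h00, h01, h12, h22, h10, h21, h20]
  ring

/-- the columns of `X * Nq` -/
theorem col0 (v : InfinitePlace F) (X : Matrix (Fin 3) (Fin 3) (𝓞 F)) (d e q : 𝓞 F) :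
    (em v fun l => ((X * Nq d e q) l 0 : F)) = em v fun l => (X l 0 : F) := by
  funext l
  simp [em, Nq, Matrix.mul_apply, Fin.sum_univ_three]

theorem col1 (v : InfinitePlace F) (X : Matrix (Fin 3) (Fin 3) (𝓞 F)) (d e q : 𝓞 F) :
    (em v fun l => ((X * Nq d e q) l 1 : F)) = (em v fun l => (X l 1 : F)) +
      v.embedding ((-2 * e * q : 𝓞 F) : F) • (em v fun l => (X l 0 : F)) := by
  funext l
  simp [em, Nq, Matrix.mul_apply, Fin.sum_univ_three]
  ring

theorem col2 (v : InfinitePlace F) (X : Matrix (Fin 3) (Fin 3) (𝓞 F)) (d e q : 𝓞 F) :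
    (em v fun l => ((X * Nq d e q) l 2 : F)) = (em v fun l => (X l 2 : F)) +
      v.embedding ((2 * d * q : 𝓞 F) : F) • (em v fun l => (X l 1 : F)) +
      v.embedding ((-2 * d * e * q ^ 2 : 𝓞 F) : F) • (em v fun l => (X l 0 : F)) := by
  funext l
  simp [em, Nq, Matrix.mul_apply, Fin.sum_univ_three]
  ring

theorem v_neg (v : InfinitePlace F) (x : F) : v (-x) = v x := by
  rw [← InfinitePlace.norm_embedding_eq, map_neg, norm_neg, InfinitePlace.norm_embedding_eq]

theorem v_two (v : InfinitePlace F) : v ((2 : 𝓞 F) : F) = 2 := by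
  have h : ((2 : 𝓞 F) : F) = 2 := map_ofNat (algebraMap (𝓞 F) F) 2
  rw [h, ← InfinitePlace.norm_embedding_eq, map_ofNat]
  simp

/-! ## Entries of Gram matrices -/

variable [NumberField F]

theorem att_change (hBCH : SpecBCH.{u}) {a b : F}
    {c : Gal F → Pt (curve a b) (AlgebraicClosure F)} {A B : Matrix (Fin 3) (Fin 3) (𝓞 F)}
    (h : Att a b c (inc A) (inc B)) {X : Matrix (Fin 3) (Fin 3) (𝓞 F)} (hX : X.det ≠ 0) :
    Att a b c (inc (X.transpose * A * X)) (inc (X.transpose * B * X)) := by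
  rw [inc_mul, inc_mul, inc_transpose, inc_mul, inc_mul, inc_transpose]
  apply hBCH.1 F a b c _ _ _ h
  rw [inc_det]
  intro h0
  exact hX (inj (by rw [h0, map_zero]))

theorem entry (v : InfinitePlace F) (A X : Matrix (Fin 3) (Fin 3) (𝓞 F)) (i j : Fin 3) :
    v (((X.transpose * A * X) i j : 𝓞 F) : F) =
      ‖(em v fun l => (X l i : F)) ⬝ᵥ
        ((inc A).map v.embedding).mulVec (em v fun l => (X l j : F))‖ := by
  rw [← InfinitePlace.norm_embedding_eq]
  congr 1
  simp only [em, inc, Matrix.mul_apply, dotProduct, Matrix.mulVec, Matrix.transpose_apply,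
    Matrix.map_apply, map_add, map_mul, Fin.sum_univ_three]
  ring

theorem bdA {A B : Matrix (Fin 3) (Fin 3) (𝓞 F)} {ρ : InfinitePlace F → ℝ}
    {U : InfinitePlace F → Matrix (Fin 3) (Fin 3) ℂ} (hM : Maj (inc A) (inc B) ρ U)
    (X : Matrix (Fin 3) (Fin 3) (𝓞 F)) (v : InfinitePlace F) (i j : Fin 3) :
    v (((X.transpose * A * X) i j : 𝓞 F) : F) ≤
      en ((U v).mulVec (em v fun l => (X l i : F))) *
        en ((U v).mulVec (em v fun l => (X l j : F))) := by
  rw [entry]
  exact (hM v).2.2.1 _ _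

theorem bdB {A B : Matrix (Fin 3) (Fin 3) (𝓞 F)} {ρ : InfinitePlace F → ℝ}
    {U : InfinitePlace F → Matrix (Fin 3) (Fin 3) ℂ} (hM : Maj (inc A) (inc B) ρ U)
    (X : Matrix (Fin 3) (Fin 3) (𝓞 F)) (v : InfinitePlace F) (i j : Fin 3) :
    v (((X.transpose * B * X) i j : 𝓞 F) : F) ≤
      2 * ρ v * (en ((U v).mulVec (em v fun l => (X l i : F))) *
        en ((U v).mulVec (em v fun l => (X l j : F)))) := by
  rw [entry]
  exact (hM v).2.2.2 _ _

omit [NumberField F] in
/-- numerical estimate for the columns -/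
theorem cols {U : InfinitePlace F → Matrix (Fin 3) (Fin 3) ℂ} {X : Matrix (Fin 3) (Fin 3) (𝓞 F)}
    {v : InfinitePlace F} {m C : ℝ} {k : ℕ} {d e q : 𝓞 F} (hC : 1 ≤ C) (hm : 0 < m)
    (hk : (2 : ℝ) ^ k ≤ 1 / m) (hk' : 1 / m < 2 ^ (k + 1))
    (h0 : en ((U v).mulVec (em v fun i => (X i 0 : F))) ≤ m)
    (h1 : en ((U v).mulVec (em v fun i => (X i 1 : F))) ≤ C)
    (h2 : en ((U v).mulVec (em v fun i => (X i 2 : F))) ≤ C / m)
    (hd : v (d : F) ≤ C) (he : v (e : F) ≤ C ^ 2) (hq : v (q : F) ≤ 2 ^ k) (j : Fin 3) :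
    en ((U v).mulVec (em v fun l => ((X * Nq d e q) l j : F))) ≤
      2 * (C + 2 * C ^ 2 + 2 * C ^ 3) * (2 : ℝ) ^ ((k : ℤ) * ((j : ℕ) - 1 : ℤ)) := by
  have hq' : v (q : F) ≤ 1 / m := hq.trans hk
  have hkp : (0 : ℝ) < 2 ^ k := by positivity
  have hC2 : (0 : ℝ) ≤ C := by linarith
  have hv2 : v ((2 : 𝓞 F) : F) = 2 := v_two v
  have hqm : v (q : F) * m ≤ 1 := by
    calc v (q : F) * m ≤ 1 / m * m := mul_le_mul_of_nonneg_right hq' hm.le
      _ = 1 := by field_simp
  fin_cases j
  · show en ((U v).mulVec (em v fun l => ((X * Nq d e q) l 0 : F))) ≤ _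
    rw [col0]
    refine h0.trans ?_
    have h3 : m ≤ ((2 : ℝ) ^ k)⁻¹ := by
      rw [le_inv_comm₀ hm hkp]
      simpa using hk
    have h4 : (2 : ℝ) ^ ((k : ℤ) * (((0 : Fin 3) : ℕ) - 1 : ℤ)) = ((2 : ℝ) ^ k)⁻¹ := by
      have : (k : ℤ) * (((0 : Fin 3) : ℕ) - 1 : ℤ) = -(k : ℤ) := by simp
      rw [this, zpow_neg, zpow_natCast]
    refine h3.trans ?_
    show ((2 : ℝ) ^ k)⁻¹ ≤ 2 * (C + 2 * C ^ 2 + 2 * C ^ 3) *
      (2 : ℝ) ^ ((k : ℤ) * (((0 : Fin 3) : ℕ) - 1 : ℤ))
    rw [h4]
    have h5 : (0 : ℝ) < ((2 : ℝ) ^ k)⁻¹ := by positivity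
    have h6 : 1 ≤ 2 * (C + 2 * C ^ 2 + 2 * C ^ 3) := by
      have : 0 ≤ C ^ 2 := by positivity
      have : 0 ≤ C ^ 3 := by positivity
      linarith
    nlinarith
  · show en ((U v).mulVec (em v fun l => ((X * Nq d e q) l 1 : F))) ≤
      2 * (C + 2 * C ^ 2 + 2 * C ^ 3) * (2 : ℝ) ^ ((k : ℤ) * (((1 : Fin 3) : ℕ) - 1 : ℤ))
    rw [col1, Matrix.mulVec_add, Matrix.mulVec_smul]
    have h4 : (2 : ℝ) ^ ((k : ℤ) * (((1 : Fin 3) : ℕ) - 1 : ℤ)) = 1 := by simp
    rw [h4, mul_one]
    refine (en_add _ _).trans ?_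
    rw [en_smul, InfinitePlace.norm_embedding_eq]
    have h5 : v ((-2 * e * q : 𝓞 F) : F) = 2 * v (e : F) * v (q : F) := by
      have : ((-2 * e * q : 𝓞 F) : F) = -(((2 : 𝓞 F) : F) * (e : F) * (q : F)) := by
        push_cast
        ring
      rw [this, v_neg, map_mul, map_mul, hv2]
    rw [h5]
    have h6 : 2 * v (e : F) * v (q : F) * en ((U v).mulVec (em v fun i => (X i 0 : F))) ≤
        2 * C ^ 2 := by
      calc 2 * v (e : F) * v (q : F) * en ((U v).mulVec (em v fun i => (X i 0 : F)))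
          ≤ 2 * v (e : F) * v (q : F) * m := by
            apply mul_le_mul_of_nonneg_left h0
            have := apply_nonneg v (e : F)
            have := apply_nonneg v (q : F)
            positivity
        _ = 2 * v (e : F) * (v (q : F) * m) := by ring
        _ ≤ 2 * v (e : F) * 1 := by
            apply mul_le_mul_of_nonneg_left hqm
            have := apply_nonneg v (e : F)
            positivity
        _ ≤ 2 * C ^ 2 := by linarith
    have : 0 ≤ C ^ 2 := by positivity
    have : 0 ≤ C ^ 3 := by positivity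
    linarith
  · show en ((U v).mulVec (em v fun l => ((X * Nq d e q) l 2 : F))) ≤
      2 * (C + 2 * C ^ 2 + 2 * C ^ 3) * (2 : ℝ) ^ ((k : ℤ) * (((2 : Fin 3) : ℕ) - 1 : ℤ))
    rw [col2, Matrix.mulVec_add, Matrix.mulVec_add, Matrix.mulVec_smul, Matrix.mulVec_smul]
    have h4 : (2 : ℝ) ^ ((k : ℤ) * (((2 : Fin 3) : ℕ) - 1 : ℤ)) = 2 ^ k := by
      have : (k : ℤ) * (((2 : Fin 3) : ℕ) - 1 : ℤ) = (k : ℤ) := by
        simp
      rw [this, zpow_natCast]
    rw [h4]
    refine (en_add _ _).trans ?_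
    refine (add_le_add_left (en_add _ _) _).trans ?_
    rw [en_smul, en_smul, InfinitePlace.norm_embedding_eq, InfinitePlace.norm_embedding_eq]
    have h5 : v ((2 * d * q : 𝓞 F) : F) = 2 * v (d : F) * v (q : F) := by
      have : ((2 * d * q : 𝓞 F) : F) = (((2 : 𝓞 F) : F) * (d : F) * (q : F)) := by
        push_cast
        ring
      rw [this, map_mul, map_mul, hv2]
    have h5' : v ((-2 * d * e * q ^ 2 : 𝓞 F) : F) =
        2 * v (d : F) * v (e : F) * v (q : F) ^ 2 := by
      have : ((-2 * d * e * q ^ 2 : 𝓞 F) : F) =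
          -(((2 : 𝓞 F) : F) * (d : F) * (e : F) * (q : F) ^ 2) := by
        push_cast
        ring
      rw [this, v_neg, map_mul, map_mul, map_mul, map_pow, hv2]
    rw [h5, h5']
    have nd := apply_nonneg v (d : F)
    have ne := apply_nonneg v (e : F)
    have nq := apply_nonneg v (q : F)
    have n1 := en_nonneg ((U v).mulVec (em v fun i => (X i 1 : F)))
    have n0 := en_nonneg ((U v).mulVec (em v fun i => (X i 0 : F)))
    have h6 : 2 * v (d : F) * v (q : F) * en ((U v).mulVec (em v fun i => (X i 1 : F))) ≤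
        2 * C ^ 2 * (1 / m) := by
      calc 2 * v (d : F) * v (q : F) * en ((U v).mulVec (em v fun i => (X i 1 : F)))
          ≤ 2 * C * (1 / m) * C := by gcongr
        _ = 2 * C ^ 2 * (1 / m) := by ring
    have h7 : 2 * v (d : F) * v (e : F) * v (q : F) ^ 2 *
        en ((U v).mulVec (em v fun i => (X i 0 : F))) ≤ 2 * C ^ 3 * (1 / m) := by
      calc 2 * v (d : F) * v (e : F) * v (q : F) ^ 2 *
            en ((U v).mulVec (em v fun i => (X i 0 : F)))
          ≤ 2 * C * C ^ 2 * (1 / m) ^ 2 * m := by gcongr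
        _ = 2 * C ^ 3 * (1 / m) := by field_simp
    have h8 : C / m = C * (1 / m) := by ring
    rw [h8] at h2
    have h9 : (C + 2 * C ^ 2 + 2 * C ^ 3) * (1 / m) ≤ (C + 2 * C ^ 2 + 2 * C ^ 3) * 2 ^ (k + 1) := by
      apply mul_le_mul_of_nonneg_left hk'.le
      positivity
    have h10 : (C + 2 * C ^ 2 + 2 * C ^ 3) * 2 ^ (k + 1) =
        2 * (C + 2 * C ^ 2 + 2 * C ^ 3) * 2 ^ k := by
      rw [pow_succ]
      ring
    linarith

end

end CLSM

open CLSM in
theorem specCLS (hPRE : SpecPRE.{u}) (hRE0 : SpecRE0.{u}) (hRE1 : SpecRE1.{u})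
    (hRE2 : SpecRE2.{u}) (hBCH : SpecBCH.{u}) (hTRV : SpecTRV.{u}) : SpecCLS.{u} := by
  intro F _ _
  obtain ⟨C₀, hC₀, h0⟩ := hRE0 F
  obtain ⟨C₁, hC₁, h1⟩ := hRE1 F C₀
  obtain ⟨C₂, hC₂, h2⟩ := hRE2 F
  have hD : 0 ≤ 8 * (C₂ + 2 * C₂ ^ 2 + 2 * C₂ ^ 3) ^ 2 := by positivity
  have hC12 : (1 : ℝ) ≤ C₁ ^ 2 := one_le_pow₀ hC₁
  have hC22 : (1 : ℝ) ≤ C₂ ^ 2 := one_le_pow₀ hC₂
  have hC2le : C₂ ≤ C₂ ^ 2 := by nlinarith
  refine ⟨2 * C₁ ^ 2 + C₂ ^ 2 + 8 * (C₂ + 2 * C₂ ^ 2 + 2 * C₂ ^ 3) ^ 2, by linarith, ?_⟩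
  set C : ℝ := 2 * C₁ ^ 2 + C₂ ^ 2 + 8 * (C₂ + 2 * C₂ ^ 2 + 2 * C₂ ^ 3) ^ 2 with hCdef
  intro ρ a b c hρ hab hc hcn
  obtain ⟨A, B, U, hAtt, hAs, hBs, hAd, hM⟩ := hPRE F a b c ρ hab.1 hc (fun v =>
    ⟨by linarith [hρ v], (hab.2 v).1, (hab.2 v).2⟩)
  have hU : ∀ v, ‖(U v).det‖ = 1 ∧ (v.IsReal → ∀ i j, (U v i j).im = 0) := fun v =>
    ⟨(hM v).1, (hM v).2.1⟩
  have h2c : ∀ s, (2 : ℕ) • c s = 0 := hc.2.1
  obtain ⟨x, m, hx, hm, hmC, hxm, hmin⟩ := h0 U hU
  rcases le_or_gt 1 m with hm1 | hm1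
  · left
    obtain ⟨X, hX, hXb⟩ := h1 U x hU hx (fun v => (hxm v).trans hmC) (fun y hy => by
      obtain ⟨v, hv⟩ := hmin y hy
      exact ⟨v, hm1.trans hv⟩)
    have hAtt' := att_change hBCH hAtt hX
    obtain ⟨g1, g2, g3, g4⟩ := inc_props (hBCH.2.2 F _ _ c _ _ hAtt')
    refine ⟨(X.transpose * A * X, X.transpose * B * X), ⟨g1, g2, g3, g4, ?_⟩, hAtt'⟩
    intro v i j
    have hen : en ((U v).mulVec (em v fun l => (X l i : F))) *
        en ((U v).mulVec (em v fun l => (X l j : F))) ≤ C₁ ^ 2 := by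
      rw [pow_two]
      exact mul_le_mul (hXb v i) (hXb v j) (en_nonneg _) (by linarith)
    constructor
    · refine (bdA hM X v i j).trans (hen.trans ?_)
      rw [hCdef]
      linarith
    · refine (bdB hM X v i j).trans ?_
      have hρ0 : 0 ≤ ρ v := by linarith [hρ v]
      calc 2 * ρ v * (en ((U v).mulVec (em v fun l => (X l i : F))) *
            en ((U v).mulVec (em v fun l => (X l j : F)))) ≤ 2 * ρ v * C₁ ^ 2 := by gcongr
        _ = (2 * C₁ ^ 2) * ρ v := by ring
        _ ≤ C * ρ v := by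
          apply mul_le_mul_of_nonneg_right _ hρ0
          rw [hCdef]
          linarith
  · right
    obtain ⟨X, hX, g00, g01, g12, g22, hXb⟩ := h2 A (inc B) ρ U x m hAs hAd hM hx hm hm1 hxm hmin
    obtain ⟨k, hk, hk'⟩ := exists_nat_pow_near (x := 1 / m) (y := (2 : ℝ))
      (by rw [le_div_iff₀ hm]; linarith) (by norm_num)
    set G := X.transpose * A * X with hG
    set H := X.transpose * B * X with hH
    set d := G 0 2 with hd
    set e := G 1 1 with he
    have hAttG : Att (a : F) (b : F) c (inc G) (inc H) := att_change hBCH hAtt hX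
    obtain ⟨s1, s2, s3, s4⟩ := inc_props (hBCH.2.2 F _ _ c _ _ hAttG)
    have hH00 : H 0 0 ≠ 0 := by
      intro h
      apply hcn
      apply hTRV F _ _ c _ _ h2c hAttG (Pi.single 0 1)
      · intro h'
        have := congrFun h' 0
        simp at this
      · simp [inc, g00]
      · simp [inc, h]
    have he0 : e ≠ 0 := by
      intro h
      apply s3
      rw [det_G s1 g00 g01 g12 g22, ← he, h]
      ring
    have hdv : ∀ v : InfinitePlace F, v (d : F) ≤ C₂ := by
      intro v
      refine (bdA hM X v 0 2).trans ?_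
      calc en ((U v).mulVec (em v fun l => (X l 0 : F))) *
            en ((U v).mulVec (em v fun l => (X l 2 : F))) ≤ m * (C₂ / m) :=
            mul_le_mul (hXb v).1 (hXb v).2.2 (en_nonneg _) hm.le
        _ = C₂ := by field_simp
    have hev : ∀ v : InfinitePlace F, v (e : F) ≤ C₂ ^ 2 := by
      intro v
      refine (bdA hM X v 1 1).trans ?_
      rw [pow_two]
      exact mul_le_mul (hXb v).2.1 (hXb v).2.1 (en_nonneg _) (by linarith)
    have hGq : ∀ q, (Nq d e q).transpose * G * Nq d e q = G := fun q =>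
      Nq_gram d e q s1 g00 g01 g12 g22 rfl rfl
    refine ⟨k, fun q => (G, (Nq d e q).transpose * H * Nq d e q), ?_, ?_⟩
    · intro q _ q' _ hqq
      have h3 : ((Nq d e q).transpose * H * Nq d e q) 0 1 =
          ((Nq d e q').transpose * H * Nq d e q') 0 1 := by
        have := congrArg Prod.snd hqq
        simp only at this
        rw [this]
      rw [Nq_01, Nq_01] at h3
      have h4 : 2 * e * H 0 0 * (q - q') = 0 := by linear_combination -h3
      rcases mul_eq_zero.1 h4 with h5 | h5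
      · exfalso
        rcases mul_eq_zero.1 h5 with h6 | h6
        · rcases mul_eq_zero.1 h6 with h7 | h7
          · exact two_ne_zero h7
          · exact he0 h7
        · exact hH00 h6
      · exact sub_eq_zero.1 h5
    · intro q hq
      have hAttq : Att (a : F) (b : F) c (inc G) (inc ((Nq d e q).transpose * H * Nq d e q)) := by
        have h3 := att_change hBCH hAttG (X := Nq d e q) (by rw [Nq_det]; exact one_ne_zero)
        rw [hGq] at h3
        exact h3
      refine ⟨?_, hAttq⟩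
      obtain ⟨t1, t2, t3, t4⟩ := inc_props (hBCH.2.2 F _ _ c _ _ hAttq)
      refine ⟨t1, t2, t3, t4, g00, g01, g12, g22, ?_, ?_⟩
      · simp only
        rw [Nq_00]
        exact hH00
      · intro v i j
        constructor
        · have h10 : G 1 0 = 0 := by rw [← g01]; exact s1.apply 0 1
          have h21 : G 2 1 = 0 := by rw [← g12]; exact s1.apply 1 2
          have h20 : G 2 0 = d := s1.apply 0 2
          have hCp : 0 ≤ C := by rw [hCdef]; linarith
          have hdC : v (d : F) ≤ C := (hdv v).trans (by rw [hCdef]; linarith)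
          have heC : v (e : F) ≤ C := (hev v).trans (by rw [hCdef]; linarith)
          show v ((G i j : 𝓞 F) : F) ≤ C
          fin_cases i <;> fin_cases j
          · show v ((G 0 0 : 𝓞 F) : F) ≤ C
            rw [g00]; simpa using hCp
          · show v ((G 0 1 : 𝓞 F) : F) ≤ C
            rw [g01]; simpa using hCp
          · exact hdC
          · show v ((G 1 0 : 𝓞 F) : F) ≤ C
            rw [h10]; simpa using hCp
          · exact heC
          · show v ((G 1 2 : 𝓞 F) : F) ≤ C
            rw [g12]; simpa using hCp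
          · show v ((G 2 0 : 𝓞 F) : F) ≤ C
            rw [h20]; exact hdC
          · show v ((G 2 1 : 𝓞 F) : F) ≤ C
            rw [h21]; simpa using hCp
          · show v ((G 2 2 : 𝓞 F) : F) ≤ C
            rw [g22]; simpa using hCp
        · have h3 : (Nq d e q).transpose * H * Nq d e q =
              (X * Nq d e q).transpose * B * (X * Nq d e q) := by
            rw [hH, Matrix.transpose_mul]
            simp only [Matrix.mul_assoc]
          show v ((((Nq d e q).transpose * H * Nq d e q) i j : 𝓞 F) : F) ≤ _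
          rw [h3]
          refine (bdB hM (X * Nq d e q) v i j).trans ?_
          have hρ0 : 0 ≤ ρ v := by linarith [hρ v]
          have ci := cols (U := U) (X := X) (v := v) (d := d) (e := e) (q := q) hC₂ hm hk hk'
            (hXb v).1 (hXb v).2.1 (hXb v).2.2 (hdv v) (hev v) (hq v) i
          have cj := cols (U := U) (X := X) (v := v) (d := d) (e := e) (q := q) hC₂ hm hk hk'
            (hXb v).1 (hXb v).2.1 (hXb v).2.2 (hdv v) (hev v) (hq v) j
          have hD0 : 0 ≤ 2 * (C₂ + 2 * C₂ ^ 2 + 2 * C₂ ^ 3) := by positivity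
          have hz : (2 : ℝ) ^ ((k : ℤ) * ((i : ℕ) + (j : ℕ) - 2 : ℤ)) =
              (2 : ℝ) ^ ((k : ℤ) * ((i : ℕ) - 1 : ℤ)) * (2 : ℝ) ^ ((k : ℤ) * ((j : ℕ) - 1 : ℤ)) := by
            rw [← zpow_add₀ (by norm_num)]
            congr 1
            ring
          rw [hz]
          calc 2 * ρ v * (en ((U v).mulVec (em v fun l => ((X * Nq d e q) l i : F))) *
                en ((U v).mulVec (em v fun l => ((X * Nq d e q) l j : F))))
              ≤ 2 * ρ v * ((2 * (C₂ + 2 * C₂ ^ 2 + 2 * C₂ ^ 3) *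
                  (2 : ℝ) ^ ((k : ℤ) * ((i : ℕ) - 1 : ℤ))) *
                (2 * (C₂ + 2 * C₂ ^ 2 + 2 * C₂ ^ 3) *
                  (2 : ℝ) ^ ((k : ℤ) * ((j : ℕ) - 1 : ℤ)))) := by
                apply mul_le_mul_of_nonneg_left _ (by positivity)
                exact mul_le_mul ci cj (en_nonneg _) (by positivity)
            _ = (8 * (C₂ + 2 * C₂ ^ 2 + 2 * C₂ ^ 3) ^ 2) * (ρ v *
                ((2 : ℝ) ^ ((k : ℤ) * ((i : ℕ) - 1 : ℤ)) *
                  (2 : ℝ) ^ ((k : ℤ) * ((j : ℕ) - 1 : ℤ)))) := by ring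
            _ ≤ C * (ρ v * ((2 : ℝ) ^ ((k : ℤ) * ((i : ℕ) - 1 : ℤ)) *
                  (2 : ℝ) ^ ((k : ℤ) * ((j : ℕ) - 1 : ℤ)))) := by
                apply mul_le_mul_of_nonneg_right _ (by positivity)
                rw [hCdef]
                linarith
            _ = C * ρ v * ((2 : ℝ) ^ ((k : ℤ) * ((i : ℕ) - 1 : ℤ)) *
                  (2 : ℝ) ^ ((k : ℤ) * ((j : ℕ) - 1 : ℤ))) := by ring

end Pool.Agent.Lib.MP_8cb858_nt.SEL
end

section
set_option autoImplicit false

/-!
# CNL: lower bound for the number of integers in a box of any shape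
-/

namespace Pool.Agent.Lib.MP_8cb858_nt.SEL

open NumberField IsDedekindDomain
open scoped Classical

universe u

open CNUM in
theorem specCNL : SpecCNL.{u} := by
  intro F _ _
  set n := Module.finrank ℚ F with hn
  have hn0 : 0 < n := Module.finrank_pos
  let ι := Module.Free.ChooseBasisIndex ℤ (𝓞 F)
  let bb : Module.Basis ι ℤ (𝓞 F) := RingOfIntegers.basis F
  have hι : Fintype.card ι = n := by
    rw [← Module.finrank_eq_card_basis bb, RingOfIntegers.rank]
  obtain ⟨B0, hB1, hB⟩ : ∃ B0 : ℝ, 1 ≤ B0 ∧ ∀ (v : InfinitePlace F) (i : ι), v (bb i : F) ≤ B0 := by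
    obtain ⟨B, hB⟩ := (Set.finite_range
      (fun p : InfinitePlace F × ι => p.1 (bb p.2 : F))).bddAbove
    exact ⟨max 1 B, le_max_left _ _, fun v i => (hB ⟨(v, i), rfl⟩).trans (le_max_right _ _)⟩
  have hnB : (1 : ℝ) ≤ n * B0 := by
    have : (1 : ℝ) ≤ n := by exact_mod_cast hn0
    nlinarith
  refine ⟨((8 * (n * B0)) ^ n)⁻¹, by positivity, fun s hs => ?_⟩
  have hs0 : ∀ v, 0 < s v := fun v => lt_of_lt_of_le one_pos (hs v)
  obtain ⟨M, hM0, hM⟩ : ∃ M : ℕ, 0 < M ∧ ∀ v : InfinitePlace F, s v ≤ M := by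
    obtain ⟨B, hB⟩ := (Set.finite_range s).bddAbove
    obtain ⟨M, hM⟩ := exists_nat_ge (max B 1)
    refine ⟨M, ?_, fun v => (hB ⟨v, rfl⟩).trans ((le_max_left _ _).trans hM)⟩
    have h1 : (1 : ℝ) ≤ M := (le_max_right _ _).trans hM
    exact_mod_cast (lt_of_lt_of_le one_pos h1)
  have hM0' : (0 : ℝ) < M := by exact_mod_cast hM0
  -- the integers with small coordinates
  let g : (ι → Fin M) → 𝓞 F := fun m => ∑ i, ((m i : ℕ) : ℤ) • bb i
  have hg : Function.Injective g := by
    intro m m' h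
    have h1 : bb.repr (g m) = bb.repr (g m') := by rw [h]
    funext i
    have h2 : ∀ m : ι → Fin M, bb.repr (g m) i = ((m i : ℕ) : ℤ) := by
      intro m
      simp only [g]
      rw [bb.repr_sum_self]
    have h3 := DFunLike.congr_fun h1 i
    rw [h2, h2] at h3
    exact Fin.ext (by exact_mod_cast h3)
  let R : Finset (𝓞 F) := Finset.univ.map ⟨g, hg⟩
  have hRc : R.card = M ^ n := by
    simp only [R, Finset.card_map, Finset.card_univ, Fintype.card_fun, Fintype.card_fin, hι]
  have hRb : ∀ x ∈ R, x ∈ box F (fun _ => n * B0 * M) := by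
    intro x hx
    simp only [R, Finset.mem_map, Finset.mem_univ, true_and, Function.Embedding.coeFn_mk] at hx
    obtain ⟨m, rfl⟩ := hx
    intro v
    have e : ((g m : 𝓞 F) : F) = ∑ i, ((m i : ℕ) : F) * (bb i : F) := by
      simp only [g]
      rw [RingOfIntegers.coe_eq_algebraMap, map_sum]
      refine Finset.sum_congr rfl fun i _ => ?_
      rw [zsmul_eq_mul, map_mul]
      simp
    rw [e]
    calc v (∑ i, ((m i : ℕ) : F) * (bb i : F)) ≤ ∑ i, v (((m i : ℕ) : F) * (bb i : F)) := by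
          rw [← InfinitePlace.norm_embedding_eq, map_sum]
          refine (norm_sum_le _ _).trans (Finset.sum_le_sum fun i _ => ?_)
          rw [InfinitePlace.norm_embedding_eq]
      _ ≤ ∑ _i : ι, M * B0 := by
          refine Finset.sum_le_sum fun i _ => ?_
          rw [map_mul]
          refine mul_le_mul ?_ (hB v i) (apply_nonneg _ _) hM0'.le
          have h1 : v ((m i : ℕ) : F) = ((m i : ℕ) : ℝ) := by
            rw [← InfinitePlace.norm_embedding_eq]
            simp
          rw [h1]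
          exact_mod_cast (m i).isLt.le
      _ = n * B0 * M := by
          rw [Finset.sum_const, Finset.card_univ, hι, nsmul_eq_mul]
          ring
  set w : InfinitePlace F → ℝ := fun v => s v / 2 with hw
  have hw0 : ∀ v, 0 < w v := fun v => div_pos (hs0 v) (by norm_num)
  set Y : InfinitePlace F → ℝ := fun v => n * B0 * M / w v with hY
  have hY0 : ∀ v, 2 * (n * B0) ≤ Y v := by
    intro v
    simp only [hY, hw]
    rw [div_div_eq_mul_div, le_div_iff₀ (hs0 v)]
    have := hM v
    nlinarith [hs0 v]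
  have hY1 : ∀ v, 2 * Y v + 3 ≤ 8 * (n * B0) * M * (s v)⁻¹ := by
    intro v
    have h1 : 8 * (n * B0) * M * (s v)⁻¹ = 4 * Y v := by
      simp only [hY, hw]
      field_simp
      ring
    rw [h1]
    have := hY0 v
    linarith
  have hmaps : ∀ x ∈ R, cell w x ∈ Fintype.piFinset (cells Y) := by
    intro x hx
    rw [Fintype.mem_piFinset]
    exact fun v => cell_mem hw0 (fun _ => le_refl _) (hRb x hx) v
  have hcount : ((Fintype.piFinset (cells Y)).card : ℝ) ≤
      (8 * (n * B0)) ^ n * (M : ℝ) ^ n * (vol s)⁻¹ := by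
    refine (card_pi_le fun v => by have := hY0 v; nlinarith).trans ?_
    refine (vol_mono (fun v => by have := hY0 v; nlinarith) hY1).trans (le_of_eq ?_)
    have h2 : vol (fun v : InfinitePlace F => (s v)⁻¹) = (vol s)⁻¹ := by
      unfold vol
      rw [← Finset.prod_inv_distrib]
      exact Finset.prod_congr rfl fun v _ => inv_pow _ _
    have h3 := vol_mul (F := F) (fun _ => 8 * (n * B0) * M) (fun v => (s v)⁻¹)
    rw [h3, h2, vol_const, mul_pow]
  have hvs : 0 < vol s := vol_pos hs0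
  obtain ⟨y, -, hy⟩ := Finset.exists_le_card_fiber_of_nsmul_le_card_of_maps_to
    (s := R) (t := Fintype.piFinset (cells Y)) (f := cell w)
    (b := ((8 * (n * B0)) ^ n)⁻¹ * vol s) hmaps (by
      have hRn : R.Nonempty := by
        rw [← Finset.card_pos, hRc]
        positivity
      obtain ⟨x, hx⟩ := hRn
      exact ⟨_, hmaps x hx⟩) (by
      rw [nsmul_eq_mul, hRc]
      push_cast
      calc ((Fintype.piFinset (cells Y)).card : ℝ) * (((8 * (n * B0)) ^ n)⁻¹ * vol s)
          ≤ ((8 * (n * B0)) ^ n * (M : ℝ) ^ n * (vol s)⁻¹) *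
            (((8 * (n * B0)) ^ n)⁻¹ * vol s) :=
            mul_le_mul_of_nonneg_right hcount (by positivity)
        _ = (M : ℝ) ^ n := by
            field_simp)
  refine hy.trans ?_
  have hne : (R.filter (fun x => cell w x = y)).Nonempty := by
    rw [← Finset.card_pos]
    have h4 : (0 : ℝ) < ((R.filter (fun x => cell w x = y)).card : ℝ) :=
      lt_of_lt_of_le (by positivity) hy
    exact_mod_cast h4
  obtain ⟨x0, hx0⟩ := hne
  rw [Finset.mem_filter] at hx0
  have h5 : (R.filter (fun x => cell w x = y)).card ≤ (box F s).ncard := by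
    rw [← Set.ncard_coe_finset]
    refine Set.ncard_le_ncard_of_injOn (fun x => x - x0) ?_ ?_ (box_finite s)
    · intro x hx
      rw [Finset.mem_coe, Finset.mem_filter] at hx
      intro v
      have h6 := cell_close hw0 (hx.2.trans hx0.2.symm) v
      simp only [hw] at h6
      have h7 : v ((x - x0 : 𝓞 F) : F) < s v := by linarith
      exact h7.le
    · intro x _ x' _ h
      exact sub_left_injective h
  exact_mod_cast h5

end Pool.Agent.Lib.MP_8cb858_nt.SEL
end

section
/-!
# Module GRF (helper20): the Gram matrices of the twisted space are over `F`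
-/
namespace Pool.Agent.Lib.MP_8cb858_nt.SEL.GRFM

open NumberField IsDedekindDomain
open scoped Classical

universe u

variable {F : Type u} [Field F]

lemma cubic {K : Type u} [Field K] {a b : K} {th : Fin 3 → K} (h : IsRoots a b th) (x : K) :
    (x - th 0) * (x - th 1) * (x - th 2) = x ^ 3 + a * x + b := by
  have h1 := h.e1
  have h2 := h.e2
  have h3 := h.e3
  linear_combination (-x ^ 2) * h1 + x * h2 - h3

lemma root {K : Type u} [Field K] {a b : K} {th : Fin 3 → K} (h : IsRoots a b th) (i : Fin 3) :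
    th i ^ 3 + a * th i + b = 0 := by
  rw [← cubic h]
  fin_cases i <;> simp

lemma exists_root {K : Type u} [Field K] {a b : K} {th : Fin 3 → K} (h : IsRoots a b th) {x : K}
    (hx : x ^ 3 + a * x + b = 0) : ∃ k, x = th k := by
  rw [← cubic h, mul_eq_zero, mul_eq_zero] at hx
  rcases hx with (hx | hx) | hx
  · exact ⟨0, sub_eq_zero.1 hx⟩
  · exact ⟨1, sub_eq_zero.1 hx⟩
  · exact ⟨2, sub_eq_zero.1 hx⟩

lemma fp_eq {K : Type u} [Field K] {a b : K} {th : Fin 3 → K} (h : IsRoots a b th) (i : Fin 3) :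
    fp th i = 3 * th i ^ 2 + a := by
  have h1 := h.e1
  have h2 := h.e2
  fin_cases i
  · show (th 0 - th 1) * (th 0 - th 2) = 3 * th 0 ^ 2 + a
    linear_combination (-2 * th 0) * h1 + h2
  · show (th 1 - th 2) * (th 1 - th 0) = 3 * th 1 ^ 2 + a
    linear_combination (-2 * th 1) * h1 + h2
  · show (th 2 - th 0) * (th 2 - th 1) = 3 * th 2 ^ 2 + a
    linear_combination (-2 * th 2) * h1 + h2

lemma fp_ne {K : Type u} [Field K] {a b : K} {th : Fin 3 → K} (h : IsRoots a b th) (i : Fin 3) :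
    fp th i ≠ 0 := by
  have hi := h.inj
  fin_cases i
  · show (th 0 - th 1) * (th 0 - th 2) ≠ 0
    exact mul_ne_zero (sub_ne_zero.2 (hi.ne (by decide))) (sub_ne_zero.2 (hi.ne (by decide)))
  · show (th 1 - th 2) * (th 1 - th 0) ≠ 0
    exact mul_ne_zero (sub_ne_zero.2 (hi.ne (by decide))) (sub_ne_zero.2 (hi.ne (by decide)))
  · show (th 2 - th 0) * (th 2 - th 1) ≠ 0
    exact mul_ne_zero (sub_ne_zero.2 (hi.ne (by decide))) (sub_ne_zero.2 (hi.ne (by decide)))

lemma exists_perm {a b : F} {th : Fin 3 → AlgebraicClosure F}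
    (h : IsRoots (algebraMap F _ a) (algebraMap F _ b) th) (s : Gal F) :
    ∃ σ : Equiv.Perm (Fin 3), ∀ i, s (th i) = th (σ i) := by
  have h1 : ∀ i, ∃ k, s (th i) = th k := fun i => by
    refine exists_root h ?_
    have h2 := congrArg s (root h i)
    simpa using h2
  choose f hf using h1
  have hinj : Function.Injective f := fun i j hij => by
    have : s (th i) = s (th j) := by rw [hf, hf, hij]
    exact h.inj (s.injective this)
  refine ⟨Equiv.ofBijective f (Finite.injective_iff_bijective.1 hinj), fun i => ?_⟩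
  rw [hf]; rfl

lemma map_fp {a b : F} {th : Fin 3 → AlgebraicClosure F}
    (h : IsRoots (algebraMap F _ a) (algebraMap F _ b) th) (s : Gal F) (σ : Equiv.Perm (Fin 3))
    (hσ : ∀ i, s (th i) = th (σ i)) (i : Fin 3) : s (fp th i) = fp th (σ i) := by
  rw [fp_eq h, fp_eq h, ← hσ, map_add, map_mul, map_pow, AlgEquiv.commutes]
  congr 2
  exact map_ofNat s 3

lemma fixed [CharZero F] (x : AlgebraicClosure F) (h : ∀ s : Gal F, s x = x) :
    ∃ y : F, algebraMap F (AlgebraicClosure F) y = x := by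
  have : x ∈ (⊥ : IntermediateField F (AlgebraicClosure F)) :=
    (InfiniteGalois.mem_bot_iff_fixed x).2 h
  exact IntermediateField.mem_bot.1 this

section

variable [CharZero F] {a b : F} {th : Fin 3 → AlgebraicClosure F}
  {c : Gal F → Pt (curve a b) (AlgebraicClosure F)}
  {Z : Matrix (Fin 3) (Fin 3) (AlgebraicClosure F)}

lemma sgn (hW : SpecWEI.{u}) (h : IsRoots (algebraMap F _ a) (algebraMap F _ b) th)
    (hc : ∀ s, (2 : ℕ) • c s = 0) (s : Gal F) (i : Fin 3) :
    (sg th (c s) i : AlgebraicClosure F) * (sg th (c s) i : AlgebraicClosure F) = 1 := by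
  have h1 := ((hW F (AlgebraicClosure F) a b th h).2.1 (c s) (hc s)).1 i
  rcases h1 with h1 | h1 <;> rw [h1] <;> simp

lemma sgn_prod (hW : SpecWEI.{u}) (h : IsRoots (algebraMap F _ a) (algebraMap F _ b) th)
    (hc : ∀ s, (2 : ℕ) • c s = 0) (s : Gal F) :
    ∏ i, (sg th (c s) i : AlgebraicClosure F) = 1 := by
  have h1 := ((hW F (AlgebraicClosure F) a b th h).2.1 (c s) (hc s)).2
  rw [Fin.prod_univ_three]
  exact_mod_cast h1

lemma map_sum (hW : SpecWEI.{u}) (h : IsRoots (algebraMap F _ a) (algebraMap F _ b) th)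
    (hc : ∀ s, (2 : ℕ) • c s = 0) (hZ : Twisted th c Z) (g : AlgebraicClosure F → AlgebraicClosure F)
    (hg : ∀ (s : Gal F) x, s (g x) = g (s x)) (s : Gal F) (j k : Fin 3) :
    s (∑ i, g (th i) * (Z i j * Z i k) / fp th i) = ∑ i, g (th i) * (Z i j * Z i k) / fp th i := by
  obtain ⟨σ, hσ⟩ := exists_perm h s
  rw [_root_.map_sum, ← Equiv.sum_comp σ (fun i => g (th i) * (Z i j * Z i k) / fp th i)]
  refine Finset.sum_congr rfl fun i _ => ?_
  rw [map_div₀, map_mul, map_mul, map_fp h s σ hσ, hg, hσ, hZ.2 s i (σ i) j (hσ i),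
    hZ.2 s i (σ i) k (hσ i)]
  have h1 := sgn hW h hc s (σ i)
  congr 1
  linear_combination (g (th (σ i)) * Z (σ i) j * Z (σ i) k) * h1

lemma exists_map {M : Matrix (Fin 3) (Fin 3) (AlgebraicClosure F)}
    (hM : ∀ (s : Gal F) j k, s (M j k) = M j k) :
    ∃ A : Matrix (Fin 3) (Fin 3) F, M = A.map (algebraMap F _) := by
  choose A hA using fun j k => fixed (M j k) (fun s => hM s j k)
  exact ⟨Matrix.of A, by ext j k; simp [hA]⟩

omit [CharZero F] in
lemma det_perm {M : Matrix (Fin 3) (Fin 3) (AlgebraicClosure F)} (s : Gal F)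
    (σ : Equiv.Perm (Fin 3)) (e : Fin 3 → AlgebraicClosure F) (he : ∏ i, e i = 1)
    (hM : ∀ i j, s (M i j) = e (σ i) * M (σ i) j) :
    s M.det = (Equiv.Perm.sign σ : AlgebraicClosure F) * M.det := by
  have h1 : s M.det = (M.map s).det := by
    rw [← AlgEquiv.mapMatrix_apply, ← AlgEquiv.map_det]
  have h2 : M.map s = Matrix.of fun i j => e (σ i) * (M.submatrix σ id) i j := by
    ext i j; simp [hM]
  rw [h1, h2, Matrix.det_mul_column, Matrix.det_permute, Equiv.prod_comp σ e, he, one_mul]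

end

end Pool.Agent.Lib.MP_8cb858_nt.SEL.GRFM

namespace Pool.Agent.Lib.MP_8cb858_nt.SEL

universe u

theorem specGRF (hW : SpecWEI.{u}) : SpecGRF.{u} := by
  intro F _ _ a b th c Z h hc hZ
  refine ⟨?_, ?_⟩
  · obtain ⟨A, hA⟩ := GRFM.exists_map (M := gA th Z) (fun s j k => by
      have h1 := GRFM.map_sum hW h hc hZ (fun _ => 1) (fun s x => by simp) s j k
      simpa [gA] using h1)
    obtain ⟨B, hB⟩ := GRFM.exists_map (M := gB th Z) (fun s j k => by
      have h1 := GRFM.map_sum hW h hc hZ (fun x => x) (fun s x => rfl) s j k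
      simpa [gB] using h1)
    exact ⟨A, B, hA, hB⟩
  · have hv : (vnd th).det ≠ 0 := by
      have : vnd th = Matrix.vandermonde th := rfl
      rw [this]
      exact Matrix.det_vandermonde_ne_zero_iff.2 h.inj
    obtain ⟨q, hq⟩ := GRFM.fixed (F := F) (Z.det / (vnd th).det) (fun s => by
      obtain ⟨σ, hσ⟩ := GRFM.exists_perm h s
      have h1 := GRFM.det_perm (M := Z) s σ (fun i => (sg th (c s) i : AlgebraicClosure F))
        (GRFM.sgn_prod hW h hc s) (fun i j => hZ.2 s i (σ i) j (hσ i))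
      have h2 := GRFM.det_perm (M := vnd th) s σ (fun _ => 1) (by simp)
        (fun i j => by simp [vnd, hσ])
      rw [map_div₀, h1, h2]
      refine mul_div_mul_left _ _ ?_
      rcases Int.units_eq_one_or (Equiv.Perm.sign σ) with h3 | h3 <;> rw [h3] <;> simp)
    exact ⟨q, by rw [hq, div_mul_cancel₀ _ hv]⟩

end Pool.Agent.Lib.MP_8cb858_nt.SEL
end

section
/-!
# Module DES (helper20): a basis of the twisted space (Galois descent by hand)
-/
namespace Pool.Agent.Lib.MP_8cb858_nt.SEL.DESM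

open NumberField IsDedekindDomain
open scoped Classical

universe u v

variable {F : Type u} [Field F]

/-- From a spanning family of vectors of `K^3` one can choose a matrix of nonzero determinant. -/
lemma exists_matrix {K : Type u} [Field K] {ι : Type v} (z : ι → Fin 3 → K)
    (hz : ∀ m : Fin 3 → K, (∀ t, ∑ i, m i * z t i = 0) → m = 0) :
    ∃ f : Fin 3 → ι, (Matrix.of fun i j => z (f j) i).det ≠ 0 := by
  have hspan : Submodule.span K (Set.range z) = ⊤ := by
    by_contra hcon
    obtain ⟨f, hf, hle⟩ := Submodule.exists_le_ker_of_lt_top _ (lt_top_iff_ne_top.2 hcon)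
    apply hf
    have h1 : ∀ v : Fin 3 → K, f v = ∑ i, f (Pi.single i 1) * v i := by
      intro v
      conv_lhs => rw [← Finset.univ_sum_single v]
      rw [map_sum]
      refine Finset.sum_congr rfl fun i _ => ?_
      have : (Pi.single i (v i) : Fin 3 → K) = v i • Pi.single i 1 := by
        ext k; by_cases hk : k = i
        · subst hk; simp
        · simp [hk]
      rw [this, map_smul, smul_eq_mul, mul_comm]
    have h2 := hz (fun i => f (Pi.single i 1)) (fun t => by
      rw [← h1]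
      exact hle (Submodule.subset_span ⟨t, rfl⟩))
    refine LinearMap.ext fun v => ?_
    rw [h1 v]
    refine Finset.sum_eq_zero fun i _ => ?_
    have h3 : f (Pi.single i 1) = 0 := congrFun h2 i
    rw [h3, zero_mul]
  obtain ⟨b, hb, hb1, hb2⟩ := exists_linearIndependent K (Set.range z)
  rw [hspan] at hb1
  let B : Module.Basis b K (Fin 3 → K) := Module.Basis.mk hb2 (by
    rw [Subtype.range_coe]; exact hb1.ge)
  let e : Fin 3 ≃ b := (Pi.basisFun K (Fin 3)).indexEquiv B
  have h3 : ∀ j : Fin 3, ∃ t, z t = (e j : Fin 3 → K) := fun j => hb (e j).2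
  choose f hf using h3
  refine ⟨f, ?_⟩
  have h4 : LinearIndependent K (fun j : Fin 3 => z (f j)) := by
    have h5 := hb2.comp e e.injective
    have : (fun j : Fin 3 => z (f j)) = Subtype.val ∘ e := funext hf
    rw [this]; exact h5
  have h6 : IsUnit (Matrix.of fun i j => z (f j) i) := by
    rw [← Matrix.linearIndependent_cols_iff_isUnit]
    exact h4
  exact ((Matrix.isUnit_iff_isUnit_det _).1 h6).ne_zero

/-- A finite normal extension inside the algebraic closure containing given elements. -/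
lemma exists_normal [CharZero F] (K0 : IntermediateField F (AlgebraicClosure F))
    (hK0 : FiniteDimensional F K0) (th : Fin 3 → AlgebraicClosure F) :
    ∃ L : IntermediateField F (AlgebraicClosure F), FiniteDimensional F L ∧ Normal F L ∧
      K0 ≤ L ∧ ∀ i, th i ∈ L := by
  have : FiniteDimensional F (IntermediateField.adjoin F (Set.range th)) :=
    IntermediateField.finiteDimensional_adjoin fun x _ => Algebra.IsIntegral.isIntegral x
  set K1 := K0 ⊔ IntermediateField.adjoin F (Set.range th) with hK1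
  have : FiniteDimensional F K1 := IntermediateField.finiteDimensional_sup _ _
  refine ⟨IntermediateField.normalClosure F K1 (AlgebraicClosure F), inferInstance, inferInstance,
    le_sup_left.trans (IntermediateField.le_normalClosure K1), fun i => ?_⟩
  refine IntermediateField.le_normalClosure K1 ?_
  exact (le_sup_right : _ ≤ K1) (IntermediateField.subset_adjoin F _ ⟨i, rfl⟩)

end Pool.Agent.Lib.MP_8cb858_nt.SEL.DESM

namespace Pool.Agent.Lib.MP_8cb858_nt.SEL

universe u

open DESM in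
theorem specDES (hW : SpecWEI.{u}) (hP : SpecPSH.{u}) : SpecDES.{u} := by
  classical
  intro F _ _ a b th c hr hcc hc2
  obtain ⟨hc, K0, hK0, hK0'⟩ := hcc
  obtain ⟨L, hLf, hLn, hKL, hthL⟩ := exists_normal K0 hK0 th
  -- the finite Galois group and its lift
  let π : Gal F → (L ≃ₐ[F] L) := fun s => AlgEquiv.restrictNormalHom L s
  have hπ : ∀ (s : Gal F) (x : L), ((π s x : L) : AlgebraicClosure F) = s x := fun s x =>
    AlgEquiv.restrictNormal_commutes s L x
  have hsurj : Function.Surjective π := AlgEquiv.restrictNormalHom_surjective _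
  choose r hrr using hsurj
  have hπmul : ∀ s t, π (s * t) = π s * π t := fun s t => map_mul _ s t
  have hrL : ∀ (g : L ≃ₐ[F] L) (x : L), r g (x : AlgebraicClosure F) = (g x : L) := fun g x => by
    rw [← hπ, hrr]
  -- agreement on L
  have hagree : ∀ (s : Gal F) (g : L ≃ₐ[F] L) (x : AlgebraicClosure F), x ∈ L →
      r (π s * g) x = s (r g x) := by
    intro s g x hx
    have h1 := hrL (π s * g) ⟨x, hx⟩
    have h2 := hrL g ⟨x, hx⟩
    rw [AlgEquiv.mul_apply] at h1
    simp only at h1 h2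
    rw [h1, h2, hπ]
  have hcr : ∀ (s : Gal F) (g : L ≃ₐ[F] L), c (r (π s * g)) = c (s * r g) := by
    intro s g
    refine hK0' _ _ fun x hx => ?_
    rw [hagree s g x (hKL hx)]; rfl
  have hperm := fun s : Gal F => GRFM.exists_perm hr s
  choose σ hσ using hperm
  have hσmul : ∀ (s : Gal F) (g : L ≃ₐ[F] L) (j : Fin 3), σ (r (π s * g)) j = σ s (σ (r g) j) := by
    intro s g j
    apply hr.inj
    rw [← hσ, ← hσ, ← hσ, hagree s g _ (hthL j)]
  let z : (L × Fin 3) → Fin 3 → AlgebraicClosure F := fun t i =>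
    ∑ g : L ≃ₐ[F] L, if σ (r g) t.2 = i then
      (sg th (c (r g)) i : AlgebraicClosure F) * r g (t.1 : AlgebraicClosure F) else 0
  have hsgn : ∀ (s : Gal F) (i : Fin 3), sg th (c s) i = 1 ∨ sg th (c s) i = -1 := fun s i =>
    ((hW F (AlgebraicClosure F) a b th hr).2.1 (c s) (hc2 s)).1 i
  have hz : ∀ (t : L × Fin 3) (s : Gal F) (i k : Fin 3), s (th i) = th k →
      s (z t i) = (sg th (c s) k : AlgebraicClosure F) * z t k := by
    intro t s i k hik
    have hk : σ s i = k := hr.inj (by rw [← hσ, hik])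
    simp only [z]
    rw [map_sum, ← Equiv.sum_comp (Equiv.mulLeft (π s)) (fun g : L ≃ₐ[F] L =>
      if σ (r g) t.2 = k then
        (sg th (c (r g)) k : AlgebraicClosure F) * r g (t.1 : AlgebraicClosure F) else 0),
      Finset.mul_sum]
    refine Finset.sum_congr rfl fun g _ => ?_
    show s (if σ (r g) t.2 = i then
      (sg th (c (r g)) i : AlgebraicClosure F) * r g (t.1 : AlgebraicClosure F) else 0) =
      (sg th (c s) k : AlgebraicClosure F) * (if σ (r (π s * g)) t.2 = k then
      (sg th (c (r (π s * g))) k : AlgebraicClosure F) * r (π s * g) (t.1 : AlgebraicClosure F)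
      else 0)
    by_cases hg : σ (r g) t.2 = i
    · rw [if_pos hg, if_pos (show σ (r (π s * g)) t.2 = k by rw [hσmul, hg, hk]), map_mul, hagree s g _ t.1.2, hcr, hc s (r g)]
      have h1 : sg th (c s + push (curve a b) (s : AlgebraicClosure F →ₐ[F] AlgebraicClosure F)
          (c (r g))) k = sg th (c s) k * sg th (c (r g)) i := by
        rw [(hW F (AlgebraicClosure F) a b th hr).1 _ _ (hc2 s)
          (by rw [← map_nsmul, hc2, map_zero])]
        congr 1
        exact ((hP F (AlgebraicClosure F) (AlgebraicClosure F) a b th th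
          (s : AlgebraicClosure F →ₐ[F] AlgebraicClosure F) hr hr i k hik).2 (c (r g))).1
      rw [h1]
      rcases hsgn s k with h2 | h2 <;> rcases hsgn (r g) i with h3 | h3 <;> rw [h2, h3] <;> simp
    · rw [if_neg hg, if_neg (show ¬ σ (r (π s * g)) t.2 = k by
        rw [hσmul]
        intro h2
        exact hg ((σ s).injective (h2.trans hk.symm))), map_zero, mul_zero]
  obtain ⟨f, hf⟩ := exists_matrix z (fun m hm => by
    -- Dedekind
    let ch : (L ≃ₐ[F] L) → (L →* AlgebraicClosure F) := fun g =>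
      { toFun := fun x => (g x : L)
        map_one' := by simp
        map_mul' := fun x y => by simp }
    have hch : Function.Injective ch := fun g g' hgg => by
      ext x
      have := DFunLike.congr_fun hgg x
      exact this
    have hli := (linearIndependent_monoidHom L (AlgebraicClosure F)).comp ch hch
    funext j
    have h1 := Fintype.linearIndependent_iff.1 hli
      (fun g => m (σ (r g) j) * (sg th (c (r g)) (σ (r g) j) : AlgebraicClosure F)) (by
        funext l
        have h2 := hm (l, j)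
        simp only [z] at h2
        simp only [Finset.mul_sum] at h2
        rw [Finset.sum_comm] at h2
        rw [Finset.sum_apply, Pi.zero_apply, ← h2]
        refine Finset.sum_congr rfl fun g _ => ?_
        rw [Finset.sum_eq_single (σ (r g) j)]
        · rw [if_pos rfl, hrL]
          simp only [Pi.smul_apply, smul_eq_mul, Function.comp_apply]
          show _ * (((g l : L) : AlgebraicClosure F)) = _
          ring
        · intro i _ hi
          rw [if_neg (fun h => hi h.symm), mul_zero]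
        · intro h; exact absurd (Finset.mem_univ _) h) 1
    have hone : σ (r 1) j = j := by
      apply hr.inj
      rw [← hσ]
      have := hrL 1 ⟨th j, hthL j⟩
      simpa using this
    rw [hone] at h1
    have h4 : (sg th (c (r 1)) j : AlgebraicClosure F) ≠ 0 := by
      rcases hsgn (r 1) j with h3 | h3 <;> rw [h3] <;> simp
    exact (mul_eq_zero.1 h1).resolve_right h4)
  exact ⟨Matrix.of fun i j => z (f j) i, hf, fun s i k j hik => hz (f j) s i k hik⟩

end Pool.Agent.Lib.MP_8cb858_nt.SEL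
end

section
/-!
# EMB, FXD
-/
namespace Pool.Agent.Lib.MP_8cb858_nt.SEL

universe u w

theorem specEMB : SpecEMB.{u, w} := by
  intro F _ M _ _ i j
  letI : Algebra (AlgebraicClosure F) M := i.toRingHom.toAlgebra
  haveI : IsScalarTower F (AlgebraicClosure F) M :=
    IsScalarTower.of_algebraMap_eq (fun x => (i.commutes x).symm)
  haveI : Normal F (AlgebraicClosure F) := IsAlgClosure.normal F (AlgebraicClosure F)
  refine ⟨j.restrictNormal' (AlgebraicClosure F), fun x => ?_⟩
  have h := j.restrictNormal_commutes (AlgebraicClosure F) x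
  exact h

end Pool.Agent.Lib.MP_8cb858_nt.SEL
end

section
/-!
# FRM: adapted unitary frames in `ℂ^3`
-/
namespace Pool.Agent.Lib.MP_8cb858_nt.SEL

namespace FRMM

open scoped Matrix ComplexConjugate

lemma en_sq (u : Fin 3 → ℂ) : en u ^ 2 = ∑ i, ‖u i‖ ^ 2 :=
  Real.sq_sqrt (Finset.sum_nonneg fun _ _ => by positivity)

lemma en_nonneg (u : Fin 3 → ℂ) : 0 ≤ en u := Real.sqrt_nonneg _

lemma star_dot_self (u : Fin 3 → ℂ) : star u ⬝ᵥ u = ((en u ^ 2 : ℝ) : ℂ) := by
  rw [en_sq]
  push_cast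
  simp only [dotProduct, Pi.star_apply]
  refine Finset.sum_congr rfl fun i _ => ?_
  rw [mul_comm]
  exact Complex.mul_conj' (u i)

lemma en_pos {u : Fin 3 → ℂ} (hu : u ≠ 0) : 0 < en u := by
  rcases lt_or_eq_of_le (en_nonneg u) with h | h
  · exact h
  · exfalso
    apply hu
    have h1 : ∑ i, ‖u i‖ ^ 2 = 0 := by rw [← en_sq, ← h]; norm_num
    rw [Finset.sum_eq_zero_iff_of_nonneg (fun _ _ => by positivity)] at h1
    funext i
    have := h1 i (Finset.mem_univ i)
    simpa using this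

/-- Properties of unitary matrices. -/
lemma unit_facts (Q : Matrix (Fin 3) (Fin 3) ℂ) (h : Qᴴ * Q = 1) :
    ‖Q.det‖ = 1 ∧ (∀ w, en (Q.mulVec w) = en w) ∧
      (∀ w w', star (Q.mulVec w) ⬝ᵥ (Q.mulVec w') = star w ⬝ᵥ w') := by
  have h3 : ∀ w w', star (Q.mulVec w) ⬝ᵥ (Q.mulVec w') = star w ⬝ᵥ w' := by
    intro w w'
    rw [Matrix.star_mulVec, ← Matrix.dotProduct_mulVec, Matrix.mulVec_mulVec, h,
      Matrix.one_mulVec]
  refine ⟨?_, ?_, h3⟩
  · have h1 : star Q.det * Q.det = 1 := by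
      rw [← Matrix.det_conjTranspose, ← Matrix.det_mul, h, Matrix.det_one]
    have h2 : ‖Q.det‖ * ‖Q.det‖ = 1 := by
      have := congrArg norm h1
      rwa [norm_mul, norm_star, norm_one] at this
    have h0 := norm_nonneg Q.det
    nlinarith
  · intro w
    have h1 := h3 w w
    rw [star_dot_self, star_dot_self] at h1
    have h2 : en (Q.mulVec w) ^ 2 = en w ^ 2 := by exact_mod_cast h1
    have h4 := en_nonneg w
    have h5 := en_nonneg (Q.mulVec w)
    nlinarith

/-- The frame. -/
noncomputable def fr (e0 e2 : Fin 3 → ℂ) : Matrix (Fin 3) (Fin 3) ℂ :=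
  Matrix.of ![star e0, crossProduct e2 e0, star e2]

lemma fr_unit (e0 e2 : Fin 3 → ℂ) (h0 : star e0 ⬝ᵥ e0 = 1) (h2 : star e2 ⬝ᵥ e2 = 1)
    (h : star e0 ⬝ᵥ e2 = 0) : (fr e0 e2)ᴴ * fr e0 e2 = 1 := by
  apply mul_eq_one_comm.1
  have h' : star e2 ⬝ᵥ e0 = 0 := by
    have := congrArg star h
    simpa [dotProduct, Fin.sum_univ_three, mul_comm] using this
  simp only [dotProduct, Fin.sum_univ_three, Pi.star_apply] at h0 h2 h h'
  simp only [RCLike.star_def] at h0 h2 h h'
  ext i j
  fin_cases i <;> fin_cases j <;>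
    simp [fr, Matrix.mul_apply, Fin.sum_univ_three, cross_apply]
  · linear_combination h0
  · ring
  · linear_combination h
  · ring
  · linear_combination h2 * (e0 0 * conj (e0 0) + e0 1 * conj (e0 1) + e0 2 * conj (e0 2)) +
      h0 - (conj (e2 0) * e0 0 + conj (e2 1) * e0 1 + conj (e2 2) * e0 2) * h
  · ring
  · linear_combination h'
  · ring
  · linear_combination h2

end FRMM

open FRMM in
theorem specFRM : SpecFRM := by
  have key : ∀ u n : Fin 3 → ℂ, u ≠ 0 → n ≠ 0 → star u ⬝ᵥ n = 0 →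
    ∃ Q : Matrix (Fin 3) (Fin 3) ℂ, ‖Q.det‖ = 1 ∧ (∀ w, en (Q.mulVec w) = en w) ∧
      (∀ w w', star (Q.mulVec w) ⬝ᵥ (Q.mulVec w') = star w ⬝ᵥ w') ∧
      (Q.mulVec u) 1 = 0 ∧ (Q.mulVec u) 2 = 0 ∧ (Q.mulVec n) 0 = 0 ∧ (Q.mulVec n) 1 = 0 ∧
      ((∀ i, (u i).im = 0) → (∀ i, (n i).im = 0) → ∀ i j, (Q i j).im = 0) := by
    intro u n hu hn hun
    have hu0 := en_pos hu
    have hn0 := en_pos hn
    have hu1 : ((en u : ℝ) : ℂ) ≠ 0 := by exact_mod_cast hu0.ne'
    have hn1 : ((en n : ℝ) : ℂ) ≠ 0 := by exact_mod_cast hn0.ne'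
    set e0 : Fin 3 → ℂ := (((en u)⁻¹ : ℝ) : ℂ) • u with he0
    set e2 : Fin 3 → ℂ := (((en n)⁻¹ : ℝ) : ℂ) • n with he2
    have hs0 : star e0 = (((en u)⁻¹ : ℝ) : ℂ) • star u := by
      rw [he0]; funext i; simp
    have hs2 : star e2 = (((en n)⁻¹ : ℝ) : ℂ) • star n := by
      rw [he2]; funext i; simp
    have hnu : star n ⬝ᵥ u = 0 := by
      have := congrArg star hun
      simpa [dotProduct, Fin.sum_univ_three, mul_comm] using this
    have h0 : star e0 ⬝ᵥ e0 = 1 := by
      rw [hs0, he0, smul_dotProduct, dotProduct_smul, star_dot_self]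
      push_cast
      simp only [smul_eq_mul]
      field_simp
    have h2 : star e2 ⬝ᵥ e2 = 1 := by
      rw [hs2, he2, smul_dotProduct, dotProduct_smul, star_dot_self]
      push_cast
      simp only [smul_eq_mul]
      field_simp
    have h : star e0 ⬝ᵥ e2 = 0 := by
      rw [hs0, he2, smul_dotProduct, dotProduct_smul, hun]
      simp
    have hQ := fr_unit e0 e2 h0 h2 h
    obtain ⟨hd, hen, hin⟩ := unit_facts _ hQ
    refine ⟨fr e0 e2, hd, hen, hin, ?_, ?_, ?_, ?_, ?_⟩
    · have : crossProduct e2 e0 ⬝ᵥ u = 0 := by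
        rw [he0, map_smul, smul_dotProduct, dotProduct_comm, dot_cross_self]
        simp
      exact this
    · have : star e2 ⬝ᵥ u = 0 := by
        rw [hs2, smul_dotProduct, hnu]; simp
      exact this
    · have : star e0 ⬝ᵥ n = 0 := by
        rw [hs0, smul_dotProduct, hun]; simp
      exact this
    · have : crossProduct e2 e0 ⬝ᵥ n = 0 := by
        have h7 : crossProduct n e0 ⬝ᵥ n = 0 := by
          rw [dotProduct_comm]; exact dot_self_cross n e0
        have h8 : crossProduct e2 e0 = (((en n)⁻¹ : ℝ) : ℂ) • crossProduct n e0 := by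
          rw [he2]; simp only [map_smul, LinearMap.smul_apply]
        rw [h8, smul_dotProduct, h7]
        simp
      exact this
    · intro hur hnr
      have r0 : ∀ i, (e0 i).im = 0 := by
        intro i; rw [he0]; simp [hur i]
      have r2 : ∀ i, (e2 i).im = 0 := by
        intro i; rw [he2]; simp [hnr i]
      intro i j
      fin_cases i
      · simp [fr, r0 j]
      · fin_cases j <;> simp [fr, cross_apply, r0, r2]
      · simp [fr, r2 j]
  refine ⟨key, ?_⟩
  intro u w huw
  have hc : crossProduct u w ≠ 0 := crossProduct_ne_zero_iff_linearIndependent.2 huw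
  have hu : u ≠ 0 := by
    rintro rfl
    apply hc
    simp
  have hn : star (crossProduct u w) ≠ 0 := by
    intro h0
    apply hc
    have := congrArg star h0
    simpa using this
  have hun : star u ⬝ᵥ star (crossProduct u w) = 0 := by
    have h1 : u ⬝ᵥ crossProduct u w = 0 := dot_self_cross u w
    have := congrArg star h1
    simpa [dotProduct, Fin.sum_univ_three] using this
  obtain ⟨Q, hd, hen, hin, h1, h2, h3, h4, hr⟩ := key u _ hu hn hun
  refine ⟨Q, hd, hen, h1, h2, ?_, ?_⟩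
  · have hz := hin (star (crossProduct u w)) w
    have h5 : star (star (crossProduct u w)) ⬝ᵥ w = 0 := by
      rw [star_star, dotProduct_comm]; exact dot_cross_self u w
    rw [h5] at hz
    simp only [dotProduct, Fin.sum_univ_three, Pi.star_apply, h3, h4, star_zero, zero_mul,
      zero_add] at hz
    rcases mul_eq_zero.1 hz with h6 | h6
    · exfalso
      have h7 : (Q.mulVec (star (crossProduct u w))) 2 = 0 := by simpa using h6
      have h8 : en (Q.mulVec (star (crossProduct u w))) = 0 := by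
        unfold en
        rw [Fin.sum_univ_three, h3, h4, h7]
        simp
      rw [hen] at h8
      exact (en_pos hn).ne' h8
    · exact h6
  · intro hur hwr
    apply hr hur
    intro i
    fin_cases i <;> simp [cross_apply, hur, hwr]

end Pool.Agent.Lib.MP_8cb858_nt.SEL
end

section
/-!
# FXD
-/
namespace Pool.Agent.Lib.MP_8cb858_nt.SEL

universe u w

theorem specFXD : SpecFXD.{u} := by
  intro K _ _ x hx
  haveI : Normal K (AlgebraicClosure K) := IsAlgClosure.normal K (AlgebraicClosure K)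
  haveI : IsGalois K (AlgebraicClosure K) := {}
  have h : x ∈ (⊥ : IntermediateField K (AlgebraicClosure K)) :=
    (InfiniteGalois.mem_bot_iff_fixed x).2 hx
  exact IntermediateField.mem_bot.1 h

end Pool.Agent.Lib.MP_8cb858_nt.SEL
end

section
/-!
# Module INJ (helper20): the pair of Gram matrices determines the curve and the class
-/
namespace Pool.Agent.Lib.MP_8cb858_nt.SEL.INJM

open NumberField IsDedekindDomain
open scoped Classical
open Matrix

universe u

section field

variable {K : Type u} [Field K]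

lemma gA_eq (th : Fin 3 → K) (Z : Matrix (Fin 3) (Fin 3) K) :
    gA th Z = Zᵀ * diagonal (fun i => (fp th i)⁻¹) * Z := by
  ext j k
  rw [Matrix.mul_assoc, mul_apply]
  simp only [diagonal_mul, transpose_apply, gA]
  exact Finset.sum_congr rfl fun i _ => by rw [div_eq_mul_inv]; ring

lemma gB_eq (th : Fin 3 → K) (Z : Matrix (Fin 3) (Fin 3) K) :
    gB th Z = Zᵀ * (diagonal (fun i => (fp th i)⁻¹) * diagonal th) * Z := by
  ext j k
  rw [Matrix.mul_assoc, mul_apply, diagonal_mul_diagonal]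
  simp only [diagonal_mul, transpose_apply, gB]
  exact Finset.sum_congr rfl fun i _ => by rw [div_eq_mul_inv]; ring

/-- The linear algebra: equal Gram matrices for both forms force a diagonal change of basis with
entries of square one. -/
lemma diag_of_gram {th : Fin 3 → K} (hth : Function.Injective th) (hf : ∀ i, fp th i ≠ 0)
    {Z Y : Matrix (Fin 3) (Fin 3) K} (hZ : Z.det ≠ 0)
    (hA : gA th Z = gA th Y) (hB : gB th Z = gB th Y) :
    ∃ m : Fin 3 → K, (∀ i, m i * m i = 1) ∧ ∀ i j, Y i j = m i * Z i j := by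
  set D := diagonal (fun i => (fp th i)⁻¹) with hD
  set T := diagonal th with hT
  rw [gA_eq, gA_eq] at hA
  rw [gB_eq, gB_eq] at hB
  have hu : IsUnit Z.det := hZ.isUnit
  set M := Y * Z⁻¹ with hM
  have hMZ : M * Z = Y := by rw [hM, Matrix.mul_assoc, nonsing_inv_mul _ hu, Matrix.mul_one]
  have key : ∀ X : Matrix (Fin 3) (Fin 3) K, Zᵀ * X * Z = Yᵀ * X * Y → Mᵀ * X * M = X := by
    intro X hX
    have h1 : Mᵀ * X * M = (Z⁻¹)ᵀ * (Yᵀ * X * Y) * Z⁻¹ := by
      rw [hM, transpose_mul]; simp only [Matrix.mul_assoc]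
    rw [h1, ← hX]
    have h2 : (Z⁻¹)ᵀ * (Zᵀ * X * Z) * Z⁻¹ = ((Z⁻¹)ᵀ * Zᵀ) * X * (Z * Z⁻¹) := by
      simp only [Matrix.mul_assoc]
    rw [h2, ← transpose_mul, mul_nonsing_inv _ hu, transpose_one, Matrix.one_mul, Matrix.mul_one]
  have h1 : Mᵀ * D * M = D := key D hA
  have h2 : Mᵀ * (D * T) * M = D * T := key (D * T) hB
  have hDu : IsUnit D.det := by
    rw [hD, det_diagonal]
    exact (Finset.prod_ne_zero_iff.2 fun i _ => inv_ne_zero (hf i)).isUnit
  have hMD : IsUnit (Mᵀ * D).det := by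
    have h3 := congrArg det h1
    rw [det_mul] at h3
    exact isUnit_of_mul_isUnit_left (h3 ▸ hDu)
  have h4 : (Mᵀ * D) * (T * M) = (Mᵀ * D) * (M * T) := by
    rw [← Matrix.mul_assoc (Mᵀ * D) M T, h1, ← Matrix.mul_assoc, Matrix.mul_assoc Mᵀ D T, h2]
  have h5 : T * M = M * T := by
    have h6 : (Mᵀ * D)⁻¹ * ((Mᵀ * D) * (T * M)) = (Mᵀ * D)⁻¹ * ((Mᵀ * D) * (M * T)) := by rw [h4]
    rwa [← Matrix.mul_assoc (Mᵀ * D)⁻¹ (Mᵀ * D), ← Matrix.mul_assoc (Mᵀ * D)⁻¹ (Mᵀ * D),
      nonsing_inv_mul _ hMD, Matrix.one_mul, Matrix.one_mul] at h6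
  have h6 : ∀ i j, i ≠ j → M i j = 0 := by
    intro i j hij
    have h7 := congrFun (congrFun h5 i) j
    rw [hT, diagonal_mul, mul_diagonal] at h7
    have h8 : (th i - th j) * M i j = 0 := by linear_combination h7
    rcases mul_eq_zero.1 h8 with h9 | h9
    · exact absurd (hth (sub_eq_zero.1 h9)) hij
    · exact h9
  have h7 : M = diagonal (fun i => M i i) := by
    ext i j
    by_cases hij : i = j
    · subst hij; rw [diagonal_apply_eq]
    · rw [diagonal_apply_ne _ hij, h6 i j hij]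
  refine ⟨fun i => M i i, fun i => ?_, fun i j => ?_⟩
  · have h8 := congrFun (congrFun h1 i) i
    rw [h7, diagonal_transpose, hD, diagonal_mul_diagonal, diagonal_mul_diagonal,
      diagonal_apply_eq, diagonal_apply_eq] at h8
    have h9 : (fp th i)⁻¹ ≠ 0 := inv_ne_zero (hf i)
    have h10 : (M i i * M i i - 1) * (fp th i)⁻¹ = 0 := by linear_combination h8
    rcases mul_eq_zero.1 h10 with h11 | h11
    · exact sub_eq_zero.1 h11
    · exact absurd h11 h9
  · have h8 := congrFun (congrFun hMZ i) j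
    have h9 : (M * Z) i j = M i i * Z i j := by
      rw [mul_apply, Finset.sum_eq_single i (fun k _ hk => by rw [h6 i k hk.symm, zero_mul])
        (fun h => absurd (Finset.mem_univ i) h)]
    rw [← h8, h9]

lemma sg_comp {F : Type u} [Field F] [Algebra F K] {E : WeierstrassCurve F}
    {th th' : Fin 3 → K} {p : Equiv.Perm (Fin 3)} (hp : ∀ i, th' i = th (p i))
    (S : Pt E K) (i : Fin 3) : sg th' S i = sg th S (p i) := by
  cases S with
  | zero => rfl
  | some x y h => simp only [sg, hp]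

end field

variable {F : Type u} [Field F] [CharZero F]

omit [CharZero F] in
lemma part1 (hD : SpecDET.{u}) (a b a' b' : F)
    (c : Gal F → Pt (curve a b) (AlgebraicClosure F))
    (c' : Gal F → Pt (curve a' b') (AlgebraicClosure F)) (A B : Matrix (Fin 3) (Fin 3) F)
    (h : Att a b c A B) (h' : Att a' b' c' A B) : a = a' ∧ b = b' := by
  obtain ⟨th, hr, Z, hZ, hA, hB⟩ := h
  obtain ⟨th', hr', Z', hZ', hA', hB'⟩ := h'
  obtain ⟨hv, -, -, -, h1, h2, -⟩ := hD (AlgebraicClosure F) _ _ th Z hr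
  obtain ⟨-, -, -, -, -, h2', -⟩ := hD (AlgebraicClosure F) _ _ th' Z' hr'
  have hd : (gA th Z).det ≠ 0 := by
    intro h3
    rw [h3, zero_mul] at h1
    exact hZ.1 (pow_eq_zero_iff (two_ne_zero)|>.1 (neg_eq_zero.1 h1.symm))
  rw [hA', hB', ← hA, ← hB] at h2'
  have h3 : ∀ x : AlgebraicClosure F, x ^ 3 + algebraMap F _ a * x + algebraMap F _ b =
      x ^ 3 + algebraMap F _ a' * x + algebraMap F _ b' := fun x =>
    mul_left_cancel₀ hd ((h2 x).symm.trans (h2' x))
  have h4 := h3 0
  have h5 := h3 1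
  have hi := (algebraMap F (AlgebraicClosure F)).injective
  have h6 : algebraMap F (AlgebraicClosure F) b = algebraMap F _ b' := by
    linear_combination h4
  exact ⟨hi (by linear_combination h5 - h6), hi h6⟩

lemma part2 (hW : SpecWEI.{u}) (hP : SpecPSH.{u}) (a b : F)
    (c c' : Gal F → Pt (curve a b) (AlgebraicClosure F)) (A B : Matrix (Fin 3) (Fin 3) F)
    (hc : ∀ s, (2 : ℕ) • c s = 0) (hc' : ∀ s, (2 : ℕ) • c' s = 0)
    (h : Att a b c A B) (h' : Att a b c' A B) : c - c' ∈ Coboundaries 2 (curve a b) := by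
  obtain ⟨th, hr, Z, hZ, hA, hB⟩ := h
  obtain ⟨th', hr', Z', hZ', hA', hB'⟩ := h'
  -- the permutation of the roots
  have h1 : ∀ i, ∃ k, th' i = th k := fun i => GRFM.exists_root hr (GRFM.root hr' i)
  choose f hf using h1
  have hinj : Function.Injective f := fun i j hij => hr'.inj (by rw [hf, hf, hij])
  set p : Equiv.Perm (Fin 3) := Equiv.ofBijective f (Finite.injective_iff_bijective.1 hinj)
    with hpdef
  have hp : ∀ i, th' i = th (p i) := fun i => by rw [hf]; rfl
  have hfp : ∀ i, fp th' i = fp th (p i) := fun i => by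
    rw [GRFM.fp_eq hr', GRFM.fp_eq hr, hp]
  set Y : Matrix (Fin 3) (Fin 3) (AlgebraicClosure F) := Z'.submatrix p.symm id with hY
  have hYp : ∀ i j, Y (p i) j = Z' i j := fun i j => by simp [hY]
  have hYA : gA th Y = gA th' Z' := by
    ext j k
    simp only [gA]
    rw [← Equiv.sum_comp p]
    exact Finset.sum_congr rfl fun i _ => by rw [hYp, hYp, hfp]
  have hYB : gB th Y = gB th' Z' := by
    ext j k
    simp only [gB]
    rw [← Equiv.sum_comp p]
    exact Finset.sum_congr rfl fun i _ => by rw [hYp, hYp, hfp, hp]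
  obtain ⟨m, hm, hm'⟩ := diag_of_gram (Y := Y) hr.inj (GRFM.fp_ne hr) hZ.1
    (by rw [hA, hYA, hA']) (by rw [hB, hYB, hB'])
  -- the twisted relation for Y
  have hYt : ∀ (s : Gal F) (i k j : Fin 3), s (th i) = th k →
      s (Y i j) = (sg th (c' s) k : AlgebraicClosure F) * Y k j := by
    intro s i k j hs
    have h2 := hZ'.2 s (p.symm i) (p.symm k) j (by rw [hp, hp]; simpa using hs)
    have h3 : sg th' (c' s) (p.symm k) = sg th (c' s) k := by
      rw [sg_comp hp]; simp
    rw [h3] at h2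
    simpa [hY] using h2
  have hm1 : ∀ i, m i = 1 ∨ m i = -1 := fun i => mul_self_eq_one_iff.1 (hm i)
  choose ε hε using fun i => show ∃ e : ℤ, (e = 1 ∨ e = -1) ∧ (e : AlgebraicClosure F) = m i by
    rcases hm1 i with h2 | h2
    · exact ⟨1, Or.inl rfl, by rw [h2]; simp⟩
    · exact ⟨-1, Or.inr rfl, by rw [h2]; simp⟩
  set e : ℤ := ε 0 * ε 1 * ε 2 with he
  have he1 : e = 1 ∨ e = -1 := by
    rcases (hε 0).1 with h2 | h2 <;> rcases (hε 1).1 with h3 | h3 <;>
      rcases (hε 2).1 with h4 | h4 <;> rw [he, h2, h3, h4] <;> simp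
  have hee : e * e = 1 := by rcases he1 with h2 | h2 <;> rw [h2] <;> norm_num
  obtain ⟨S, hS, hSs⟩ := (hW F (AlgebraicClosure F) a b th hr).2.2.2 (fun i => e * ε i)
    (fun i => by
      rcases he1 with h2 | h2 <;> rcases (hε i).1 with h3 | h3 <;> simp [h2, h3])
    (by
      show e * ε 0 * (e * ε 1) * (e * ε 2) = 1
      have : e * ε 0 * (e * ε 1) * (e * ε 2) = (e * e) * (e * e) := by
        rw [he]; ring
      rw [this, hee]; norm_num)
  refine ⟨S, hS, fun s => ?_⟩
  obtain ⟨σ, hσ⟩ := GRFM.exists_perm hr s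
  obtain ⟨hadd, -, huniq, -⟩ := hW F (AlgebraicClosure F) a b th hr
  set P := push (curve a b) (s : AlgebraicClosure F →ₐ[F] AlgebraicClosure F) S with hPdef
  have hP2 : (2 : ℕ) • P = 0 := by rw [hPdef, ← map_nsmul, hS, map_zero]
  have hz : c s + c' s + P + S = 0 := by
    refine huniq _ ?_ fun k => ?_
    · rw [nsmul_add, nsmul_add, nsmul_add, hc, hc', hP2, hS]; simp
    · rw [hadd _ _ (by rw [nsmul_add, nsmul_add, hc, hc', hP2]; simp) hS,
        hadd _ _ (by rw [nsmul_add, hc, hc']; simp) hP2, hadd _ _ (hc s) (hc' s)]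
      set i := σ.symm k with hi
      have hik : s (th i) = th k := by rw [hσ, hi]; simp
      have h5 : sg th P k = sg th S i :=
        ((hP F (AlgebraicClosure F) (AlgebraicClosure F) a b th th
          (s : AlgebraicClosure F →ₐ[F] AlgebraicClosure F) hr hr i k hik).2 S).1
      rw [h5, hSs, hSs]
      -- a nonzero entry of the row k
      obtain ⟨j, hj⟩ : ∃ j, Z k j ≠ 0 := by
        by_contra hcon
        push Not at hcon
        exact hZ.1 (Matrix.det_eq_zero_of_row_eq_zero k hcon)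
      have h6 := hYt s i k j hik
      rw [hm' i j, hm' k j, map_mul, hZ.2 s i k j hik] at h6
      have h7 : s (m i) = m i := by
        rcases hm1 i with h8 | h8 <;> rw [h8] <;> simp
      rw [h7] at h6
      have h8 : m i * (sg th (c s) k : AlgebraicClosure F) =
          (sg th (c' s) k : AlgebraicClosure F) * m k :=
        mul_right_cancel₀ hj (by linear_combination h6)
      rw [← (hε i).2, ← (hε k).2] at h8
      have h9 : ε i * sg th (c s) k = sg th (c' s) k * ε k := by exact_mod_cast h8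
      have h10 : sg th (c' s) k * sg th (c' s) k = 1 := by
        rcases ((hW F (AlgebraicClosure F) a b th hr).2.1 (c' s) (hc' s)).1 k with h11 | h11 <;>
          rw [h11] <;> norm_num
      have h11 : ε k * ε k = 1 := by rcases (hε k).1 with h12 | h12 <;> rw [h12] <;> norm_num
      calc sg th (c s) k * sg th (c' s) k * (e * ε i) * (e * ε k)
          = (e * e) * (ε i * sg th (c s) k) * (sg th (c' s) k * ε k) := by ring
        _ = (e * e) * (sg th (c' s) k * sg th (c' s) k) * (ε k * ε k) := by rw [h9]; ring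
        _ = 1 := by rw [hee, h10, h11]; norm_num
  have h12 : c' s + c' s = 0 := by rw [← two_nsmul]; exact hc' s
  have h13 : P + P = 0 := by rw [← two_nsmul]; exact hP2
  show c s - c' s = P - S
  have h14 : c s = -(c' s + P + S) := eq_neg_of_add_eq_zero_left (by rw [← hz]; abel)
  have h15 : -(c' s + P + S) - c' s - (P - S) = -(c' s + c' s) - (P + P) := by abel
  rw [← sub_eq_zero, h14, h15, h12, h13]; simp

end Pool.Agent.Lib.MP_8cb858_nt.SEL.INJM

namespace Pool.Agent.Lib.MP_8cb858_nt.SEL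

universe u

theorem specINJ (hW : SpecWEI.{u}) (hP : SpecPSH.{u}) (hD : SpecDET.{u}) : SpecINJ.{u} := by
  intro F _ _
  exact ⟨fun a b a' b' c c' A B => INJM.part1 hD a b a' b' c c' A B,
    fun a b c c' A B => INJM.part2 hW hP a b c c' A B⟩

end Pool.Agent.Lib.MP_8cb858_nt.SEL
end

section
/-!
# MP_8cb858_nt, module LO1: a good local point
-/
namespace Pool.Agent.Lib.MP_8cb858_nt.SEL

open NumberField IsDedekindDomain
open scoped Classical

universe u

namespace LO1M

variable {F : Type u} [Field F]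

lemma push_push (E : WeierstrassCurve F) {K K' K'' : Type u} [Field K] [Algebra F K] [Field K']
    [Algebra F K'] [Field K''] [Algebra F K''] (i : K →ₐ[F] K') (j : K' →ₐ[F] K'') (P : Pt E K) :
    push E j (push E i P) = push E (j.comp i) P :=
  WeierstrassCurve.Affine.Point.map_map i j P

lemma push_inj (E : WeierstrassCurve F) {K K' : Type u} [Field K] [Algebra F K] [Field K']
    [Algebra F K'] (i : K →ₐ[F] K') : Function.Injective (push E i) :=
  WeierstrassCurve.Affine.Point.map_injective i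

/-- the roots can be transported -/
lemma roots {K K' : Type u} [Field K] [Algebra F K] [Field K'] [Algebra F K'] (i : K →ₐ[F] K')
    {a b : F} {th : Fin 3 → K} (h : IsRoots (algebraMap F K a) (algebraMap F K b) th) :
    IsRoots (algebraMap F K' a) (algebraMap F K' b) (fun j => i (th j)) where
  inj := fun x y hxy => h.inj (i.injective hxy)
  e1 := by rw [← map_add, ← map_add, h.e1, map_zero]
  e2 := by rw [← map_mul, ← map_mul, ← map_mul, ← map_add, ← map_add, h.e2, i.commutes]
  e3 := by rw [← map_mul, ← map_mul, h.e3, map_neg, i.commutes]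

end LO1M

open LO1M

theorem specLO1 (hEMB : SpecEMB.{u, u}) (hFXD : SpecFXD.{u}) (hHAL : SpecHAL.{u})
    (hBAS : SpecBAS.{u}) : SpecLO1.{u} := by
  intro F _ _ K _ _ _ a b c hab hc hloc hR i
  obtain ⟨P0, hP0⟩ := hloc i
  obtain ⟨R, hR⟩ := hR
  -- the roots
  obtain ⟨th0, -, -, -, hth0, -⟩ := hBAS F a b 0 hab (IsContCocycle.zero _) (fun s => by simp)
  have hth := roots i hth0
  -- the embedding of `K`
  let j : K →ₐ[F] AlgebraicClosure K := IsScalarTower.toAlgHom F K (AlgebraicClosure K)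
  have hfix : ∀ s : AlgebraicClosure K ≃ₐ[K] AlgebraicClosure K,
      push (curve a b) ((s : AlgebraicClosure K →ₐ[K] AlgebraicClosure K).restrictScalars F)
        (push (curve a b) j R) = push (curve a b) j R := by
    intro s
    have hj : ((s : AlgebraicClosure K →ₐ[K] AlgebraicClosure K).restrictScalars F).comp j = j := by
      ext x
      simp [j]
    rw [push_push, hj]
  have hR4 : (4 : ℕ) • push (curve a b) j R ≠ 0 := by
    rw [← map_nsmul]
    intro h
    apply hR
    apply push_inj (curve a b) j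
    rw [h, map_zero]
  -- the point `P`
  obtain ⟨P, hP, hP4⟩ : ∃ P : Pt (curve a b) (AlgebraicClosure K),
      (∀ (s : AlgebraicClosure K ≃ₐ[K] AlgebraicClosure K) (t : Gal F),
        (∀ x, i (t x) = s (i x)) →
          push (curve a b) i (c t) = push (curve a b)
            ((s : AlgebraicClosure K →ₐ[K] AlgebraicClosure K).restrictScalars F) P - P) ∧
      (4 : ℕ) • P ≠ 0 := by
    by_cases h4 : (4 : ℕ) • P0 = 0
    · refine ⟨P0 + push (curve a b) j R, ?_, ?_⟩
      · intro s t hst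
        rw [hP0 s t hst, map_add, hfix s]
        abel
      · rw [nsmul_add, h4, zero_add]
        exact hR4
    · exact ⟨P0, hP0, h4⟩
  refine ⟨P, hP, hP4, ?_⟩
  obtain ⟨x', y', h, h2, -⟩ := (hHAL F (AlgebraicClosure K) a b _ hth).2 P hP4
  have hs : ∀ s : AlgebraicClosure K ≃ₐ[K] AlgebraicClosure K, s x' = x' ∧ s y' = y' := by
    intro s
    obtain ⟨t, ht⟩ := hEMB F (AlgebraicClosure K) i
      (((s : AlgebraicClosure K →ₐ[K] AlgebraicClosure K).restrictScalars F).comp i)
    have h3 := hP s t (fun x => ht x)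
    have h4 : push (curve a b)
        ((s : AlgebraicClosure K →ₐ[K] AlgebraicClosure K).restrictScalars F) ((2 : ℕ) • P) =
          (2 : ℕ) • P := by
      rw [map_nsmul, ← sub_eq_zero, ← nsmul_sub, ← h3, ← map_nsmul, hc, map_zero]
    rw [h2] at h4
    have h5 := h4
    unfold push at h5
    rw [WeierstrassCurve.Affine.Point.map_some] at h5
    have h6 := WeierstrassCurve.Affine.Point.some.inj h5
    exact h6
  obtain ⟨x, hx⟩ := hFXD K x' (fun s => (hs s).1)
  obtain ⟨y, hy⟩ := hFXD K y' (fun s => (hs s).2)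
  subst hx
  subst hy
  exact ⟨x, y, h, h2⟩

end Pool.Agent.Lib.MP_8cb858_nt.SEL
end
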