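import Pool.Agent.Lib.MP_8cb858_nt.SEL.Alg

/-!
# Specs for: the average size of Sel_2 is bounded over every number field

Every Spec is a closed proposition; its doc string contains a complete proof.
Conventions. `Pt E K` = `E(K)`; `push E i` the map on points; `sg`, `hlf`, `fp`, `vnd`, `gA`,
`gB`, `Twisted`, `Att`, `Maj`, `R1`, `R2`, `Bx`, `vol`: see `Alg.lean`.
For `E = curve a b`: equation `y^2 = x^3 + a x + b`, `negY x y = - y`, slope of a chord
`(y1-y2)/(x1-x2)`, slope of a tangent `(3x^2+a)/(2y)`, `x3 = l^2 - x1 - x2`,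
`y3 = -(y1 + l (x3 - x1))`. Write `t_i = th i`. By `IsRoots`,
`x^3 + a x + b = (x - t_0)(x - t_1)(x - t_2)` and `fp th i = 3 t_i^2 + a`.
-/

namespace Pool.Agent.Lib.MP_8cb858_nt.SEL

open NumberField IsDedekindDomain
open scoped Classical

universe u w

/-! ## Part 1. 2-torsion points and half points -/

/-- **WEI.** The Weil pairing with the points `T_i = (t_i, 0)`.
Proof. For `S = some x y` one has `2 S = 0` iff `S = - S` iff `y = 0` (char 0); then
`0 = (x-t_0)(x-t_1)(x-t_2)`, so `x = t_j` for exactly one `j` and `sg th S i = 1` iff `i = j`.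
So the 2-torsion points are `0` (all signs 1) and the `T_j = some (t_j) 0` (they are nonsingular
points because `3 t_j^2 + a = fp th j ≠ 0`), with sign vectors `(1,-1,-1), (-1,1,-1), (-1,-1,1)`.
This gives the second, third and fourth claim. First claim: `0 + S' = S'`, `T_i + T_i = 0`
(as `2 T_i = 0`), and for `i ≠ j`, `k` the third index, `T_i + T_j = T_k`: the slope is
`(0-0)/(t_i-t_j) = 0`, `x3 = - t_i - t_j = t_k` by `e1`, `y3 = 0`. Compare sign vectors. -/
def SpecWEI : Prop :=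
  ∀ (F K : Type u) [Field F] [Field K] [CharZero K] [Algebra F K] (a b : F) (th : Fin 3 → K),
    IsRoots (algebraMap F K a) (algebraMap F K b) th →
    (∀ S S' : Pt (curve a b) K, (2 : ℕ) • S = 0 → (2 : ℕ) • S' = 0 →
      ∀ i, sg th (S + S') i = sg th S i * sg th S' i) ∧
    (∀ S : Pt (curve a b) K, (2 : ℕ) • S = 0 →
      (∀ i, sg th S i = 1 ∨ sg th S i = -1) ∧ sg th S 0 * sg th S 1 * sg th S 2 = 1) ∧
    (∀ S : Pt (curve a b) K, (2 : ℕ) • S = 0 → (∀ i, sg th S i = 1) → S = 0) ∧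
    (∀ e : Fin 3 → ℤ, (∀ i, e i = 1 ∨ e i = -1) → e 0 * e 1 * e 2 = 1 →
      ∃ S : Pt (curve a b) K, (2 : ℕ) • S = 0 ∧ ∀ i, sg th S i = e i)

/-- **PSH.** Compatibility of signs and half points with maps of fields.
Proof. `push E i (some x y) = some (i x) (i y)` and `i` is injective; `i x = i (th j) = th' k` iff
`x = th j`. By `IsRoots`, `fp th j = 3 (th j)^2 + a` and `fp th' k = 3 (th' k)^2 + a`, so
`i (fp th j) = fp th' k`. (For `j = 0`: `(t0-t1)(t0-t2) = t0^2 - t0 (t1+t2) + t1 t2`,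
`t1 + t2 = - t0`, `t1 t2 = a - t0 (t1+t2) = a + t0^2`; same for the others.) -/
def SpecPSH : Prop :=
  ∀ (F K K' : Type u) [Field F] [Field K] [Field K'] [Algebra F K] [Algebra F K'] (a b : F)
    (th : Fin 3 → K) (th' : Fin 3 → K') (i : K →ₐ[F] K'),
    IsRoots (algebraMap F K a) (algebraMap F K b) th →
    IsRoots (algebraMap F K' a) (algebraMap F K' b) th' →
    ∀ (j k : Fin 3), i (th j) = th' k → i (fp th j) = fp th' k ∧
      ∀ S : Pt (curve a b) K, sg th' (push (curve a b) i S) k = sg th S j ∧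
        i (hlf th S j) = hlf th' (push (curve a b) i S) k

/-- **HAL.** Half points. `K` any field of characteristic 0.
(1) If `P = some x y`, `y ≠ 0`: `2 P = some x' y'` with `x' = l^2 - 2x`, `l = (3x^2+a)/(2y)`, and
`x' - t_i = ((x-t_i)^2 - fp th i)^2/(4y^2)`: multiply by `4 y^2 = 4 (x-t_0)(x-t_1)(x-t_2)` and
check the polynomial identity `(3x^2+a)^2 - (8x + 4t_i)(x-t_0)(x-t_1)(x-t_2) =
((x-t_i)^2 - (t_i-t_j)(t_i-t_k))^2` modulo `t_0+t_1+t_2 = 0`, `a = t_0t_1+t_0t_2+t_1t_2`.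
(2) Let `2 S = 0`, `2 P ≠ 0`. `S = 0`: trivial. `S = T_j`, `P = some x y`, `y ≠ 0`, hence
`x ≠ t_j`, and `P + T_j = some x3 y3` with `x3 = t_j + fp th j/(x - t_j)`,
`y3 = - y (fp th j)/(x-t_j)^2` (slope `y/(x-t_j)`, use `y^2 = (x-t_0)(x-t_1)(x-t_2)`).
For `i = j`: `((x3-t_j)^2 - f_j)/(2 y3) = (f_j^2/(x-t_j)^2 - f_j) / (-2 y f_j/(x-t_j)^2) =
((x-t_j)^2 - f_j)/(2y)`, `f_j = fp th j`. For `i ≠ j`, `k` the third index:
`x3 - t_i = (t_j-t_i)(x-t_k)/(x-t_j)` and
`(x3-t_i)^2 - f_i = f_j ((x-t_i)^2 - f_i)/(x-t_j)^2`, so the quotient by `2 y3` is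
`-((x-t_i)^2-f_i)/(2y)`.
(3) If `4 P ≠ 0` then `P = some x y` with `y ≠ 0` (otherwise `2 P = 0`), `2P = some x' y'` with
`y' ≠ 0` (otherwise `4P = 2(2P) = 0`), and `prod (hlf th P i)^2 = prod (x' - t_i) = y'^2 ≠ 0`. -/
def SpecHAL : Prop :=
  ∀ (F K : Type u) [Field F] [Field K] [CharZero K] [Algebra F K] (a b : F) (th : Fin 3 → K),
    IsRoots (algebraMap F K a) (algebraMap F K b) th →
    (∀ P S : Pt (curve a b) K, (2 : ℕ) • S = 0 → (2 : ℕ) • P ≠ 0 →
      ∀ i, hlf th (P + S) i = (sg th S i : K) * hlf th P i) ∧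
    (∀ P : Pt (curve a b) K, (4 : ℕ) • P ≠ 0 → ∃ (x' y' : K)
      (h : ((curve a b).baseChange K).toAffine.Nonsingular x' y'),
      (2 : ℕ) • P = WeierstrassCurve.Affine.Point.some x' y' h ∧ y' ≠ 0 ∧
      (∀ i, hlf th P i ^ 2 = x' - th i) ∧ (∀ i, hlf th P i ≠ 0) ∧
      (hlf th P 0 * hlf th P 1 * hlf th P 2) ^ 2 = y' ^ 2)

/-! ## Part 2. The twisted space of a cocycle -/

/-- **EMB.** Two `F`-embeddings of the algebraic closure of `F` into a field differ by an element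
of the Galois group.
Proof. `i(Fbar)` is an algebraically closed subfield of `M`, algebraic over `F`. For `x` in `Fbar`,
`j x` is a root of the minimal polynomial of `x` over `F`, which splits in `i(Fbar)`; so
`j x` is in `i(Fbar)`: `j(Fbar) ⊆ i(Fbar)`. Hence `t = i^{-1} o j : Fbar → Fbar` is an
`F`-algebra map; it is injective and surjective (algebraic extension: an `F`-endomorphism of an
algebraic extension is bijective). -/
def SpecEMB : Prop :=
  ∀ (F : Type u) [Field F] (M : Type w) [Field M] [Algebra F M]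
    (i j : AlgebraicClosure F →ₐ[F] M), ∃ t : Gal F, ∀ x, i (t x) = j x

/-- **FXD.** In characteristic 0 an element of `Kbar` fixed by the Galois group is in `K`.
Proof. `AlgebraicClosure K` is a Galois extension of `K` (normal and separable);
`InfiniteGalois.mem_bot_iff_fixed`. -/
def SpecFXD : Prop :=
  ∀ (K : Type u) [Field K] [CharZero K] (x : AlgebraicClosure K),
    (∀ s : AlgebraicClosure K ≃ₐ[K] AlgebraicClosure K, s x = x) →
    ∃ y : K, algebraMap K (AlgebraicClosure K) y = x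

/-- **DES.** Existence of a basis of the twisted space (Galois descent by hand).
Proof. `s : Gal F` permutes the `t_i`: for every `i` there is exactly one `k` with `s t_i = t_k`
(a root of `x^3+ax+b`, `a b` in `F`), write `k = s i`. Let `K0` be the intermediate field of
`IsContCocycle`; let `K` be a finite Galois extension of `F` inside `Fbar` containing `K0` and the
`t_i` (normal closure of `K0(t_0,t_1,t_2)`); `c s` depends only on the restriction of `s` to `K`,
and so does the permutation. `G = Gal(K/F)` is finite, restriction `Gal F → G` is surjective; write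
`c g` for `g` in `G`. Since `c` is a cocycle with 2-torsion values, `c(st) = c s + s(c t)`, and by
WEI and PSH (applied to the automorphism `s`, which maps `t_i` to `t_{s i}`)
`sg (c (s t)) (s i') = sg (c s) (s i') * sg (c t) i'` for all `i'`. (*)
For `l` in `K` and `j` put `z^(l,j)_i = sum over g in G with g j = i of sg(c g)(i) * g(l)`.
Then for `s` in `Gal F`: `s(z^(l,j)_i) = sum_{g j = i} sg(c g)(i) (s g)(l)
= sum_{h j = s i} sg(c s)(s i) sg(c h)(s i) h(l) = sg(c s)(s i) z^(l,j)_{s i}`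
(with `h = s g`, by (*): `sg(c h)(s i) = sg(c s)(s i) sg(c g)(i)`, signs are `±1`).
So every vector `z^(l,j)` is in the twisted space. They span `K^3`, hence contain three vectors
with nonzero determinant: if not, there is a nonzero row `(m_0,m_1,m_2)` in `K^3` with
`sum_i m_i z^(l,j)_i = 0` for all `l, j`, i.e. `sum_{g in G} m_{g j} sg(c g)(g j) g(l) = 0` for
all `l` in `K`, so by linear independence of the distinct characters `g` (Dedekind,
`linearIndependent_monoidHom` or the `AlgEquiv` version) `m_{g j} sg(c g)(g j) = 0` for all `g`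
and `j`; `g = 1` gives `m_j sg(c 1)(j) = 0`, `m_j = 0`. -/
def SpecDES : Prop :=
  ∀ (F : Type u) [Field F] [CharZero F] (a b : F) (th : Fin 3 → AlgebraicClosure F)
    (c : Gal F → Pt (curve a b) (AlgebraicClosure F)),
    IsRoots (algebraMap F _ a) (algebraMap F _ b) th →
    IsContCocycle (curve a b) c → (∀ s, (2 : ℕ) • c s = 0) →
    ∃ Z : Matrix (Fin 3) (Fin 3) (AlgebraicClosure F), Twisted th c Z

/-- **GRF.** The Gram matrices of a basis of the twisted space are over `F`, and its determinant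
is an element of `F` times the Vandermonde determinant.
Proof. For `s : Gal F` write `s t_i = t_{s i}`. By PSH `s (fp th i) = fp th (s i)`. Hence
`s(sum_i Z i j Z i k/fp i) = sum_i sg^2 Z (s i) j Z (s i) k / fp (s i)` = the same sum (the signs
are `±1` and `i ↦ s i` is a permutation). So the entries of `gA`, and likewise of `gB`, are fixed
by `Gal F`, hence in `F` by FXD (`K = F`). Determinant: let `Pi` be the permutation matrix with
`s(vnd) = Pi * vnd` and `s(Z) = D Pi Z`, `D` diagonal with entries `sg(c s)(i)` of product 1 (WEI).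
So the matrix `vnd^{-1} Z` satisfies `det s(vnd^{-1} Z) = det(Pi vnd)^{-1} det(D Pi Z) =
det(vnd)^{-1} det(Z)`; `det Z/det vnd` is fixed, hence in `F`. (`det vnd ≠ 0`: distinct roots.) -/
def SpecGRF : Prop :=
  ∀ (F : Type u) [Field F] [CharZero F] (a b : F) (th : Fin 3 → AlgebraicClosure F)
    (c : Gal F → Pt (curve a b) (AlgebraicClosure F))
    (Z : Matrix (Fin 3) (Fin 3) (AlgebraicClosure F)),
    IsRoots (algebraMap F _ a) (algebraMap F _ b) th →
    (∀ s, (2 : ℕ) • c s = 0) → Twisted th c Z →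
    (∃ A B : Matrix (Fin 3) (Fin 3) F, gA th Z = A.map (algebraMap F _) ∧
      gB th Z = B.map (algebraMap F _)) ∧
    ∃ q : F, Z.det = algebraMap F _ q * (vnd th).det

/-- **DET.** Determinants of Gram matrices (`K` any field).
Proof. `gA th Z = Z^T D Z` with `D = diag(1/fp i)`, `gB th Z = Z^T diag(t_i/fp i) Z`, so
`det gA = det(Z)^2 / prod fp i` and `prod fp i = - det(vnd)^2` (expand both; `det vnd =
(t1-t0)(t2-t0)(t2-t1)`). For all `x` in `K`: `det (x gA - gB) = det(Z)^2 prod (x - t_i)/fp i =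
- (det Z/det vnd)^2 (x^3 + a x + b)`. Symmetry is clear. -/
def SpecDET : Prop :=
  ∀ (K : Type u) [Field K] (a b : K) (th : Fin 3 → K) (Z : Matrix (Fin 3) (Fin 3) K),
    IsRoots a b th →
    (vnd th).det ≠ 0 ∧ (∀ i, fp th i ≠ 0) ∧ (gA th Z).IsSymm ∧ (gB th Z).IsSymm ∧
    (gA th Z).det * (vnd th).det ^ 2 = - Z.det ^ 2 ∧
    (∀ x : K, (x • gA th Z - gB th Z).det = (gA th Z).det * (x ^ 3 + a * x + b)) ∧
    ((gA th Z).adjugate * gB th Z).trace = 0

/-- **BAS.** A normalized basis of the twisted space.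
Proof. `x^3+ax+b` has three distinct roots in `Fbar` because its discriminant `-4a^3-27b^2` is not
zero. Take `Z` from DES and `q` from GRF (`q ≠ 0` as `det Z ≠ 0`); multiply the column 0 of `Z` by
`q^{-1}` (in `F`, so `Twisted` is preserved): now `det Z = det vnd`. By DET `det gA = -1`. -/
def SpecBAS : Prop :=
  ∀ (F : Type u) [Field F] [CharZero F] (a b : F)
    (c : Gal F → Pt (curve a b) (AlgebraicClosure F)), 4 * a ^ 3 + 27 * b ^ 2 ≠ 0 →
    IsContCocycle (curve a b) c → (∀ s, (2 : ℕ) • c s = 0) →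
    ∃ (th : Fin 3 → AlgebraicClosure F) (Z : Matrix (Fin 3) (Fin 3) (AlgebraicClosure F))
      (A B : Matrix (Fin 3) (Fin 3) F),
      IsRoots (algebraMap F _ a) (algebraMap F _ b) th ∧ Twisted th c Z ∧
      Z.det = (vnd th).det ∧ gA th Z = A.map (algebraMap F _) ∧
      gB th Z = B.map (algebraMap F _) ∧ A.IsSymm ∧ B.IsSymm ∧ A.det = -1

/-- **INJ.** The pair `(A, B)` determines `(a, b)` and the class of the cocycle.
Proof. (1) By DET (for `K = Fbar`) `det (x A - B) = det A (x^3+ax+b) = det A (x^3+a'x+b')` for all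
`x` and `det A ≠ 0`: `a = a'`, `b = b'`. (2) Now `a = a'`, `b = b'`. Let `(th, Z)` belong to `c`
and `(th', Z')` to `c'`. Both `th`, `th'` enumerate the roots of the same polynomial, so
`th' = th o p` for a permutation `p`; replacing `Z'` by the matrix with rows permuted by `p^{-1}`
(and `th'` by `th`) we may assume `th' = th` (`fp th' i = fp th (p i)`, Gram matrices are sums over
the roots; `sg th' S k = sg th S (p k)`). Put `M = Z' Z^{-1}`. From
`Z'^T D Z' = Z^T D Z`, `Z'^T D T Z' = Z^T D T Z` (`D = diag(1/fp i)`, `T = diag(t_i)`) we get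
`M^T D M = D` and `M^T D T M = D T`, hence `M^T D (T M - M T) = D T - D T = 0` (use
`M^T D M T = D T`), so `T M = M T` and `M` is diagonal (distinct `t_i`), `M = diag(m_i)`, and
`m_i^2 = 1`. Replacing `Z'` by `-Z'` if necessary, `prod m_i = 1`: by WEI there is `S` in `E[2]`
with `sg S i = m_i`. For `s` in `Gal F` and `i`, `k = s i`, choose `j` with `Z k j ≠ 0`.
`Z' i j = m_i Z i j`; apply `s`: `sg(c' s)(k) Z' k j = m_i sg(c s)(k) Z k j`, i.e.
`sg(c' s)(k) m_k = m_i sg(c s)(k)`. By PSH for the automorphism `s`: `sg(s S)(k) = sg(S)(i) = m_i`.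
So `sg(c s)(k) sg(c' s)(k) = sg(s S)(k) sg(S)(k)` for all `k`, and by WEI (2-torsion points with
equal signs are equal; `-S = S`) `c s - c' s = s S - S`. -/
def SpecINJ : Prop :=
  ∀ (F : Type u) [Field F] [CharZero F],
    (∀ (a b a' b' : F) (c : Gal F → Pt (curve a b) (AlgebraicClosure F))
      (c' : Gal F → Pt (curve a' b') (AlgebraicClosure F)) (A B : Matrix (Fin 3) (Fin 3) F),
      Att a b c A B → Att a' b' c' A B → a = a' ∧ b = b') ∧
    (∀ (a b : F) (c c' : Gal F → Pt (curve a b) (AlgebraicClosure F))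
      (A B : Matrix (Fin 3) (Fin 3) F), (∀ s, (2 : ℕ) • c s = 0) → (∀ s, (2 : ℕ) • c' s = 0) →
      Att a b c A B → Att a b c' A B → c - c' ∈ Coboundaries 2 (curve a b))

/-- **TRV.** If `A` and `B` have a common nontrivial zero over `F`, the cocycle is a coboundary.
Proof. Let `z_i = sum_j Z i j x_j`, a nonzero vector (`det Z ≠ 0`), and
`s(z_i) = sg(c s)(k) z_k` for `s t_i = t_k` (the `x_j` are in `F`). The hypotheses say
`sum z_i^2/fp i = 0` and `sum t_i z_i^2/fp i = 0`. The vectors `w` with `sum w_i/fp i = 0 =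
sum t_i w_i/fp i` form a line spanned by `(1,1,1)` (`sum 1/fp i = 0`, `sum t_i/fp i = 0`, and the
two equations are independent as the `t_i` are distinct). So `z_i^2 = q` for all `i`, `q ≠ 0`.
`q` is fixed by `Gal F`: `q` in `F`. Let `w = z_0 z_1 z_2`; by WEI (product of signs is 1) `w` is
fixed, `w` in `F` and `w^2 = q^3`. Put `r = w/q` in `F`, `r^2 = q`, so `z_i = e_i r`, `e_i = ±1`,
and `e_0 e_1 e_2 r^3 = w = r q = r^3` so `e_0e_1e_2 = 1`. By WEI there is `S` in `E[2]` with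
`sg S i = e_i`. For `s` and `k = s i`: `s(z_i) = e_i r = sg(c s)(k) e_k r`, so
`sg(c s)(k) = e_i e_k = sg(s S)(k) sg(S)(k)` (PSH), and by WEI `c s = s S + S = s S - S`. -/
def SpecTRV : Prop :=
  ∀ (F : Type u) [Field F] [CharZero F] (a b : F)
    (c : Gal F → Pt (curve a b) (AlgebraicClosure F)) (A B : Matrix (Fin 3) (Fin 3) F),
    (∀ s, (2 : ℕ) • c s = 0) → Att a b c A B →
    ∀ x : Fin 3 → F, x ≠ 0 → x ⬝ᵥ A.mulVec x = 0 → x ⬝ᵥ B.mulVec x = 0 →
    c ∈ Coboundaries 2 (curve a b)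

/-- **BCH.** Change of basis. Proof. Replace `Z` by `Z * g` (`g` mapped to `Fbar`): the entries of
`g` are in `F`, so `Twisted` is preserved; `gA th (Z g) = g^T (gA th Z) g`. The second part:
`U' v = U v * g_v`; `x^T g^T A g y = (g x)^T A (g y)`; at a real place `v.embedding` has real
values. Third part: the trace relation and the symmetry come from DET (and the injectivity of
`F → Fbar`). -/
def SpecBCH : Prop :=
  (∀ (F : Type u) [Field F] [CharZero F] (a b : F)
    (c : Gal F → Pt (curve a b) (AlgebraicClosure F)) (A B g : Matrix (Fin 3) (Fin 3) F),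
    Att a b c A B → g.det ≠ 0 → Att a b c (g.transpose * A * g) (g.transpose * B * g)) ∧
  (∀ (F : Type u) [Field F] [NumberField F] (A B g : Matrix (Fin 3) (Fin 3) F)
    (ρ : InfinitePlace F → ℝ) (U : InfinitePlace F → Matrix (Fin 3) (Fin 3) ℂ),
    Maj A B ρ U → g.det = 1 → Maj (g.transpose * A * g) (g.transpose * B * g) ρ
      (fun v => U v * g.map v.embedding)) ∧
  (∀ (F : Type u) [Field F] [CharZero F] (a b : F)
    (c : Gal F → Pt (curve a b) (AlgebraicClosure F)) (A B : Matrix (Fin 3) (Fin 3) F),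
    Att a b c A B → A.IsSymm ∧ B.IsSymm ∧ A.det ≠ 0 ∧ (A.adjugate * B).trace = 0)

/-! ## Part 3. Finite places -/

/-- **BIG.** There is a local point which is not killed by 4.
Proof. Let `K = F_v`, `val` its valuation. (a) There is a neighbourhood of 1 consisting of
squares: Hensel (or Newton iteration / the binomial series) in the complete discrete valuation
ring `O_v`, residue characteristic 2 included: if `val (u - 1) < val 4` then `u` is a square in
`K` (put `u = 1 + 4 w`, `val w < 1`, and solve `z^2 + z = w`, `z` in the maximal ideal, by Hensel: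
`(1+2z)^2 = 1 + 4 (z^2+z)`). (b) For `q` in `K` with `val q` large, `x = q^2` gives
`x^3+ax+b = q^6 (1 + a q^{-4} + b q^{-6})`, a nonzero square `y^2` by (a). So infinitely many `x`
in `K` are `x`-coordinates of points of `E(K)` with `y ≠ 0`. (c) A point `R = (x,y)`, `y ≠ 0`,
with `4 R = 0` satisfies `y(2R) = 0`, so (over `Kbar`, roots `t_i`, HAL) `x(2R) = t_i` for some `i`
and `hlf th R i = 0`, i.e. `(x-t_i)^2 = fp th i`: at most 6 values of `x`. (One can avoid `Kbar`: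
`4R = 0`, `y ≠ 0` forces a nonzero polynomial in `x` to vanish, for instance
`((x^2-a)^2 - 8bx)^3 + a ((x^2-a)^2-8bx) (4y^2)^2 + b (4y^2)^3 = 0` with `y^2 = x^3+ax+b`, whose
leading coefficient is 1.) Choose `x` outside this finite set. -/
def SpecBIG : Prop :=
  ∀ (F : Type u) [Field F] [NumberField F] (v : HeightOneSpectrum (𝓞 F)) (a b : F),
    4 * a ^ 3 + 27 * b ^ 2 ≠ 0 →
    ∃ R : Pt (curve a b) (v.adicCompletion F), (4 : ℕ) • R ≠ 0

/-- **LO1.** A good local point. `K` is any extension of `F`.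
Proof. Take `P0` from `LocTriv` for the embedding `i`. If `4 P0 ≠ 0` put `P = P0`, otherwise
`P = P0 + R'`, `R'` the image of `R` in `E(Kbar)`; `4 P = 4 R' ≠ 0` (push is injective). `s R' = R'`
for all `s`, so `s P - P = s P0 - P0`. For `s`, choose `t` with `i o t = s o i` by EMB (for the
embeddings `i` and `s o i`, `M = Kbar`); `s (2P) = 2 (sP) = 2 (P + i(c t)) = 2P` because
`2 c t = 0`. By HAL `2P = some x' y'`; `s x' = x'`, `s y' = y'` for all `s`; by FXD they are
in `K`. (Roots `th` in `Kbar` exist since `4a^3+27b^2 ≠ 0`; HAL needs them.) -/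
def SpecLO1 : Prop :=
  ∀ (F : Type u) [Field F] [CharZero F] (K : Type u) [Field K] [CharZero K] [Algebra F K] (a b : F)
    (c : Gal F → Pt (curve a b) (AlgebraicClosure F)), 4 * a ^ 3 + 27 * b ^ 2 ≠ 0 →
    (∀ s, (2 : ℕ) • c s = 0) → LocTriv (curve a b) K c →
    (∃ R : Pt (curve a b) K, (4 : ℕ) • R ≠ 0) →
    ∀ i : AlgebraicClosure F →ₐ[F] AlgebraicClosure K,
    ∃ P : Pt (curve a b) (AlgebraicClosure K),
      (∀ (s : AlgebraicClosure K ≃ₐ[K] AlgebraicClosure K) (t : Gal F),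
        (∀ x, i (t x) = s (i x)) →
          push (curve a b) i (c t) = push (curve a b)
            ((s : AlgebraicClosure K →ₐ[K] AlgebraicClosure K).restrictScalars F) P - P) ∧
      (4 : ℕ) • P ≠ 0 ∧ ∃ (x' y' : K)
        (h : ((curve a b).baseChange (AlgebraicClosure K)).toAffine.Nonsingular
          (algebraMap K (AlgebraicClosure K) x') (algebraMap K (AlgebraicClosure K) y')),
        (2 : ℕ) • P = WeierstrassCurve.Affine.Point.some _ _ h

/-- **LO2.** The explicit integral basis at a finite place.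
Proof. Let `h_i = hlf th P i`, `x = x'`, `y = y'` (in `K = F_v`), `h_i^2 = x - t_i`,
`h_0h_1h_2 = e y`, `e = ±1` (HAL). For a matrix `p` over `K` put `W = diag(h) vnd p`, i.e.
`W i j = h_i p_j(t_i)` with `p_j = p 0 j + p 1 j X + p 2 j X^2`. Then
`gA th W j k = sum_i (x - t_i) p_j(t_i) p_k(t_i)/fp i`, and similarly `gB` with an extra `t_i`.
With `L(f) = sum_i f(t_i)/fp i` one has `L(1)=0, L(X)=0, L(X^2)=1, L(X^3)=0, L(X^4)=-a,
L(X^5)=-b, L(X^6)=a^2`. `det W = e y det(vnd) det(p)`.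
Case 1: `x` integral (valuation ≤ 1). Then `y^2 = x^3+ax+b` so `y` is integral. Take
`p_0 = e`, `p_1 = X`, `p_2 = (x^2+a + xX + X^2)/y`, `det p = e/y`, `det W = det vnd`. Because
`(x - X)(x^2+a+xX+X^2) = y^2` modulo `X^3+aX+b`, `gA = [[0,-e,0],[-e,x,0],[0,0,1]]`
and `gB = [[-1,e x,0],[e x,a,y],[0,y,x]]` (with `e^2 = 1`); all entries are integral.
Case 2: `x` not integral. Then `val y^2 = val x^3` (`y^2 = x^3 (1+a/x^2+b/x^3)`); put `r = x/y`;
`val r < 1`, `r^2 x = x^3/y^2` is a unit, and `u = r^3 y = x^3/y^2` is a unit. Take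
`p_0 = r e/u`, `p_1 = r X`, `p_2 = r X^2`: `det p = r^3 e/u = e/y`, `det W = det vnd`. All entries of
`gA`, `gB` are products of a unit or 1 with `r^2 (x L(X^m) - L(X^(m+1)))`, `m ≤ 5`: integral. -/
def SpecLO2 : Prop :=
  ∀ (F : Type u) [Field F] [NumberField F] (v : HeightOneSpectrum (𝓞 F)) (a b : 𝓞 F)
    (th : Fin 3 → AlgebraicClosure (v.adicCompletion F))
    (P : Pt (curve (a : F) (b : F)) (AlgebraicClosure (v.adicCompletion F)))
    (x' y' : v.adicCompletion F)
    (h : ((curve (a : F) (b : F)).baseChange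
        (AlgebraicClosure (v.adicCompletion F))).toAffine.Nonsingular
      (algebraMap _ (AlgebraicClosure (v.adicCompletion F)) x')
      (algebraMap _ (AlgebraicClosure (v.adicCompletion F)) y')),
    IsRoots (algebraMap F _ (a : F)) (algebraMap F _ (b : F)) th → (4 : ℕ) • P ≠ 0 →
    (2 : ℕ) • P = WeierstrassCurve.Affine.Point.some _ _ h →
    ∃ p A B : Matrix (Fin 3) (Fin 3) (v.adicCompletion F),
      (Matrix.diagonal (hlf th P) * vnd th * p.map (algebraMap _ _)).det = (vnd th).det ∧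
      gA th (Matrix.diagonal (hlf th P) * vnd th * p.map (algebraMap _ _)) =
        A.map (algebraMap _ _) ∧
      gB th (Matrix.diagonal (hlf th P) * vnd th * p.map (algebraMap _ _)) =
        B.map (algebraMap _ _) ∧
      ∀ i j, Valued.v (A i j) ≤ 1 ∧ Valued.v (B i j) ≤ 1

/-- **LO3.** The local integrality statement.
Proof. Let `K = F_v`, choose an `F`-embedding `i : Fbar → Kbar` (`IsAlgClosed.lift`), `th' = i o th`
(roots in `Kbar`), `P` from LO1 (and BIG), `p, A', B'` from LO2, `W = diag(hlf th' P) vnd p`. Put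
`g = (i Z)^{-1} W` (`det (i Z) = det(vnd th') = det W`, so `det g = 1`). Let `s` be a
`K`-automorphism of `Kbar`, `t` in `Gal F` with `i o t = s o i` (EMB). For `t(th j) = th k`:
`s (i (Z j l)) = i (t (Z j l)) = sg th (c t) k * i (Z k l)`, and
`s (hlf th' P j) = hlf th' (s P) k = hlf th' (P + i(c t)) k = sg th' (i(c t)) k * hlf th' P k
= sg th (c t) k * hlf th' P k` (PSH, LO1, HAL), so `s (W j l) = sg th (c t) k * W k l` (entries of
`p` are in `K`, `s(th' j) = th' k`). So `s(iZ) = N (iZ)` and `s(W) = N W` with the same signed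
permutation matrix `N`, and `s(g) = g`. By FXD `g` has entries in `K`. Finally
`g^T A g = g^T (iZ)^T D (iZ) g = W^T D W = A'` (inject into `Kbar`), same for `B`. -/
def SpecLO3 : Prop :=
  ∀ (F : Type u) [Field F] [NumberField F] (v : HeightOneSpectrum (𝓞 F)) (a b : 𝓞 F)
    (c : Gal F → Pt (curve (a : F) (b : F)) (AlgebraicClosure F))
    (th : Fin 3 → AlgebraicClosure F) (Z : Matrix (Fin 3) (Fin 3) (AlgebraicClosure F))
    (A B : Matrix (Fin 3) (Fin 3) F),
    4 * a ^ 3 + 27 * b ^ 2 ≠ 0 → (∀ s, (2 : ℕ) • c s = 0) →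
    LocTriv (curve (a : F) (b : F)) (v.adicCompletion F) c →
    IsRoots (algebraMap F _ (a : F)) (algebraMap F _ (b : F)) th → Twisted th c Z →
    Z.det = (vnd th).det → gA th Z = A.map (algebraMap F _) → gB th Z = B.map (algebraMap F _) →
    ∃ g : Matrix (Fin 3) (Fin 3) (v.adicCompletion F), g.det = 1 ∧
      ∀ i j, Valued.v ((g.transpose * A.map (algebraMap F (v.adicCompletion F)) * g) i j) ≤ 1 ∧
        Valued.v ((g.transpose * B.map (algebraMap F (v.adicCompletion F)) * g) i j) ≤ 1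

/-- **SLA.** Strong approximation for `SL_3` at one place.
Proof. Let `K = F_v`. (a) `SL_3(K)` is generated by elementary (transvection) matrices: by
`Matrix.diagonal_transvection_induction_of_det_ne_zero` (or
`Matrix.Pivot.exists_list_transvec_mul_diagonal_mul_list_transvec`) `g` is a product of
transvections and a diagonal matrix of determinant 1, and `diag(q,q^{-1})` in two coordinates is a
product of transvections (`[[q,0],[0,q^{-1}]] = [[1,q],[0,1]] [[1,0],[-q^{-1},1]] [[1,q],[0,1]]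
[[1,-1],[0,1]] [[1,0],[1,1]] [[1,-1],[0,1]]`). So
`g = prod_{l} (1 + x_l E_{i_l j_l})`, `i_l ≠ j_l`, `x_l` in `K`.
(b) The set `D = {x in F : w(x) ≤ 1 for all finite w ≠ v}` is dense in `K`: given `x` in `K` and a
nonnegative integer `N`, let `h ≥ 1` with `v^h = (q)` principal, `q` in `O_F` (finiteness of the
class group), choose `k` with `q^k x` in `O_v`, choose `y` in `O_F` close to `q^k x` (density of
`O_F` in `O_v`) and take `y/q^k`; `q` is a unit outside `v`.
(c) The map `(x'_l) ↦ g^{-1} prod_l (1 + x'_l E_{i_l j_l})` is continuous `K^m → M_3(K)` and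
takes `(x_l)` to `1`, the integral matrices are an open set containing `1`; so there are `x'_l` in
`D` with integral image. `γ = prod_l (1 + x'_l E_{i_l j_l})` has determinant 1 and entries in `D`
(`D` is a ring). -/
def SpecSLA : Prop :=
  ∀ (F : Type u) [Field F] [NumberField F] (v : HeightOneSpectrum (𝓞 F))
    (g : Matrix (Fin 3) (Fin 3) (v.adicCompletion F)), g.det = 1 →
    ∃ γ : Matrix (Fin 3) (Fin 3) F, γ.det = 1 ∧
      (∀ w : HeightOneSpectrum (𝓞 F), w ≠ v → ∀ i j, w.valuation F (γ i j) ≤ 1) ∧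
      ∀ i j, Valued.v ((g.adjugate * γ.map (algebraMap F (v.adicCompletion F))) i j) ≤ 1

/-- **INT.** A global integral basis. Proof. Induction on the (finite) number of finite places `v`
at which some entry of `A` or `B` is not integral (a nonzero element of `F` is a unit at almost all
`v`; `HeightOneSpectrum.Support.finite` or finiteness of the factors). If there is none, all entries
are in `O_F` (`HeightOneSpectrum.mem_integers_of_valuation_le_one`). Otherwise let `v` be one of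
them, `g` the local matrix at `v`, `γ` from SLA for `g` (`g^{-1} = adjugate g` since `det g = 1`),
`k = g^{-1} γ` integral at `v`. Then `γ^T A γ = k^T (g^T A g) k` is integral at `v`, and `γ^T A γ`
is integral at all `w ≠ v` at which `A` is; same for `B`. The hypothesis holds for the new pair
`(γ^T A γ, γ^T B γ)` (replace the local matrix `g_w` by `γ^{-1} g_w`). The product of the `γ` has
determinant 1. -/
def SpecINT : Prop :=
  ∀ (F : Type u) [Field F] [NumberField F] (A B : Matrix (Fin 3) (Fin 3) F),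
    (∀ v : HeightOneSpectrum (𝓞 F), ∃ g : Matrix (Fin 3) (Fin 3) (v.adicCompletion F), g.det = 1 ∧
      ∀ i j, Valued.v ((g.transpose * A.map (algebraMap F (v.adicCompletion F)) * g) i j) ≤ 1 ∧
        Valued.v ((g.transpose * B.map (algebraMap F (v.adicCompletion F)) * g) i j) ≤ 1) →
    ∃ (γ : Matrix (Fin 3) (Fin 3) F) (A' B' : Matrix (Fin 3) (Fin 3) (𝓞 F)), γ.det = 1 ∧
      inc A' = γ.transpose * A * γ ∧ inc B' = γ.transpose * B * γ

/-! ## Part 4. Infinite places -/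

/-- **ARC.** Majorants at the infinite places.
Proof. Fix `v`, `σ = v.embedding : F → ℂ`, extend it to `i : Fbar → ℂ` (make `ℂ` an `F`-algebra via
`σ`; `IsAlgClosed.lift`; EMB is universe polymorphic, take `M = ℂ`). `t_i`, `f_i` the images of
`th i`, `fp th i`; `N` the
matrix `N i j = i(Z i j)/sqrt|f_i|`. Then for `x, y` in `ℂ^3`, with `z = i(Z) x`, `w = i(Z) y`:
`x^T A y = sum z_i w_i/f_i`, so `|x^T A y| ≤ sum |z_i||w_i|/|f_i| ≤ ‖N x‖ ‖N y‖` (Cauchy-Schwarz),
and `|x^T B y| ≤ max|t_i| ‖N x‖ ‖N y‖`. `|t_i| ≤ 2 ρ_v`: otherwise `|t|^3 ≤ |a||t| + |b| ≤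
ρ^2 |t| + ρ^3 < |t|^3/4 + |t|^3/8`. `|det N|^2 = |det i(Z)|^2/prod|f_i| = |det A| = 1` (DET: `det Z
= det vnd`, `prod fp = - det vnd^2`). If `v` is complex take `U v = N`. If `v` is real: let
`H = N^* N`, `H j k = sum_i conj(i Z i j) i(Z i k)/|f_i|`. Complex conjugation composed with `i` is
another `F`-embedding (`σ` is real), so by EMB there is `t` in `Gal F` with `conj o i = i o t`; for
`t (th i) = th k`: `conj(i(Z i j)) = i (t (Z i j)) = ± i(Z k j)` with a sign depending only on `k`,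
and `|f_i| = |f_k|`; so `conj (H j l) = sum_i i(Z i j) conj(i Z i l)/|f_i| =
sum_k conj(i Z k j) i(Z k l)/|f_k| = H j l` (`i(Z i j) = conj(± i(Z k j))`): `H` is a real
symmetric positive definite matrix of determinant 1; let `U v` be real with `U^T U = H` (Cholesky,
or the square root, or `LDL`): `‖U x‖^2 = x^* H x = ‖N x‖^2` for complex `x`, `|det U| = 1`. -/
def SpecARC : Prop :=
  ∀ (F : Type u) [Field F] [NumberField F] (a b : F)
    (c : Gal F → Pt (curve a b) (AlgebraicClosure F))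
    (th : Fin 3 → AlgebraicClosure F) (Z : Matrix (Fin 3) (Fin 3) (AlgebraicClosure F))
    (A B : Matrix (Fin 3) (Fin 3) F) (ρ : InfinitePlace F → ℝ),
    (∀ s, (2 : ℕ) • c s = 0) →
    IsRoots (algebraMap F _ a) (algebraMap F _ b) th → Twisted th c Z → Z.det = (vnd th).det →
    gA th Z = A.map (algebraMap F _) → gB th Z = B.map (algebraMap F _) →
    (∀ v, 0 < ρ v ∧ v a ≤ ρ v ^ 2 ∧ v b ≤ ρ v ^ 3) →
    ∃ U : InfinitePlace F → Matrix (Fin 3) (Fin 3) ℂ, Maj A B ρ U

/-- **PRE.** Integral models of Selmer classes.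
Proof. `c` in `Cocycles 2` is a continuous cocycle with `2 c = 0`, locally trivial at all finite
places. BAS gives `th, Z, A, B`; LO3 gives the hypothesis of INT; INT gives `γ, A', B'`;
ARC gives `U` for `(A, B)`; BCH transports `Att` and `Maj` to `(γ^T A γ, γ^T B γ) = (inc A', inc B')`;
`det A' = -1` as `inc` is injective. (`Att a b c A B` holds by definition.) -/
def SpecPRE : Prop :=
  ∀ (F : Type u) [Field F] [NumberField F] (a b : 𝓞 F)
    (c : Gal F → Pt (curve (a : F) (b : F)) (AlgebraicClosure F)) (ρ : InfinitePlace F → ℝ),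
    4 * a ^ 3 + 27 * b ^ 2 ≠ 0 → c ∈ Cocycles 2 (curve (a : F) (b : F)) →
    (∀ v, 0 < ρ v ∧ v (a : F) ≤ ρ v ^ 2 ∧ v (b : F) ≤ ρ v ^ 3) →
    ∃ (A B : Matrix (Fin 3) (Fin 3) (𝓞 F)) (U : InfinitePlace F → Matrix (Fin 3) (Fin 3) ℂ),
      Att (a : F) (b : F) c (inc A) (inc B) ∧ A.IsSymm ∧ B.IsSymm ∧ A.det = -1 ∧
      Maj (inc A) (inc B) ρ U

/-! ## Part 5. Geometry of numbers -/

/-- **MNK.** Minkowski's linear forms theorem over a number field, rank 3.
Proof. Real vector space `V = Fin 3 → mixedSpace F` with the product measure (`volume`), lattice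
`Λ` = image of `(O_F)^3`, the `ℤ`-span of the product basis of `mixedEmbedding.latticeBasis F`
(`Pi.basis`), fundamental domain `ZSpan.fundamentalDomain` of finite measure. Convex symmetric
body `S = {y : |(U_v y_v)_k| ≤ r v k for all v, k}`, `y_v` in `F_v^3` the component at `v`
(`F_v = ℝ` or `ℂ`). `S` is a product over `v`; the component at a real `v` is the preimage of the
box `prod [-r_k, r_k]` under the real matrix `U_v` of determinant `±1`, measure `prod_k 2 r_k`
(`Real.volume_preserving...`/`addHaar_preimage_linearMap`); at a complex `v` the preimage of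
a product of three discs under `U_v`, whose real determinant is `|det U_v|^2 = 1`, measure
`prod_k π r_k^2`. So the measure of `S` is `≥ 2^{3 r1} π^{3 r2} prod_v (prod_k r v k)^{mult}`, and if
`C` is large `vol(S) > 2^{3n} vol(fundamental domain)`; apply
`MeasureTheory.exists_ne_zero_mem_lattice_of_measure_mul_two_pow_lt_measure`. (Alternative to the
determinant computations: only a lower bound `vol(S) ≥ κ prod_v (prod_k r v k)^{mult}` with a
constant `κ > 0` independent of `U`, `r` is needed.) -/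
def SpecMNK : Prop :=
  ∀ (F : Type u) [Field F] [NumberField F], ∃ C : ℝ, 1 ≤ C ∧
    ∀ (U : InfinitePlace F → Matrix (Fin 3) (Fin 3) ℂ) (r : InfinitePlace F → Fin 3 → ℝ),
    (∀ v, ‖(U v).det‖ = 1 ∧ (v.IsReal → ∀ i j, (U v i j).im = 0)) →
    (∀ v k, 0 < r v k) → C ≤ ∏ v, (r v 0 * r v 1 * r v 2) ^ v.mult →
    ∃ x : Fin 3 → 𝓞 F, x ≠ 0 ∧
      ∀ v k, ‖((U v).mulVec (em v fun i => (x i : F))) k‖ ≤ r v k

/-- **FRM.** Adapted unitary frames in `ℂ^3`.
Proof. (1) `u, n ≠ 0` orthogonal (`star u ⬝ᵥ n = 0`). Put `e0 = u/‖u‖`, `e2 = n/‖n‖`,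
`e1 = conj(e2 × e0)` (cross product, `Mathlib crossProduct`), an orthonormal basis; `Q` the matrix
with rows `e0^*, e1^*, e2^*`; `Q` is unitary, `Q u = ‖u‖ (1,0,0)`, `Q n = ‖n‖ (0,0,1)`; real if
`u`, `n` are. (2) `u, w` linearly independent: let `n = conj(u × w) ≠ 0`, which is orthogonal to
`u` and to `w`; apply (1) to `u, n`: `(Q w)_2 = <Q n, Q w>/‖n‖ = <n, w>/‖n‖ = 0`. (3) For a unitary
`Q`: `en (Q w) = en w`, `|det Q| = 1`. -/
def SpecFRM : Prop :=
  (∀ u n : Fin 3 → ℂ, u ≠ 0 → n ≠ 0 → star u ⬝ᵥ n = 0 →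
    ∃ Q : Matrix (Fin 3) (Fin 3) ℂ, ‖Q.det‖ = 1 ∧ (∀ w, en (Q.mulVec w) = en w) ∧
      (∀ w w', star (Q.mulVec w) ⬝ᵥ (Q.mulVec w') = star w ⬝ᵥ w') ∧
      (Q.mulVec u) 1 = 0 ∧ (Q.mulVec u) 2 = 0 ∧ (Q.mulVec n) 0 = 0 ∧ (Q.mulVec n) 1 = 0 ∧
      ((∀ i, (u i).im = 0) → (∀ i, (n i).im = 0) → ∀ i j, (Q i j).im = 0)) ∧
  (∀ u w : Fin 3 → ℂ, LinearIndependent ℂ ![u, w] →
    ∃ Q : Matrix (Fin 3) (Fin 3) ℂ, ‖Q.det‖ = 1 ∧ (∀ w, en (Q.mulVec w) = en w) ∧
      (Q.mulVec u) 1 = 0 ∧ (Q.mulVec u) 2 = 0 ∧ (Q.mulVec w) 2 = 0 ∧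
      ((∀ i, (u i).im = 0) → (∀ i, (w i).im = 0) → ∀ i j, (Q i j).im = 0))

/-- **RE0.** A minimal vector. Proof. By MNK with all `r v k` equal to `C^{1/(3n)}`, `n = [F:ℚ]`
(so the product is `C`; `sum mult = n`), there is `x ≠ 0` with `en(U_v x) ≤ C1 = 2 C^{1/(3n)}` for
all `v`. `U_v` is invertible, so the `x` in `O_F^3` with `en(U_v x) ≤ C1` for all `v` have all
conjugates of all coordinates bounded: a finite set (`Embeddings.finite_of_norm_le` type result).
Let `x1` be an element `≠ 0` of it with minimal `m = max_v en(U_v x1)`; `m > 0`; for every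
`x ≠ 0` `max_v en(U_v x) ≥ m` (either `x` is in the finite set, or some `en(U_v x) > C1 ≥ m`). -/
def SpecRE0 : Prop :=
  ∀ (F : Type u) [Field F] [NumberField F], ∃ C : ℝ, 1 ≤ C ∧
    ∀ (U : InfinitePlace F → Matrix (Fin 3) (Fin 3) ℂ),
    (∀ v, ‖(U v).det‖ = 1 ∧ (v.IsReal → ∀ i j, (U v i j).im = 0)) →
    ∃ (x : Fin 3 → 𝓞 F) (m : ℝ), x ≠ 0 ∧ 0 < m ∧ m ≤ C ∧
      (∀ v, en ((U v).mulVec (em v fun i => (x i : F))) ≤ m) ∧
      (∀ y : Fin 3 → 𝓞 F, y ≠ 0 → ∃ v, m ≤ en ((U v).mulVec (em v fun i => (y i : F))))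

/-- **RE1.** No short vector: a bounded basis. `C0` bounds the minimal vector `x`.
Proof. Let `x1 = x`. (a) For each `v` let `u = U_v x1 ≠ 0` and `Q_v` a frame from FRM (2) (choose
any `w` independent of `u`, real if `v` is real), so `(Q_v u)_1 = (Q_v u)_2 = 0`. MNK for
`U'_v = Q_v U_v` with radii `(1/2, R, R)`, `R` such that `(R^2/2)^n ≥ C` (`n = [F:ℚ]`), gives
`x2 ≠ 0` with `en(U_v x2) = en(U'_v x2) ≤ 2R` for all `v` (`R ≥ 1`). If `x2` were in `F x1`, its
coordinates 1, 2 in the frame vanish, so `en(U_v x2) ≤ 1/2 < 1` for all `v`, contradicting the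
hypothesis. (b) For each `v`, `U_v x1`, `U_v x2` are linearly independent over `ℂ` (`x1`, `x2` are
independent over `F`: a nonzero 2x2 minor; `U_v` invertible); FRM (2) gives a frame with third
coordinates of `x1`, `x2` zero. MNK with radii `(1/2,1/2,R')`, `(R'/4)^n ≥ C`, gives `x3 ≠ 0`. If
`x3` is in `F x1 + F x2` then `en(U_v x3) ≤ sqrt(1/2) < 1` for all `v`, contradiction.
So `X = (x1, x2, x3)` (columns) has nonzero determinant. -/
def SpecRE1 : Prop :=
  ∀ (F : Type u) [Field F] [NumberField F] (C0 : ℝ), ∃ C : ℝ, 1 ≤ C ∧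
    ∀ (U : InfinitePlace F → Matrix (Fin 3) (Fin 3) ℂ) (x : Fin 3 → 𝓞 F),
    (∀ v, ‖(U v).det‖ = 1 ∧ (v.IsReal → ∀ i j, (U v i j).im = 0)) → x ≠ 0 →
    (∀ v, en ((U v).mulVec (em v fun i => (x i : F))) ≤ C0) →
    (∀ y : Fin 3 → 𝓞 F, y ≠ 0 → ∃ v, 1 ≤ en ((U v).mulVec (em v fun i => (y i : F)))) →
    ∃ X : Matrix (Fin 3) (Fin 3) (𝓞 F), X.det ≠ 0 ∧
      ∀ v j, en ((U v).mulVec (em v fun i => (X i j : F))) ≤ C

/-- **RE2.** A short vector (`m < 1`): the cusp. Notation: `A(x,y) = x^T A y` in `O_F`, `‖x‖_v =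
en(U_v x_v)`, so `|A(x,y)|_v ≤ ‖x‖_v ‖y‖_v`; an element of `O_F` with all `|.|_v < 1` is 0
(its norm is an integer of absolute value `< 1`).
Proof. `x1 = x`, `t = 1/m > 1`. (a) `|A(x1,x1)|_v ≤ m^2 < 1`: `A(x1,x1) = 0`.
(b) For each `v` the functional `y ↦ A_v(x1, y)` on `ℂ^3` equals `star n ⬝ᵥ (U_v y)` for a vector
`n = n_v ≠ 0` (`A` nondegenerate), real if `v` is real, with `en n ≤ ‖x1‖_v ≤ m` (take
`y = U_v^{-1} n`: `(en n)^2 = A_v(x1,y) ≤ ‖x1‖_v en(n)`), and
`star n ⬝ᵥ U_v x1 = A(x1,x1) = 0`. Let `Q_v` be the frame of FRM (1) for `u = U_v x1` and `n`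
(orthogonality: conjugate of `star n ⬝ᵥ u = 0`), `U'_v = Q_v U_v`; write `(p,q,r)` for the
coordinates of `U'_v y`; `‖y‖_v^2 = |p|^2+|q|^2+|r|^2`; `A_v(x1,y) = star(Q n) ⬝ᵥ (Q U y)`, so
`|A_v(x1,y)| = en(n) |r| ≤ m |r|`, and `A_v(x1,y) = 0` implies `r = 0`; `y` in `F x1` implies
`q = r = 0`.
(c) MNK with radii `(m/2, M, t/2)`, `(M/4)^n ≥ C`: `x2 ≠ 0` with `|A_v(x1,x2)| ≤ m t/2 = 1/2`, so
`A(x1,x2) = 0`, `r = 0`, `‖x2‖_v ≤ M+1`. `x2` is not in `F x1` (else `‖x2‖_v = |p| ≤ m/2 < m` for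
all `v`, contradiction to the minimality). `e = A(x2,x2) ≠ 0`, else `x1, x2` span a totally
isotropic plane of the nondegenerate ternary form `A`, impossible.
(d) MNK with radii `(m/2, 1/2, M' t)`, `(M'/4)^n ≥ C`: `x3 ≠ 0`. If `A(x1,x3) = 0` then `r = 0`
and `|A_v(x3,x3)| ≤ ‖x3‖_v^2 ≤ m^2/4+1/4 < 1`, so `A(x3,x3) = 0`, and `x3` is in `F x1` (no
isotropic plane), so `‖x3‖_v ≤ m/2 < m`, contradiction. So `d0 = A(x1,x3) ≠ 0`.
`‖x3‖_v ≤ (M'+1) t`. (e) With `s = A(x2,x3)`, `w = A(x3,x3)` put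
`x3' = 2 e d0 x3 - 2 d0 s x2 - (w e - s^2) x1`. Then `A(x2,x3') = 2ed0 s - 2d0 s e = 0`,
`A(x3',x3') = 4e^2d0^2 w - 8 e d0^2 s^2 - 4 e d0^2 (we - s^2) + 4 d0^2 s^2 e = 0`,
`A(x1,x3') = 2 e d0^2`. All of `|e|_v, |d0|_v` are bounded, `|s|_v ≤ const t`, `|w|_v ≤ const t^2`,
so `‖x3'‖_v ≤ const t` (the last term: `t^2 m = t`). `X = (x1,x2,x3')`: the Gram matrix
`X^T A X` has determinant `- (2ed0^2)^2 e ≠ 0`, so `det X ≠ 0`. -/
def SpecRE2 : Prop :=
  ∀ (F : Type u) [Field F] [NumberField F], ∃ C : ℝ, 1 ≤ C ∧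
    ∀ (A : Matrix (Fin 3) (Fin 3) (𝓞 F)) (B : Matrix (Fin 3) (Fin 3) F) (ρ : InfinitePlace F → ℝ)
      (U : InfinitePlace F → Matrix (Fin 3) (Fin 3) ℂ) (x : Fin 3 → 𝓞 F) (m : ℝ),
    A.IsSymm → A.det = -1 → Maj (inc A) B ρ U → x ≠ 0 → 0 < m → m < 1 →
    (∀ v, en ((U v).mulVec (em v fun i => (x i : F))) ≤ m) →
    (∀ y : Fin 3 → 𝓞 F, y ≠ 0 → ∃ v, m ≤ en ((U v).mulVec (em v fun i => (y i : F)))) →
    ∃ (X : Matrix (Fin 3) (Fin 3) (𝓞 F)), X.det ≠ 0 ∧
      (X.transpose * A * X) 0 0 = 0 ∧ (X.transpose * A * X) 0 1 = 0 ∧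
      (X.transpose * A * X) 1 2 = 0 ∧ (X.transpose * A * X) 2 2 = 0 ∧
      ∀ v, en ((U v).mulVec (em v fun i => (X i 0 : F))) ≤ m ∧
        en ((U v).mulVec (em v fun i => (X i 1 : F))) ≤ C ∧
        en ((U v).mulVec (em v fun i => (X i 2 : F))) ≤ C / m

/-- **CNU.** Upper bound for the number of integers in a box, of any shape.
Proof. `n = [F:ℚ]`, `V = vol s`. If `x ≠ y` are integers then `prod_v |x-y|_v^{mult} =
|N(x-y)| ≥ 1`. (The set is finite: bounded conjugates.) Let `λ = 1/2` if `V ≤ 1`, and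
`λ = (1/2) V^{-1/n}` otherwise, so `0 < λ ≤ 1/2` and `(2 λ)^n V ≤ 1`. Cover
`prod_v {|z| ≤ s_v}` (in `ℝ` resp. `ℂ`) by cells: in each real coordinate (real, respectively
real and imaginary part) intervals `[k λ s_v/2, (k+1) λ s_v/2)`; two points of a cell differ
by less than `λ s_v` in absolute value at `v` (real: `≤ λ s_v/2`; complex: `≤ sqrt 2 λ s_v/2`), so
`prod_v |x-y|_v^{mult} < (λ)^n V ≤ 1` and a cell contains at most one integer. The number of cells
meeting the box is at most `(4/λ + 2)^n ≤ (5/λ)^n`, that is `≤ 10^n max(1, V)`. -/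
def SpecCNU : Prop :=
  ∀ (F : Type u) [Field F] [NumberField F], ∃ C : ℝ, 1 ≤ C ∧
    ∀ s : InfinitePlace F → ℝ, (∀ v, 0 < s v) →
      {x : 𝓞 F | ∀ v : InfinitePlace F, v (x : F) ≤ s v}.Finite ∧
      ({x : 𝓞 F | ∀ v : InfinitePlace F, v (x : F) ≤ s v}.ncard : ℝ) ≤ C * max 1 (vol s)

/-- **CNL.** Lower bound for the number of integers in a box, of any shape.
Proof. Let `w_1,...,w_n` be a `ℤ`-basis of `O_F`, `|w_i|_v ≤ B0` for all `v` (`B0 ≥ 1`). Let `M` be a
large positive integer, `M ≥ max_v s_v`. The `(2M+1)^n` integers `sum m_i w_i`, `|m_i| ≤ M`, lie in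
`prod_v {|z| ≤ n B0 M}`. Cut this set into cells as in CNU: in every real coordinate intervals of
length `s_v/2`; two points of a cell differ by at most `s_v` at `v`; the number of cells is at most
`prod_v (4 n B0 M/s_v + 2)^{mult} ≤ prod_v (6 n B0 M/s_v)^{mult} = (6 n B0 M)^n / vol s`.
So some cell contains at least `(2M+1)^n vol s/(6 n B0 M)^n ≥ vol s/(3 n B0)^n` of them, and the
differences with a fixed one lie in the box. (The box is finite by CNU.) -/
def SpecCNL : Prop :=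
  ∀ (F : Type u) [Field F] [NumberField F], ∃ c : ℝ, 0 < c ∧
    ∀ s : InfinitePlace F → ℝ, (∀ v, 1 ≤ s v) →
      c * vol s ≤ ({x : 𝓞 F | ∀ v : InfinitePlace F, v (x : F) ≤ s v}.ncard : ℝ)

/-- **BX1.** The number of reduced pairs of the first type.
Proof. Let `P = (A', B')` be in `R1`. `A'` runs through a finite set (depending on `F`, `C` only:
CNU, six entries). `adj(A') ≠ 0` because `det A' ≠ 0`. The relation
`trace(adj(A') B') = sum_{i,j} adj(A')_{ij} B'_{ij} = 0` (both symmetric) is a nontrivial linear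
relation between the six entries `B'_{ij}`, `i ≤ j`, with coefficients `adj(A')_{ii}` and
`2 adj(A')_{ij}`: one of the six is determined by `A'` and the five others. Each of the five others
lies in a box with `vol = vol(C ρ) = C^n vol ρ ≥ 1`, hence has at most `C1 vol ρ` values (CNU). Total
`≤ (number of A') * 6 * (C1 vol ρ)^5`. -/
def SpecBX1 : Prop :=
  ∀ (F : Type u) [Field F] [NumberField F] (C : ℝ), 1 ≤ C → ∃ C' : ℝ, 0 < C' ∧
    ∀ ρ : InfinitePlace F → ℝ, (∀ v, 1 ≤ ρ v) →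
      (R1 F C ρ).Finite ∧ ((R1 F C ρ).ncard : ℝ) ≤ C' * vol ρ ^ 5

/-- **BX2.** The number of reduced pairs of the second type, level `k`.
Proof. `A' = antidiag(d,e,d)` with `d, e ≠ 0` (its determinant is `-d^2 e`), finitely many. The
relation `trace(adj(A') B') = 0` reads `- 2 d e B'_{02} - d^2 B'_{11} = 0`
(`adj = det * inverse`, inverse `antidiag(1/d,1/e,1/d)`), so `B'_{11}` is determined by `B'_{02}`.
The entries `B'_{00}, B'_{01}, B'_{02}, B'_{12}, B'_{22}` lie in boxes of volumes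
`V0 * 2^{-2kn}, V0 * 2^{-kn}, V0, V0 * 2^{kn}, V0 * 2^{2kn}`, `V0 = C^n vol ρ`, `n = [F:ℚ]`. Since
`B'_{00} ≠ 0` is an integer in its box, `V0 2^{-2kn} ≥ |N B'_{00}| ≥ 1` (if `R2` is not empty), so
all volumes are `≥ 1` and by CNU the number of values is at most `C1` times the volume. The product
of the five is `C1^5 V0^5`. If `V0 < 2^{2kn}` the set is empty. -/
def SpecBX2 : Prop :=
  ∀ (F : Type u) [Field F] [NumberField F] (C : ℝ), 1 ≤ C → ∃ C' : ℝ, 0 < C' ∧
    ∀ ρ : InfinitePlace F → ℝ, (∀ v, 1 ≤ ρ v) →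
      (∀ k, (R2 F C ρ k).Finite ∧ ((R2 F C ρ k).ncard : ℝ) ≤ C' * vol ρ ^ 5) ∧
      ∃ K : ℕ, ∀ k, K ≤ k → R2 F C ρ k = ∅

/-! ## Part 6. Assembly -/

/-- **CLS.** Every nontrivial class has reduced models, many of them in the cusp.
Proof. Take `A, B, U` from PRE for `c`, and `x, m` from RE0.
Case `m ≥ 1`: RE1 gives `X`; `P = (X^T A X, X^T B X)`: `Att` by BCH (`det (inc X) ≠ 0`),
`|(X^T A X)_{ij}|_v = |x_i^T A x_j|_v ≤ ‖x_i‖_v ‖x_j‖_v ≤ C^2`, `|(X^T B X)_{ij}|_v ≤ 2 ρ_v C^2`;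
symmetry, determinant and trace relation from BCH (third part) and injectivity of `inc`.
Case `m < 1`: RE2 gives `X = (x1, x2, x3)`; let `k` be the natural number with
`2^k ≤ 1/m < 2^{k+1}`; `d = (X^T A X) 0 2`, `e = (X^T A X) 1 1`. For `q` in `O_F` put
`X_q = X * [[1, -2 e q, -2 d e q^2], [0, 1, 2 d q], [0, 0, 1]]`, i.e. columns `x1`,
`x2 - 2 e q x1`, `x3 + 2 d q x2 - 2 d e q^2 x1`, and `Φ q = (X_q^T A X_q, X_q^T B X_q)`.
`X_q^T A X_q = X^T A X`: `A(x2',x3') = 2dq e - 2eq d = 0`,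
`A(x3',x3') = 4 d^2 q^2 e - 4 d e q^2 d = 0`. If `|q|_v ≤ 2^k ≤ 1/m` for all `v`, then
`‖x1‖_v ≤ m`, `‖x2'‖_v ≤ C + 2|e| |q| m ≤ C'`, `‖x3'‖_v ≤ C/m + 2|d||q| C + 2|de||q|^2 m ≤ C'/m`
(`|d|_v ≤ ‖x1‖‖x3‖ ≤ C`, `|e|_v ≤ C^2`), so with `m ≤ 2^{-k}` and `1/m < 2^{k+1}` the bounds of
`R2` hold with a new constant: `|B(x_i,x_j)|_v ≤ 2 ρ_v ‖x_i‖‖x_j‖`, and `‖x_i‖_v ≤ C'' 2^{k(i-1)}`.
`(Φ q).2 0 0 = B(x1,x1) ≠ 0`: otherwise `A(x1,x1) = B(x1,x1) = 0` and by TRV `c` is a coboundary.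
`(Φ q).2 0 1 = B(x1,x2) - 2 e q B(x1,x1)` is injective in `q`. -/
def SpecCLS : Prop :=
  ∀ (F : Type u) [Field F] [NumberField F], ∃ C : ℝ, 1 ≤ C ∧
    ∀ (ρ : InfinitePlace F → ℝ) (a b : 𝓞 F)
      (c : Gal F → Pt (curve (a : F) (b : F)) (AlgebraicClosure F)),
    (∀ v, 1 ≤ ρ v) → (a, b) ∈ Bx F ρ → c ∈ Cocycles 2 (curve (a : F) (b : F)) →
    c ∉ Coboundaries 2 (curve (a : F) (b : F)) →
    (∃ P ∈ R1 F C ρ, Att (a : F) (b : F) c (inc P.1) (inc P.2)) ∨
    (∃ (k : ℕ) (Φ : 𝓞 F → Matrix (Fin 3) (Fin 3) (𝓞 F) × Matrix (Fin 3) (Fin 3) (𝓞 F)),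
      Set.InjOn Φ {q | ∀ v : InfinitePlace F, v (q : F) ≤ 2 ^ k} ∧
      ∀ q : 𝓞 F, (∀ v : InfinitePlace F, v (q : F) ≤ 2 ^ k) → Φ q ∈ R2 F C ρ k ∧
        Att (a : F) (b : F) c (inc (Φ q).1) (inc (Φ q).2))

/-- **TOT.** The total number of nontrivial Selmer elements over a box.
Proof. Let `T` be the set in the statement. For `z = (q, ξ)` in `T` choose a cocycle `c` with class
`ξ` (`ξ ≠ 0` means `c` not in `Coboundaries`) and apply CLS: `z` is of type 1 or of type
`(2,k)`. By INJ a pair `P` is attached to at most one `z` (same `(a,b)`, and `c - c'` is a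
coboundary, so same class). Hence the number of type 1 elements is `≤ #R1 ≤ C1 vol(ρ)^5` (BX1); and
for each `k`, the map (type `(2,k)` elements) `× {q : |q|_v ≤ 2^k} → R2(k)`, `(z,q) ↦ Φ_z q`, is
injective, so with CNL (`s_v = 2^k`, `vol s = 2^{kn}`): `#type(2,k) * c 2^{kn} ≤ #R2(k) ≤
C2 vol(ρ)^5`. `R2(k)` is empty for `k ≥ K`, and the set `{q}` is not empty (`q = 0`), so there is
no element of type `(2,k)`, `k ≥ K`. So `T` is finite and
`#T ≤ (C1 + (C2/c) sum_k 2^{-kn}) vol(ρ)^5 ≤ (C1 + 2 C2/c) vol(ρ)^5`. -/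
def SpecTOT : Prop :=
  ∀ (F : Type u) [Field F] [NumberField F], ∃ C : ℝ, 0 < C ∧
    ∀ ρ : InfinitePlace F → ℝ, (∀ v, 1 ≤ ρ v) →
      {z : (Σ q : 𝓞 F × 𝓞 F, Sel 2 (curve (q.1 : F) (q.2 : F))) |
        z.1 ∈ Bx F ρ ∧ z.2 ≠ 0}.Finite ∧
      ({z : (Σ q : 𝓞 F × 𝓞 F, Sel 2 (curve (q.1 : F) (q.2 : F))) |
        z.1 ∈ Bx F ρ ∧ z.2 ≠ 0}.ncard : ℝ) ≤ C * vol ρ ^ 5

/-- **LOW.** Lower bound for the number of curves in a box.
Proof. `a` ranges over at least `c vol(ρ^2) = c (vol ρ)^2` integers, `b` over at least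
`max(3, c vol(ρ)^3)` integers (CNL; `b = 0, 1, -1` are in the box). For given `a` at most two `b`
satisfy `27 b^2 = -4a^3`, so at least a third of the `b` remain: total
`≥ (c vol(ρ)^2)(c vol(ρ)^3/3)`. The box is finite by CNU. -/
def SpecLOW : Prop :=
  ∀ (F : Type u) [Field F] [NumberField F], ∃ c : ℝ, 0 < c ∧
    ∀ ρ : InfinitePlace F → ℝ, (∀ v, 1 ≤ ρ v) →
      (Bx F ρ).Finite ∧ c * vol ρ ^ 5 ≤ ((Bx F ρ).ncard : ℝ)

/-- **MAIN.** The final theorem: over every number field the average size of the 2-Selmer group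
over the curves in a box is bounded by a constant depending only on the field.
Proof. `Box F X = Bx F ρ` for `ρ v = X v ^ (1/(6 mult))` (`≥ 1`): `(|a|^mult)^3 ≤ X` iff
`|a| ≤ ρ^2`, `(|b|^mult)^2 ≤ X` iff `|b| ≤ ρ^3`. For `q` in the box `Sel 2 E_q` is finite, since
its nonzero elements inject in the finite set of TOT, and `sum (#Sel - 1) ≤ #T ≤ C vol(ρ)^5 ≤
(C/c) #Box` (LOW). -/
def SpecMAIN : Prop :=
  ∀ (F : Type u) [Field F] [NumberField F], ∃ C : ℝ,
    ∀ X : InfinitePlace F → ℝ, (∀ v, 1 ≤ X v) →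
      (Box F X).Finite ∧
      (∀ q ∈ Box F X, Finite (Sel 2 (curve (q.1 : F) (q.2 : F)))) ∧
      ∑ᶠ q ∈ Box F X, (Nat.card (Sel 2 (curve (q.1 : F) (q.2 : F))) : ℝ) ≤
        C * ((Box F X).ncard : ℝ)

end Pool.Agent.Lib.MP_8cb858_nt.SEL
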