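import Pool.Agent.Lib.MP_8cb858_nt.SEL.LO1

set_option autoImplicit false

/-!
# BX1: the number of reduced pairs of the first type
-/

namespace Pool.Agent.Lib.MP_8cb858_nt.SEL

open NumberField IsDedekindDomain
open scoped Classical

universe u

namespace BX1M

/-- the six positions of a symmetric matrix -/
def e : Fin 6 → Fin 3 × Fin 3 := ![(0, 0), (0, 1), (0, 2), (1, 1), (1, 2), (2, 2)]

lemma eq_zero_of_e {R : Type u} [CommRing R] {D : Matrix (Fin 3) (Fin 3) R} (hD : D.IsSymm)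
    (h : ∀ q : Fin 6, D (e q).1 (e q).2 = 0) : D = 0 := by
  have h0 := h 0
  have h1 := h 1
  have h2 := h 2
  have h3 := h 3
  have h4 := h 4
  have h5 := h 5
  simp only [e, Matrix.cons_val] at h0 h1 h2 h3 h4 h5
  ext i j
  have s10 : D 1 0 = 0 := by rw [hD.apply 0 1]; exact h1
  have s20 : D 2 0 = 0 := by rw [hD.apply 0 2]; exact h2
  have s21 : D 2 1 = 0 := by rw [hD.apply 1 2]; exact h4
  fin_cases i <;> fin_cases j <;> simp_all

lemma exists_e {R : Type u} [CommRing R] {D : Matrix (Fin 3) (Fin 3) R} (hD : D.IsSymm)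
    (h : D ≠ 0) : ∃ q : Fin 6, D (e q).1 (e q).2 ≠ 0 := by
  by_contra hcon
  push Not at hcon
  exact h (eq_zero_of_e hD hcon)

lemma det_relation {R : Type u} [CommRing R] [IsDomain R] [CharZero R]
    {a D : Matrix (Fin 3) (Fin 3) R} (ha : a.IsSymm) (hD : D.IsSymm)
    (htr : (a * D).trace = 0) (p : Fin 6) (hp : a (e p).1 (e p).2 ≠ 0)
    (h : ∀ q : Fin 6, q ≠ p → D (e q).1 (e q).2 = 0) : D = 0 := by
  have t : a 0 0 * D 0 0 + a 1 1 * D 1 1 + a 2 2 * D 2 2 +
      2 * (a 0 1 * D 0 1) + 2 * (a 0 2 * D 0 2) + 2 * (a 1 2 * D 1 2) = 0 := by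
    have a10 : a 1 0 = a 0 1 := ha.apply 0 1
    have a20 : a 2 0 = a 0 2 := ha.apply 0 2
    have a21 : a 2 1 = a 1 2 := ha.apply 1 2
    have d10 : D 1 0 = D 0 1 := hD.apply 0 1
    have d20 : D 2 0 = D 0 2 := hD.apply 0 2
    have d21 : D 2 1 = D 1 2 := hD.apply 1 2
    rw [← htr]
    simp only [Matrix.trace, Matrix.diag, Matrix.mul_apply, Fin.sum_univ_three]
    rw [a10, a20, a21, d10, d20, d21]
    ring
  refine eq_zero_of_e hD fun q => ?_
  by_cases hq : q = p
  · subst hq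
    have k0 := h 0
    have k1 := h 1
    have k2 := h 2
    have k3 := h 3
    have k4 := h 4
    have k5 := h 5
    have two : (2 : R) ≠ 0 := two_ne_zero
    fin_cases q <;>
      simp only [e, Matrix.cons_val, Fin.zero_eta, Fin.mk_one, Fin.reduceFinMk, ne_eq,
        Fin.reduceEq, not_false_eq_true, not_true_eq_false, forall_const, IsEmpty.forall_iff,
        one_ne_zero, zero_ne_one] at k0 k1 k2 k3 k4 k5 hp ⊢
    · rw [k1, k2, k3, k4, k5] at t
      have : a 0 0 * D 0 0 = 0 := by linear_combination t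
      exact (mul_eq_zero.1 this).resolve_left hp
    · rw [k0, k2, k3, k4, k5] at t
      have : 2 * (a 0 1 * D 0 1) = 0 := by linear_combination t
      exact (mul_eq_zero.1 ((mul_eq_zero.1 this).resolve_left two)).resolve_left hp
    · rw [k0, k1, k3, k4, k5] at t
      have : 2 * (a 0 2 * D 0 2) = 0 := by linear_combination t
      exact (mul_eq_zero.1 ((mul_eq_zero.1 this).resolve_left two)).resolve_left hp
    · rw [k0, k1, k2, k4, k5] at t
      have : a 1 1 * D 1 1 = 0 := by linear_combination t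
      exact (mul_eq_zero.1 this).resolve_left hp
    · rw [k0, k1, k2, k3, k5] at t
      have : 2 * (a 1 2 * D 1 2) = 0 := by linear_combination t
      exact (mul_eq_zero.1 ((mul_eq_zero.1 this).resolve_left two)).resolve_left hp
    · rw [k0, k1, k2, k3, k4] at t
      have : a 2 2 * D 2 2 = 0 := by linear_combination t
      exact (mul_eq_zero.1 this).resolve_left hp
  · exact h q hq

end BX1M

open CNUM BX1M in
theorem specBX1 (hCNU : SpecCNU.{u}) : SpecBX1.{u} := by
  intro F _ _ C hC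
  obtain ⟨C1, hC1, hN⟩ := hCNU F
  set n := Module.finrank ℚ F with hn
  have fS1 : (box F (fun _ => C)).Finite := box_finite _
  set N1 : ℕ := (box F (fun _ : InfinitePlace F => C)).ncard with hN1
  refine ⟨((N1 : ℝ) ^ 3) ^ 3 * (6 * (C1 * C ^ n) ^ 5) + 1, by positivity, fun ρ hρ => ?_⟩
  have hρ0 : ∀ v, 0 < ρ v := fun v => lt_of_lt_of_le one_pos (hρ v)
  have fS2 : (box F (fun v => C * ρ v)).Finite := box_finite _
  have hcard2 : ((box F (fun v => C * ρ v)).ncard : ℝ) ≤ (C1 * C ^ n) * vol ρ := by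
    have h1 := (hN (fun v => C * ρ v) (fun v => mul_pos (by linarith) (hρ0 v))).2
    have h2 : vol (fun v => C * ρ v) = C ^ n * vol ρ := by
      rw [vol_mul (fun _ => C) ρ, vol_const]
    have h3 : 1 ≤ vol (fun v => C * ρ v) :=
      one_le_vol fun v => one_le_mul_of_one_le_of_one_le hC (hρ v)
    rw [max_eq_right h3, h2] at h1
    refine h1.trans (le_of_eq (by ring))
  -- the map
  have hpe : ∀ P : Matrix (Fin 3) (Fin 3) (𝓞 F) × Matrix (Fin 3) (Fin 3) (𝓞 F),
      P ∈ R1 F C ρ → ∃ p : Fin 6, P.1.adjugate (e p).1 (e p).2 ≠ 0 := by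
    intro P hP
    obtain ⟨h1, h2, h3, h4, h5⟩ := hP
    have hs : P.1.adjugate.IsSymm := by
      unfold Matrix.IsSymm
      rw [Matrix.adjugate_transpose, h1]
    refine exists_e hs fun h0 => h3 ?_
    have h6 := Matrix.mul_adjugate P.1
    rw [h0, Matrix.mul_zero] at h6
    have h7 := congrFun (congrFun h6 0) 0
    simpa using h7.symm
  let pick : Matrix (Fin 3) (Fin 3) (𝓞 F) × Matrix (Fin 3) (Fin 3) (𝓞 F) → Fin 6 := fun P =>
    if h : P ∈ R1 F C ρ then (hpe P h).choose else 0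
  have hpick : ∀ P ∈ R1 F C ρ, P.1.adjugate (e (pick P)).1 (e (pick P)).2 ≠ 0 := by
    intro P hP
    simp only [pick, dif_pos hP]
    exact (hpe P hP).choose_spec
  let Ψ : Matrix (Fin 3) (Fin 3) (𝓞 F) × Matrix (Fin 3) (Fin 3) (𝓞 F) →
      (Fin 3 → Fin 3 → 𝓞 F) × (Fin 6 × (Fin 5 → 𝓞 F)) := fun P =>
    (fun i j => P.1 i j, pick P, fun k => P.2 (e ((pick P).succAbove k)).1
      (e ((pick P).succAbove k)).2)
  let T : Finset ((Fin 3 → Fin 3 → 𝓞 F) × (Fin 6 × (Fin 5 → 𝓞 F))) :=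
    (Fintype.piFinset fun _ : Fin 3 => Fintype.piFinset fun _ : Fin 3 => fS1.toFinset) ×ˢ
      ((Finset.univ : Finset (Fin 6)) ×ˢ Fintype.piFinset fun _ : Fin 5 => fS2.toFinset)
  have hmaps : Set.MapsTo Ψ (R1 F C ρ) (T : Set _) := by
    intro P hP
    obtain ⟨h1, h2, h3, h4, h5⟩ := hP
    simp only [T, Ψ, Finset.mem_coe, Finset.mem_product, Fintype.mem_piFinset,
      Set.Finite.mem_toFinset, Finset.mem_univ, true_and]
    exact ⟨fun i j v => (h5 v i j).1, fun k v => (h5 v _ _).2⟩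
  have hinj : Set.InjOn Ψ (R1 F C ρ) := by
    intro P hP P' hP' h
    simp only [Ψ, Prod.mk.injEq] at h
    obtain ⟨h1, h2, h3⟩ := h
    have hA : P.1 = P'.1 := by
      ext i j
      exact congrArg _ (congrFun (congrFun h1 i) j)
    have hs : P.1.adjugate.IsSymm := by
      unfold Matrix.IsSymm
      rw [Matrix.adjugate_transpose, hP.1]
    have hD : (P.2 - P'.2).IsSymm := by
      unfold Matrix.IsSymm
      rw [Matrix.transpose_sub, hP.2.1, hP'.2.1]
    have htr : (P.1.adjugate * (P.2 - P'.2)).trace = 0 := by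
      rw [Matrix.mul_sub, Matrix.trace_sub, hP.2.2.2.1]
      have := hP'.2.2.2.1
      rw [← hA] at this
      rw [this, sub_zero]
    have h0 := det_relation hs hD htr (pick P) (hpick P hP) (by
      intro q hq
      obtain ⟨k, rfl⟩ := Fin.exists_succAbove_eq hq
      have h4 : P.2 (e ((pick P).succAbove k)).1 (e ((pick P).succAbove k)).2 =
          P'.2 (e ((pick P').succAbove k)).1 (e ((pick P').succAbove k)).2 := congrFun h3 k
      rw [← h2] at h4
      rw [Matrix.sub_apply, h4, sub_self])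
    exact Prod.ext hA (sub_eq_zero.1 h0)
  have hfin : (R1 F C ρ).Finite :=
    Set.Finite.of_finite_image ((Finset.finite_toSet T).subset (Set.image_subset_iff.2 hmaps)) hinj
  refine ⟨hfin, ?_⟩
  have hc := Set.ncard_le_ncard_of_injOn Ψ hmaps hinj (Finset.finite_toSet T)
  rw [Set.ncard_coe_finset] at hc
  have hT : (T.card : ℝ) = ((N1 : ℝ) ^ 3) ^ 3 *
      (6 * ((box F (fun v => C * ρ v)).ncard : ℝ) ^ 5) := by
    simp only [T, Finset.card_product, Fintype.card_piFinset, Finset.prod_const, Finset.card_univ,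
      Fintype.card_fin]
    rw [← Set.ncard_eq_toFinset_card _ fS1, ← Set.ncard_eq_toFinset_card _ fS2]
    push_cast
    rfl
  have hv : 0 < vol ρ := vol_pos hρ0
  calc ((R1 F C ρ).ncard : ℝ) ≤ (T.card : ℝ) := by exact_mod_cast hc
    _ = ((N1 : ℝ) ^ 3) ^ 3 * (6 * ((box F (fun v => C * ρ v)).ncard : ℝ) ^ 5) := hT
    _ ≤ ((N1 : ℝ) ^ 3) ^ 3 * (6 * ((C1 * C ^ n) * vol ρ) ^ 5) := by
        have := pow_le_pow_left₀ (Nat.cast_nonneg _) hcard2 5
        have h6 : (0 : ℝ) ≤ ((N1 : ℝ) ^ 3) ^ 3 := by positivity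
        nlinarith
    _ ≤ _ := by
        rw [mul_pow (C1 * C ^ n)]
        nlinarith [pow_pos hv 5]

end Pool.Agent.Lib.MP_8cb858_nt.SEL
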