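import Pool.Agent.Lib.MP_8cb858_nt.SEL.Spec

/-!
# Module INT: a global integral basis
-/

namespace Pool.Agent.Lib.MP_8cb858_nt.SEL

open NumberField IsDedekindDomain
open scoped Classical

universe u w

namespace INTM

section gen

variable {K Γ : Type*} [CommRing K] [LinearOrderedCommGroupWithZero Γ]

/-- A matrix with entries of valuation at most one. -/
def Itg (val : Valuation K Γ) (M : Matrix (Fin 3) (Fin 3) K) : Prop := ∀ i j, val (M i j) ≤ 1

lemma Itg.mul {val : Valuation K Γ} {M N : Matrix (Fin 3) (Fin 3) K} (hM : Itg val M)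
    (hN : Itg val N) : Itg val (M * N) := by
  intro i j
  rw [Matrix.mul_apply]
  refine Valuation.map_sum_le _ fun k _ => ?_
  rw [map_mul]
  exact mul_le_one' (hM i k) (hN k j)

lemma Itg.transpose {val : Valuation K Γ} {M : Matrix (Fin 3) (Fin 3) K} (hM : Itg val M) :
    Itg val M.transpose := fun i j => hM j i

/-- The change of basis formula. -/
lemma conj_eq (g γ A : Matrix (Fin 3) (Fin 3) K) (hg : g.det = 1) :
    γ.transpose * A * γ =
      (g.adjugate * γ).transpose * (g.transpose * A * g) * (g.adjugate * γ) := by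
  have h1 : g * g.adjugate = 1 := by rw [Matrix.mul_adjugate, hg, one_smul]
  have h2 : g.adjugate.transpose * g.transpose = 1 := by
    rw [← Matrix.transpose_mul, h1, Matrix.transpose_one]
  rw [Matrix.transpose_mul]
  calc γ.transpose * A * γ = γ.transpose * (1 * A * 1) * γ := by
        rw [Matrix.one_mul, Matrix.mul_one]
    _ = γ.transpose * ((g.adjugate.transpose * g.transpose) * A * (g * g.adjugate)) * γ := by
        rw [h1, h2]
    _ = _ := by simp only [Matrix.mul_assoc]

end gen

variable {F : Type u} [Field F] [NumberField F]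

/-- The finite places at which a matrix is not integral. -/
def bad (A : Matrix (Fin 3) (Fin 3) F) : Set (HeightOneSpectrum (𝓞 F)) :=
  {v | ∃ i j, 1 < v.valuation F (A i j)}

lemma bad_finite (A : Matrix (Fin 3) (Fin 3) F) : (bad A).Finite := by
  have : bad A = ⋃ i, ⋃ j, HeightOneSpectrum.Support (𝓞 F) (A i j) := by
    ext v
    simp [bad, HeightOneSpectrum.Support]
  rw [this]
  exact Set.finite_iUnion fun i => Set.finite_iUnion fun j =>
    HeightOneSpectrum.Support.finite (𝓞 F) _

lemma notMem_bad {A : Matrix (Fin 3) (Fin 3) F} {v : HeightOneSpectrum (𝓞 F)} :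
    v ∉ bad A ↔ Itg (v.valuation F) A := by
  simp only [bad, Set.mem_ofPred_eq, Itg, not_exists, not_lt]

lemma itg_map {A : Matrix (Fin 3) (Fin 3) F} {v : HeightOneSpectrum (𝓞 F)} :
    Itg (Valued.v : Valuation (v.adicCompletion F) (WithZero (Multiplicative ℤ)))
      (A.map (algebraMap F (v.adicCompletion F))) ↔ Itg (v.valuation F) A := by
  have h : ∀ k : F, Valued.v (algebraMap F (v.adicCompletion F) k) = v.valuation F k := fun k =>
    HeightOneSpectrum.valuedAdicCompletion_eq_valuation' (R := 𝓞 F) v k
  simp only [Itg, Matrix.map_apply, h]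

lemma exists_lift (A : Matrix (Fin 3) (Fin 3) F) (hA : bad A = ∅) :
    ∃ A' : Matrix (Fin 3) (Fin 3) (𝓞 F), inc A' = A := by
  have h : ∀ i j, ∃ x : 𝓞 F, algebraMap (𝓞 F) F x = A i j := by
    intro i j
    have := HeightOneSpectrum.mem_integers_of_valuation_le_one (R := 𝓞 F) F (A i j) (fun v => by
      have hv : v ∉ bad A := by rw [hA]; exact Set.notMem_empty v
      exact notMem_bad.mp hv i j)
    exact this
  choose f hf using h
  exact ⟨Matrix.of f, by ext i j; simp [inc, hf]⟩

/-- The local hypothesis. -/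
def LocHyp (A B : Matrix (Fin 3) (Fin 3) F) (v : HeightOneSpectrum (𝓞 F)) : Prop :=
  ∃ g : Matrix (Fin 3) (Fin 3) (v.adicCompletion F), g.det = 1 ∧
      ∀ i j, Valued.v ((g.transpose * A.map (algebraMap F (v.adicCompletion F)) * g) i j) ≤ 1 ∧
        Valued.v ((g.transpose * B.map (algebraMap F (v.adicCompletion F)) * g) i j) ≤ 1

lemma LocHyp.conj {A B γ : Matrix (Fin 3) (Fin 3) F} {v : HeightOneSpectrum (𝓞 F)}
    (h : LocHyp A B v) (hγ : γ.det = 1) :
    LocHyp (γ.transpose * A * γ) (γ.transpose * B * γ) v := by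
  obtain ⟨g, hg, hi⟩ := h
  set φ := algebraMap F (v.adicCompletion F) with hφ
  have h1 : γ * γ.adjugate = 1 := by rw [Matrix.mul_adjugate, hγ, one_smul]
  have h2 : γ.adjugate.transpose * γ.transpose = 1 := by
    rw [← Matrix.transpose_mul, h1, Matrix.transpose_one]
  have key : ∀ A : Matrix (Fin 3) (Fin 3) F,
      (γ.adjugate.map φ * g).transpose * (γ.transpose * A * γ).map φ * (γ.adjugate.map φ * g) =
        g.transpose * A.map φ * g := by
    intro A
    have h3 : (γ.adjugate.map φ).transpose * (γ.transpose * A * γ).map φ * γ.adjugate.map φ =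
        A.map φ := by
      rw [← Matrix.transpose_map, ← Matrix.map_mul, ← Matrix.map_mul]
      congr 1
      calc γ.adjugate.transpose * (γ.transpose * A * γ) * γ.adjugate
          = (γ.adjugate.transpose * γ.transpose) * A * (γ * γ.adjugate) := by
            simp only [Matrix.mul_assoc]
        _ = A := by rw [h1, h2, Matrix.one_mul, Matrix.mul_one]
    rw [Matrix.transpose_mul]
    calc g.transpose * (γ.adjugate.map φ).transpose * (γ.transpose * A * γ).map φ *
          (γ.adjugate.map φ * g)
        = g.transpose * ((γ.adjugate.map φ).transpose * (γ.transpose * A * γ).map φ *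
            γ.adjugate.map φ) * g := by simp only [Matrix.mul_assoc]
      _ = _ := by rw [h3]
  refine ⟨γ.adjugate.map φ * g, ?_, fun i j => ?_⟩
  · have h4 : (γ.adjugate.map φ).det = φ γ.adjugate.det := by
      rw [RingHom.map_det]; rfl
    rw [Matrix.det_mul, hg, mul_one, h4, Matrix.det_adjugate, hγ, one_pow, map_one]
  · rw [key A, key B]
    exact hi i j

end INTM

open INTM in
theorem specINT (hSLA : SpecSLA.{u}) : SpecINT.{u} := by
  intro F _ _
  have main : ∀ (n : ℕ) (A B : Matrix (Fin 3) (Fin 3) F), (bad A ∪ bad B).ncard = n →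
      (∀ v, LocHyp A B v) →
      ∃ (γ : Matrix (Fin 3) (Fin 3) F) (A' B' : Matrix (Fin 3) (Fin 3) (𝓞 F)), γ.det = 1 ∧
        inc A' = γ.transpose * A * γ ∧ inc B' = γ.transpose * B * γ := by
    intro n
    induction n using Nat.strong_induction_on with
    | _ n ih =>
    intro A B hn hloc
    have hfin : (bad A ∪ bad B).Finite := (bad_finite A).union (bad_finite B)
    rcases Set.eq_empty_or_nonempty (bad A ∪ bad B) with he | ⟨v, hv⟩
    · rw [Set.union_empty_iff] at he
      obtain ⟨A', hA'⟩ := exists_lift A he.1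
      obtain ⟨B', hB'⟩ := exists_lift B he.2
      exact ⟨1, A', B', Matrix.det_one, by simp [hA'], by simp [hB']⟩
    · obtain ⟨g, hg, hi⟩ := hloc v
      obtain ⟨γ, hγ, hγw, hγv⟩ := hSLA F v g hg
      set φ := algebraMap F (v.adicCompletion F) with hφ
      have hgood : ∀ C : Matrix (Fin 3) (Fin 3) F,
          (∀ i j, Valued.v ((g.transpose * C.map φ * g) i j) ≤ 1) →
          bad (γ.transpose * C * γ) ⊆ bad C \ {v} := by
        intro C hC w hw
        have hwv : w ≠ v := by
          rintro rfl
          refine absurd hw (notMem_bad.mpr ?_)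
          rw [← itg_map, Matrix.map_mul, Matrix.map_mul, Matrix.transpose_map,
            conj_eq g _ _ hg]
          exact (Itg.mul (Itg.mul (Itg.transpose hγv) hC) hγv)
        refine ⟨?_, hwv⟩
        by_contra hwC
        refine absurd hw (notMem_bad.mpr ?_)
        have h1 := notMem_bad.mp hwC
        have h2 : Itg (w.valuation F) γ := fun i j => hγw w hwv i j
        exact Itg.mul (Itg.mul (Itg.transpose h2) h1) h2
      have hss : bad (γ.transpose * A * γ) ∪ bad (γ.transpose * B * γ) ⊂ bad A ∪ bad B := by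
        have h1 := hgood A (fun i j => (hi i j).1)
        have h2 := hgood B (fun i j => (hi i j).2)
        rw [Set.ssubset_iff_of_subset (Set.union_subset_union (h1.trans Set.sdiff_subset)
          (h2.trans Set.sdiff_subset))]
        refine ⟨v, hv, ?_⟩
        rintro (h | h)
        · exact (h1 h).2 rfl
        · exact (h2 h).2 rfl
      obtain ⟨γ', A', B', hd, hA', hB'⟩ := ih _ (hn ▸ Set.ncard_lt_ncard hss hfin)
        (γ.transpose * A * γ) (γ.transpose * B * γ) rfl (fun w => (hloc w).conj hγ)
      refine ⟨γ * γ', A', B', by rw [Matrix.det_mul, hγ, hd, one_mul], ?_, ?_⟩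
      · rw [hA', Matrix.transpose_mul]; simp only [Matrix.mul_assoc]
      · rw [hB', Matrix.transpose_mul]; simp only [Matrix.mul_assoc]
  intro A B h
  exact main _ A B rfl h

end Pool.Agent.Lib.MP_8cb858_nt.SEL
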