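import Pool.Agent.Lib.MP_8cb858_nt.SEL.LO1

/-!
# MP_8cb858_nt, module LO3: the local integrality statement
-/

namespace Pool.Agent.Lib.MP_8cb858_nt.SEL

open NumberField IsDedekindDomain
open scoped Classical

universe u

namespace LO3M

/-- Gram matrices and base change -/
lemma gA_mul {K : Type u} [Field K] (th : Fin 3 → K) (Z g : Matrix (Fin 3) (Fin 3) K) :
    gA th (Z * g) = g.transpose * gA th Z * g := by
  ext j k
  simp only [gA, Matrix.mul_apply, Matrix.transpose_apply, Fin.sum_univ_three]
  ring

lemma gB_mul {K : Type u} [Field K] (th : Fin 3 → K) (Z g : Matrix (Fin 3) (Fin 3) K) :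
    gB th (Z * g) = g.transpose * gB th Z * g := by
  ext j k
  simp only [gB, Matrix.mul_apply, Matrix.transpose_apply, Fin.sum_univ_three]
  ring

lemma gA_map {K K' : Type u} [Field K] [Field K'] (i : K →+* K') (th : Fin 3 → K)
    (Z : Matrix (Fin 3) (Fin 3) K) : gA (fun j => i (th j)) (Z.map i) = (gA th Z).map i := by
  ext j k
  simp [gA, fp]

lemma gB_map {K K' : Type u} [Field K] [Field K'] (i : K →+* K') (th : Fin 3 → K)
    (Z : Matrix (Fin 3) (Fin 3) K) : gB (fun j => i (th j)) (Z.map i) = (gB th Z).map i := by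
  ext j k
  simp [gB, fp]

lemma vnd_map {K K' : Type u} [Field K] [Field K'] (i : K →+* K') (th : Fin 3 → K) :
    vnd (fun j => i (th j)) = (vnd th).map i := by
  ext j k
  simp [vnd]

/-- an automorphism permutes the roots -/
lemma perm {F : Type u} [Field F] {K : Type u} [Field K] [Algebra F K] {a b : F} {th : Fin 3 → K}
    (h : IsRoots (algebraMap F K a) (algebraMap F K b) th) (t : K →ₐ[F] K) :
    ∃ σ : Fin 3 → Fin 3, Function.Surjective σ ∧ ∀ j, t (th j) = th (σ j) := by
  have key : ∀ x : K, (x - th 0) * (x - th 1) * (x - th 2) =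
      x ^ 3 + algebraMap F K a * x + algebraMap F K b := by
    intro x
    rw [← h.e2]
    have h3 : algebraMap F K b = -(th 0 * th 1 * th 2) := by rw [h.e3]; ring
    have h0 : th 2 = -(th 0 + th 1) := by linear_combination h.e1
    rw [h3, h0]
    ring
  have hj : ∀ j, ∃ k, t (th j) = th k := by
    intro j
    have h1 : (th j) ^ 3 + algebraMap F K a * th j + algebraMap F K b = 0 := by
      rw [← key]
      fin_cases j <;> simp
    have h2 : (t (th j)) ^ 3 + algebraMap F K a * t (th j) + algebraMap F K b = 0 := by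
      have := congrArg t h1
      simpa using this
    rw [← key] at h2
    rcases mul_eq_zero.1 h2 with h3 | h3
    · rcases mul_eq_zero.1 h3 with h4 | h4
      · exact ⟨0, sub_eq_zero.1 h4⟩
      · exact ⟨1, sub_eq_zero.1 h4⟩
    · exact ⟨2, sub_eq_zero.1 h3⟩
  choose σ hσ using hj
  refine ⟨σ, Finite.surjective_of_injective ?_, hσ⟩
  intro x y hxy
  apply h.inj
  have h1 : t (th x) = t (th y) := by rw [hσ, hσ, hxy]
  exact t.injective h1

lemma core (hEMB : SpecEMB.{u, u}) (hFXD : SpecFXD.{u}) (hHAL : SpecHAL.{u}) (hPSH : SpecPSH.{u})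
    {F : Type u} [Field F] [CharZero F] {K : Type u} [Field K] [CharZero K] [Algebra F K] {a b : F}
    (c : Gal F → Pt (curve a b) (AlgebraicClosure F)) (hc : ∀ s, (2 : ℕ) • c s = 0)
    (th : Fin 3 → AlgebraicClosure F) (Z : Matrix (Fin 3) (Fin 3) (AlgebraicClosure F))
    (hth : IsRoots (algebraMap F _ a) (algebraMap F _ b) th) (hZ : Twisted th c Z)
    (hdet : Z.det = (vnd th).det) (i : AlgebraicClosure F →ₐ[F] AlgebraicClosure K)
    (P : Pt (curve a b) (AlgebraicClosure K)) (hP4 : (4 : ℕ) • P ≠ 0)
    (hP : ∀ (s : AlgebraicClosure K ≃ₐ[K] AlgebraicClosure K) (t : Gal F),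
        (∀ x, i (t x) = s (i x)) →
          push (curve a b) i (c t) = push (curve a b)
            ((s : AlgebraicClosure K →ₐ[K] AlgebraicClosure K).restrictScalars F) P - P)
    (p : Matrix (Fin 3) (Fin 3) K)
    (hW : (Matrix.diagonal (hlf (fun j => i (th j)) P) * vnd (fun j => i (th j)) *
      p.map (algebraMap K (AlgebraicClosure K))).det = (vnd (fun j => i (th j))).det) :
    ∃ g : Matrix (Fin 3) (Fin 3) K, g.det = 1 ∧
      Z.map i * g.map (algebraMap K (AlgebraicClosure K)) =
        Matrix.diagonal (hlf (fun j => i (th j)) P) * vnd (fun j => i (th j)) *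
          p.map (algebraMap K (AlgebraicClosure K)) := by
  set th' : Fin 3 → AlgebraicClosure K := fun j => i (th j) with hth'
  have hR' : IsRoots (algebraMap F _ a) (algebraMap F _ b) th' := LO1M.roots i hth
  set W := Matrix.diagonal (hlf th' P) * vnd th' * p.map (algebraMap K (AlgebraicClosure K))
    with hWd
  have hWe : ∀ j l, W j l = hlf th' P j * ∑ m : Fin 3, th' j ^ (m : ℕ) *
      algebraMap K (AlgebraicClosure K) (p m l) := by
    intro j l
    rw [hWd, Matrix.mul_assoc, Matrix.diagonal_mul, Matrix.mul_apply]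
    rfl
  have hP2 : (2 : ℕ) • P ≠ 0 := by
    intro h
    apply hP4
    have : (4 : ℕ) • P = (2 : ℕ) • ((2 : ℕ) • P) := by rw [← mul_nsmul]
    rw [this, h, nsmul_zero]
  set iZ : Matrix (Fin 3) (Fin 3) (AlgebraicClosure K) := Z.map i with hiZ
  have hdiZ : iZ.det = (vnd th').det := by
    have h1 : iZ.det = i Z.det := by
      rw [hiZ]
      exact (RingHom.map_det (i : AlgebraicClosure F →+* AlgebraicClosure K) Z).symm
    have h2 : (vnd th').det = i (vnd th).det := by
      have h3 : vnd th' = (vnd th).map i :=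
        vnd_map (i : AlgebraicClosure F →+* AlgebraicClosure K) th
      rw [h3]
      exact (RingHom.map_det (i : AlgebraicClosure F →+* AlgebraicClosure K) _).symm
    rw [h1, h2, hdet]
  have hiZ0 : iZ.det ≠ 0 := by
    have h1 : iZ.det = i Z.det := by
      rw [hiZ]
      exact (RingHom.map_det (i : AlgebraicClosure F →+* AlgebraicClosure K) Z).symm
    rw [h1]
    intro h
    apply hZ.1
    exact (map_eq_zero i).1 h
  have hu : IsUnit iZ.det := isUnit_iff_ne_zero.2 hiZ0
  set G : Matrix (Fin 3) (Fin 3) (AlgebraicClosure K) := iZ⁻¹ * W with hG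
  have hmul : iZ * G = W := by rw [hG, ← Matrix.mul_assoc, Matrix.mul_nonsing_inv _ hu, one_mul]
  have huniq : ∀ G' : Matrix (Fin 3) (Fin 3) (AlgebraicClosure K), iZ * G' = W → G' = G := by
    intro G' h
    rw [hG, ← h, ← Matrix.mul_assoc, Matrix.nonsing_inv_mul _ hu, one_mul]
  have hGdet : G.det = 1 := by
    have h1 : iZ.det * G.det = W.det := by rw [← Matrix.det_mul, hmul]
    rw [hW, ← hdiZ] at h1
    exact mul_left_cancel₀ hiZ0 (by rw [h1, mul_one])
  -- the Galois group acts in the same way on `iZ` and `W`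
  have hfix : ∀ (s : AlgebraicClosure K ≃ₐ[K] AlgebraicClosure K) (m l : Fin 3),
      s (G m l) = G m l := by
    intro s
    obtain ⟨t, ht⟩ := hEMB F (AlgebraicClosure K) i
      (((s : AlgebraicClosure K →ₐ[K] AlgebraicClosure K).restrictScalars F).comp i)
    have ht' : ∀ x, i (t x) = s (i x) := fun x => ht x
    obtain ⟨σ, hσ, hσt⟩ := perm hth (t : AlgebraicClosure F →ₐ[F] AlgebraicClosure F)
    have hσt' : ∀ j, t (th j) = th (σ j) := hσt
    have hsth : ∀ j, s (th' j) = th' (σ j) := by
      intro j
      rw [hth']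
      simp only
      rw [← ht', hσt']
    have hpush := hP s t ht'
    have h1 : ∀ j l, s (iZ j l) = (sg th (c t) (σ j) : AlgebraicClosure K) * iZ (σ j) l := by
      intro j l
      rw [hiZ, Matrix.map_apply, Matrix.map_apply, ← ht', hZ.2 t j (σ j) l (hσt' j), map_mul]
      simp
    have h2 : ∀ j, s (hlf th' P j) =
        (sg th (c t) (σ j) : AlgebraicClosure K) * hlf th' P (σ j) := by
      intro j
      have e1 := (hPSH F (AlgebraicClosure K) (AlgebraicClosure K) a b th' th'
        ((s : AlgebraicClosure K →ₐ[K] AlgebraicClosure K).restrictScalars F) hR' hR' j (σ j)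
        (hsth j)).2 P
      have e2 := (hPSH F (AlgebraicClosure F) (AlgebraicClosure K) a b th th' i hth hR'
        (σ j) (σ j) rfl).2 (c t)
      have e3 : push (curve a b)
          ((s : AlgebraicClosure K →ₐ[K] AlgebraicClosure K).restrictScalars F) P =
          P + push (curve a b) i (c t) := by
        rw [hpush]; abel
      have e4 : (2 : ℕ) • push (curve a b) i (c t) = 0 := by
        rw [← map_nsmul, hc, map_zero]
      have e5 := (hHAL F (AlgebraicClosure K) a b th' hR').1 P (push (curve a b) i (c t)) e4 hP2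
        (σ j)
      have e6 : s (hlf th' P j) = hlf th' (push (curve a b)
          ((s : AlgebraicClosure K →ₐ[K] AlgebraicClosure K).restrictScalars F) P) (σ j) := e1.2
      rw [e6, e3, e5, e2.1]
    have h3 : ∀ j l, s (W j l) = (sg th (c t) (σ j) : AlgebraicClosure K) * W (σ j) l := by
      intro j l
      rw [hWe, hWe, map_mul, h2, map_sum, mul_assoc]
      congr 2
      refine Finset.sum_congr rfl fun m _ => ?_
      rw [map_mul, map_pow, hsth, s.commutes]
    have hsg : ∀ k, (sg th (c t) k : AlgebraicClosure K) ≠ 0 := by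
      intro k
      have : sg th (c t) k = 1 ∨ sg th (c t) k = -1 := by
        unfold sg
        cases c t with
        | zero => exact Or.inl rfl
        | some x y h =>
          simp only
          by_cases hx : x = th k
          · exact Or.inl (if_pos hx)
          · exact Or.inr (if_neg hx)
      rcases this with h | h <;> rw [h] <;> simp
    have h4 : iZ * G.map s = W := by
      ext k l
      obtain ⟨j, rfl⟩ := hσ k
      apply mul_left_cancel₀ (hsg (σ j))
      rw [← h3, ← hmul, Matrix.mul_apply, Matrix.mul_apply, map_sum, Finset.mul_sum]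
      refine Finset.sum_congr rfl fun m _ => ?_
      rw [map_mul, h1, Matrix.map_apply, mul_assoc]
    have h5 := huniq _ h4
    intro m l
    exact congrFun (congrFun h5 m) l
  choose g hg using fun m l => hFXD K (G m l) (fun s => hfix s m l)
  have hgG : (Matrix.of g).map (algebraMap K (AlgebraicClosure K)) = G := by
    ext m l
    exact hg m l
  refine ⟨Matrix.of g, ?_, by rw [hgG, hmul]⟩
  apply (algebraMap K (AlgebraicClosure K)).injective
  rw [map_one, ← hGdet, ← hgG]
  exact RingHom.map_det _ _

end LO3M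

open LO3M

theorem specLO3 (hEMB : SpecEMB.{u, u}) (hFXD : SpecFXD.{u}) (hHAL : SpecHAL.{u})
    (hPSH : SpecPSH.{u}) (hBIG : SpecBIG.{u}) (hLO1 : SpecLO1.{u}) (hLO2 : SpecLO2.{u}) :
    SpecLO3.{u} := by
  intro F _ _ v a b c th Z A B hab hc hloc hth hZ hdet hA hB
  have hab' : 4 * (a : F) ^ 3 + 27 * (b : F) ^ 2 ≠ 0 := by
    intro h
    apply hab
    have : ((4 * a ^ 3 + 27 * b ^ 2 : 𝓞 F) : F) = 0 := by
      push_cast
      exact h
    exact RingOfIntegers.coe_eq_zero_iff.1 this
  have : CharZero (v.adicCompletion F) :=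
    charZero_of_injective_algebraMap (algebraMap F (v.adicCompletion F)).injective
  let i : AlgebraicClosure F →ₐ[F] AlgebraicClosure (v.adicCompletion F) := IsAlgClosed.lift
  obtain ⟨P, hP, hP4, x', y', h, h2⟩ := hLO1 F (v.adicCompletion F) (a : F) (b : F) c hab' hc hloc
    (hBIG F v _ _ hab') i
  obtain ⟨p, A', B', hW, hA', hB', hint⟩ := hLO2 F v a b (fun j => i (th j)) P x' y' h
    (LO1M.roots i hth) hP4 h2
  obtain ⟨g, hg, hgW⟩ := core hEMB hFXD hHAL hPSH c hc th Z hth hZ hdet i P hP4 hP p hW
  have hinj : Function.Injective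
      (algebraMap (v.adicCompletion F) (AlgebraicClosure (v.adicCompletion F))) :=
    (algebraMap (v.adicCompletion F) (AlgebraicClosure (v.adicCompletion F))).injective
  have hmapinj : ∀ M N : Matrix (Fin 3) (Fin 3) (v.adicCompletion F),
      M.map (algebraMap (v.adicCompletion F) (AlgebraicClosure (v.adicCompletion F))) =
        N.map (algebraMap (v.adicCompletion F) (AlgebraicClosure (v.adicCompletion F))) →
      M = N := by
    intro M N h
    exact Matrix.ext fun m l => hinj (congrFun (congrFun h m) l)
  have htrans : ∀ M : Matrix (Fin 3) (Fin 3) F,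
      (g.transpose * M.map (algebraMap F (v.adicCompletion F)) * g).map
        (algebraMap (v.adicCompletion F) (AlgebraicClosure (v.adicCompletion F))) =
      (g.map (algebraMap (v.adicCompletion F) (AlgebraicClosure (v.adicCompletion F)))).transpose *
        (M.map (algebraMap F (AlgebraicClosure F))).map i *
        g.map (algebraMap (v.adicCompletion F) (AlgebraicClosure (v.adicCompletion F))) := by
    intro M
    rw [Matrix.map_mul, Matrix.map_mul, Matrix.transpose_map]
    congr 2
    ext m l
    simp only [Matrix.map_apply]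
    rw [i.commutes]
    exact (IsScalarTower.algebraMap_apply F (v.adicCompletion F)
      (AlgebraicClosure (v.adicCompletion F)) (M m l)).symm
  have e1 : g.transpose * A.map (algebraMap F (v.adicCompletion F)) * g = A' := by
    apply hmapinj
    rw [htrans, ← hA', ← hgW, gA_mul, ← hA]
    congr 2
    exact (gA_map (i : AlgebraicClosure F →+* AlgebraicClosure (v.adicCompletion F)) th Z).symm
  have e2 : g.transpose * B.map (algebraMap F (v.adicCompletion F)) * g = B' := by
    apply hmapinj
    rw [htrans, ← hB', ← hgW, gB_mul, ← hB]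
    congr 2
    exact (gB_map (i : AlgebraicClosure F →+* AlgebraicClosure (v.adicCompletion F)) th Z).symm
  refine ⟨g, hg, ?_⟩
  rw [e1, e2]
  exact hint

end Pool.Agent.Lib.MP_8cb858_nt.SEL
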