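import Pool.Agent.Lib.MP_8cb858_nt.SEL.LO1

/-!
# RE0: a minimal vector
-/

namespace Pool.Agent.Lib.MP_8cb858_nt.SEL

namespace RE0M

open NumberField IsDedekindDomain FRMM
open scoped Classical

universe u

variable {F : Type u} [Field F] [NumberField F]

omit [NumberField F] in
lemma em_ne (v : InfinitePlace F) {x : Fin 3 → F} (hx : x ≠ 0) : SEL.em v x ≠ 0 := by
  intro h
  apply hx
  funext i
  have := congrFun h i
  simpa [SEL.em] using this

omit [NumberField F] in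
lemma coe_ne {x : Fin 3 → 𝓞 F} (hx : x ≠ 0) : (fun i => (x i : F)) ≠ 0 := by
  intro h
  apply hx
  funext i
  have := congrFun h i
  simpa using this

lemma mulVec_ne {U : Matrix (Fin 3) (Fin 3) ℂ} (h : ‖U.det‖ = 1) {y : Fin 3 → ℂ} (hy : y ≠ 0) :
    U.mulVec y ≠ 0 := by
  intro h0
  apply hy
  refine Matrix.eq_zero_of_mulVec_eq_zero ?_ h0
  intro h1
  rw [h1] at h
  simp at h

lemma norm_le_en (w : Fin 3 → ℂ) (k : Fin 3) : ‖w k‖ ≤ en w := by
  refine Real.le_sqrt_of_sq_le ?_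
  exact Finset.single_le_sum (f := fun i => ‖w i‖ ^ 2) (fun _ _ => by positivity)
    (Finset.mem_univ k)

lemma en_le_of {w : Fin 3 → ℂ} {R : ℝ} (hR : 0 ≤ R) (h : ∀ k, ‖w k‖ ≤ R) : en w ≤ 2 * R := by
  unfold en
  rw [Real.sqrt_le_left (by positivity), Fin.sum_univ_three]
  have h0 := pow_le_pow_left₀ (norm_nonneg _) (h 0) 2
  have h1 := pow_le_pow_left₀ (norm_nonneg _) (h 1) 2
  have h2 := pow_le_pow_left₀ (norm_nonneg _) (h 2) 2
  nlinarith

lemma sum_mult_pos : 1 ≤ ∑ v : InfinitePlace F, v.mult := by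
  rw [InfinitePlace.sum_mult_eq]
  exact Module.finrank_pos

lemma prod_pow_ge {R : ℝ} (hR : 1 ≤ R) : R ≤ ∏ v : InfinitePlace F, R ^ v.mult := by
  rw [Finset.prod_pow_eq_pow_sum]
  calc R = R ^ 1 := (pow_one R).symm
    _ ≤ _ := pow_le_pow_right₀ hR sum_mult_pos

/-- Only finitely many integral vectors are short. -/
lemma short_finite (U : InfinitePlace F → Matrix (Fin 3) (Fin 3) ℂ) (hU : ∀ v, ‖(U v).det‖ = 1)
    (C : ℝ) :
    {x : Fin 3 → 𝓞 F | ∀ v, en ((U v).mulVec (SEL.em v fun i => (x i : F))) ≤ C}.Finite := by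
  set s : InfinitePlace F → ℝ := fun v => ∑ i, ∑ j, ‖(U v)⁻¹ i j‖ * C with hs
  refine (Set.Finite.pi' fun _ : Fin 3 => CNUM.box_finite s).subset ?_
  intro x hx i v
  have hC : 0 ≤ C := (en_nonneg _).trans (hx v)
  have hdet : IsUnit (U v).det := by
    rw [isUnit_iff_ne_zero]
    intro h
    have := hU v
    rw [h] at this
    simp at this
  set y := SEL.em v fun i => (x i : F) with hy
  have h1 : y = (U v)⁻¹.mulVec ((U v).mulVec y) := by
    rw [Matrix.mulVec_mulVec, Matrix.nonsing_inv_mul _ hdet, Matrix.one_mulVec]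
  have h2 : v (x i : F) = ‖y i‖ := by
    rw [hy, SEL.em, InfinitePlace.norm_embedding_eq]
  rw [h2, h1]
  simp only [Matrix.mulVec, dotProduct]
  refine (norm_sum_le _ _).trans ?_
  have h3 : ∀ k, ∑ j, ‖(U v)⁻¹ k j‖ * C ≤ s v := fun k =>
    Finset.single_le_sum (f := fun k => ∑ j, ‖(U v)⁻¹ k j‖ * C)
      (fun _ _ => Finset.sum_nonneg fun _ _ => by positivity) (Finset.mem_univ k)
  refine le_trans (Finset.sum_le_sum fun j _ => ?_) (h3 i)
  rw [norm_mul]
  refine mul_le_mul_of_nonneg_left ?_ (norm_nonneg _)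
  exact (norm_le_en ((U v).mulVec y) j).trans (hx v)

end RE0M

open NumberField IsDedekindDomain FRMM RE0M in
open scoped Classical in
theorem specRE0.{u} (hMNK : SpecMNK.{u}) : SpecRE0.{u} := by
  intro F _ _
  obtain ⟨C, hC1, hC⟩ := hMNK F
  refine ⟨2 * C, by linarith, ?_⟩
  intro U hU
  have hCpos : 0 < C := by linarith
  obtain ⟨x0, hx0, hx0'⟩ := hC U (fun _ _ => C) hU (fun _ _ => hCpos) (by
    have h1 : (1 : ℝ) ≤ C * C * C := by nlinarith [mul_self_nonneg (C - 1)]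
    have h2 : C ≤ C * C * C := by nlinarith [mul_self_nonneg (C - 1)]
    exact h2.trans (prod_pow_ge h1))
  have hx0C : ∀ v, en ((U v).mulVec (SEL.em v fun i => (x0 i : F))) ≤ 2 * C := fun v =>
    en_le_of hCpos.le (hx0' v)
  set f : (Fin 3 → 𝓞 F) → ℝ := fun x =>
    Finset.univ.sup' Finset.univ_nonempty fun v : InfinitePlace F =>
      en ((U v).mulVec (SEL.em v fun i => (x i : F))) with hf
  have hfle : ∀ x v, en ((U v).mulVec (SEL.em v fun i => (x i : F))) ≤ f x := fun x v =>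
    Finset.le_sup' (fun v : InfinitePlace F =>
      en ((U v).mulVec (SEL.em v fun i => (x i : F)))) (Finset.mem_univ v)
  have hfex : ∀ x, ∃ v, f x = en ((U v).mulVec (SEL.em v fun i => (x i : F))) := fun x => by
    obtain ⟨v, _, hv⟩ := Finset.exists_mem_eq_sup' Finset.univ_nonempty
      (fun v : InfinitePlace F => en ((U v).mulVec (SEL.em v fun i => (x i : F))))
    exact ⟨v, hv⟩
  set S : Set (Fin 3 → 𝓞 F) :=
    {x | ∀ v, en ((U v).mulVec (SEL.em v fun i => (x i : F))) ≤ 2 * C} \ {0} with hS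
  have hSfin : S.Finite := (short_finite U (fun v => (hU v).1) (2 * C)).subset
    Set.sdiff_subset
  have hSne : S.Nonempty := ⟨x0, hx0C, hx0⟩
  obtain ⟨x1, hx1, hmin⟩ := Set.exists_min_image S f hSfin hSne
  refine ⟨x1, f x1, hx1.2, ?_, ?_, hfle x1, ?_⟩
  · obtain ⟨v, hv⟩ := hfex x1
    rw [hv]
    exact en_pos (mulVec_ne (hU v).1 (em_ne v (coe_ne hx1.2)))
  · obtain ⟨v, hv⟩ := hfex x1
    rw [hv]
    exact hx1.1 v
  · intro y hy
    by_cases hyS : ∀ v, en ((U v).mulVec (SEL.em v fun i => (y i : F))) ≤ 2 * C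
    · obtain ⟨v, hv⟩ := hfex y
      exact ⟨v, by rw [← hv]; exact hmin y ⟨hyS, hy⟩⟩
    · push Not at hyS
      obtain ⟨v, hv⟩ := hyS
      refine ⟨v, ?_⟩
      obtain ⟨w, hw⟩ := hfex x1
      rw [hw]
      exact (hx1.1 w).trans hv.le

end Pool.Agent.Lib.MP_8cb858_nt.SEL
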