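import Pool.Agent.Lib.MP_8cb858_nt.SEL.RE0

/-!
# RE2: a short vector (the cusp)
-/

namespace Pool.Agent.Lib.MP_8cb858_nt.SEL

namespace RE2M

open NumberField IsDedekindDomain FRMM RE0M
open scoped Classical Matrix

universe u

/-! ### The norm `en` -/

lemma en_eq (u : Fin 3 → ℂ) : en u = ‖(WithLp.toLp 2 u : EuclideanSpace ℂ (Fin 3))‖ := by
  rw [EuclideanSpace.norm_eq]; rfl

lemma en_add (u w : Fin 3 → ℂ) : en (u + w) ≤ en u + en w := by
  rw [en_eq, en_eq, en_eq, WithLp.toLp_add]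
  exact norm_add_le _ _

lemma en_smul (c : ℂ) (u : Fin 3 → ℂ) : en (c • u) = ‖c‖ * en u := by
  rw [en_eq, en_eq, WithLp.toLp_smul, norm_smul]

lemma en_sub (u w : Fin 3 → ℂ) : en (u - w) ≤ en u + en w := by
  have h := en_add u ((-1 : ℂ) • w)
  rw [en_smul] at h
  simpa [sub_eq_add_neg] using h

lemma en_le_sum {w : Fin 3 → ℂ} : en w ≤ ‖w 0‖ + ‖w 1‖ + ‖w 2‖ := by
  unfold en
  rw [Real.sqrt_le_left (by positivity), Fin.sum_univ_three]
  have h0 := norm_nonneg (w 0)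
  have h1 := norm_nonneg (w 1)
  have h2 := norm_nonneg (w 2)
  nlinarith [mul_nonneg h0 h1, mul_nonneg h0 h2, mul_nonneg h1 h2]

/-! ### Bilinear forms -/

section

variable {R : Type*} [CommRing R]

lemma bf_symm {A : Matrix (Fin 3) (Fin 3) R} (hA : A.IsSymm) (x y : Fin 3 → R) :
    x ⬝ᵥ A.mulVec y = y ⬝ᵥ A.mulVec x := by
  rw [Matrix.dotProduct_mulVec, ← Matrix.mulVec_transpose, hA.eq, dotProduct_comm]

lemma gram (A : Matrix (Fin 3) (Fin 3) R) (X : Matrix (Fin 3) (Fin 3) R) (j k : Fin 3) :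
    (X.transpose * A * X) j k = (fun i => X i j) ⬝ᵥ A.mulVec (fun i => X i k) := by
  rw [Matrix.mul_assoc, Matrix.mul_apply]
  simp only [Matrix.transpose_apply, dotProduct, Matrix.mulVec, Matrix.mul_apply]

/-- No isotropic plane. -/
lemma iso_plane [IsDomain R] {A : Matrix (Fin 3) (Fin 3) R} (hA : A.IsSymm) (hd : A.det ≠ 0)
    {x y : Fin 3 → R} (h1 : x ⬝ᵥ A.mulVec x = 0) (h2 : x ⬝ᵥ A.mulVec y = 0)
    (h3 : y ⬝ᵥ A.mulVec y = 0) : crossProduct x y = 0 := by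
  have h2' : y ⬝ᵥ A.mulVec x = 0 := by rw [bf_symm hA]; exact h2
  have key : ∀ z : Fin 3 → R, z ⬝ᵥ crossProduct x y = 0 := by
    intro z
    set X : Matrix (Fin 3) (Fin 3) R := Matrix.of fun i j => ![x, y, z] j i with hX
    have hXd : X.det = z ⬝ᵥ crossProduct x y := by
      rw [hX, Matrix.det_fin_three]
      simp [dotProduct, Fin.sum_univ_three, cross_apply]
      ring
    have hg : (X.transpose * A * X).det = 0 := by
      rw [Matrix.det_fin_three]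
      have e00 : (X.transpose * A * X) 0 0 = 0 := by rw [gram]; simpa [hX] using h1
      have e01 : (X.transpose * A * X) 0 1 = 0 := by rw [gram]; simpa [hX] using h2
      have e10 : (X.transpose * A * X) 1 0 = 0 := by rw [gram]; simpa [hX] using h2'
      have e11 : (X.transpose * A * X) 1 1 = 0 := by rw [gram]; simpa [hX] using h3
      rw [e00, e01, e10, e11]
      ring
    rw [Matrix.det_mul, Matrix.det_mul, Matrix.det_transpose] at hg
    rw [← hXd]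
    rcases mul_eq_zero.1 hg with h | h
    · rcases mul_eq_zero.1 h with h | h
      · exact h
      · exact absurd h hd
    · exact h
  funext i
  have := key (Pi.single i 1)
  simpa using this

/-- The third vector. -/
def thd (A : Matrix (Fin 3) (Fin 3) R) (x1 x2 x3 : Fin 3 → R) : Fin 3 → R :=
  (2 * (x2 ⬝ᵥ A.mulVec x2) * (x1 ⬝ᵥ A.mulVec x3)) • x3 -
    (2 * (x1 ⬝ᵥ A.mulVec x3) * (x2 ⬝ᵥ A.mulVec x3)) • x2 -
    ((x3 ⬝ᵥ A.mulVec x3) * (x2 ⬝ᵥ A.mulVec x2) - (x2 ⬝ᵥ A.mulVec x3) ^ 2) • x1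

lemma thd_spec {A : Matrix (Fin 3) (Fin 3) R} (hA : A.IsSymm) {x1 x2 x3 : Fin 3 → R}
    (h11 : x1 ⬝ᵥ A.mulVec x1 = 0) (h12 : x1 ⬝ᵥ A.mulVec x2 = 0) :
    x1 ⬝ᵥ A.mulVec (thd A x1 x2 x3) =
      2 * (x2 ⬝ᵥ A.mulVec x2) * (x1 ⬝ᵥ A.mulVec x3) ^ 2 ∧
    x2 ⬝ᵥ A.mulVec (thd A x1 x2 x3) = 0 ∧
    (thd A x1 x2 x3) ⬝ᵥ A.mulVec (thd A x1 x2 x3) = 0 := by
  have h21 : x2 ⬝ᵥ A.mulVec x1 = 0 := by rw [bf_symm hA]; exact h12
  have h31 : x3 ⬝ᵥ A.mulVec x1 = x1 ⬝ᵥ A.mulVec x3 := bf_symm hA _ _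
  have h32 : x3 ⬝ᵥ A.mulVec x2 = x2 ⬝ᵥ A.mulVec x3 := bf_symm hA _ _
  have g0 : ∀ z : Fin 3 → R, z ⬝ᵥ A.mulVec (thd A x1 x2 x3) =
      (2 * (x2 ⬝ᵥ A.mulVec x2) * (x1 ⬝ᵥ A.mulVec x3)) * (z ⬝ᵥ A.mulVec x3) -
      (2 * (x1 ⬝ᵥ A.mulVec x3) * (x2 ⬝ᵥ A.mulVec x3)) * (z ⬝ᵥ A.mulVec x2) -
      ((x3 ⬝ᵥ A.mulVec x3) * (x2 ⬝ᵥ A.mulVec x2) - (x2 ⬝ᵥ A.mulVec x3) ^ 2) *
        (z ⬝ᵥ A.mulVec x1) := by
    intro z
    unfold thd
    simp only [Matrix.mulVec_sub, Matrix.mulVec_smul, dotProduct_sub, dotProduct_smul,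
      smul_eq_mul]
  have g1 : x1 ⬝ᵥ A.mulVec (thd A x1 x2 x3) =
      2 * (x2 ⬝ᵥ A.mulVec x2) * (x1 ⬝ᵥ A.mulVec x3) ^ 2 := by
    rw [g0, h12, h11]; ring
  have g2 : x2 ⬝ᵥ A.mulVec (thd A x1 x2 x3) = 0 := by
    rw [g0, h21]; ring
  refine ⟨g1, g2, ?_⟩
  have k1 := (bf_symm hA (thd A x1 x2 x3) x1).trans g1
  have k2 := (bf_symm hA (thd A x1 x2 x3) x2).trans g2
  have k3 := (bf_symm hA (thd A x1 x2 x3) x3).trans (g0 x3)
  rw [h31, h32] at k3
  rw [g0, k1, k2, k3]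
  ring

lemma det_gram [IsDomain R] [CharZero R] {A X : Matrix (Fin 3) (Fin 3) R} {e d : R}
    (he : e ≠ 0) (hd : d ≠ 0)
    (e00 : (X.transpose * A * X) 0 0 = 0)
    (e01 : (X.transpose * A * X) 0 1 = 0)
    (e02 : (X.transpose * A * X) 0 2 = 2 * e * d ^ 2)
    (e10 : (X.transpose * A * X) 1 0 = 0)
    (e11 : (X.transpose * A * X) 1 1 = e)
    (e12 : (X.transpose * A * X) 1 2 = 0)
    (e20 : (X.transpose * A * X) 2 0 = 2 * e * d ^ 2)
    (e21 : (X.transpose * A * X) 2 1 = 0)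
    (e22 : (X.transpose * A * X) 2 2 = 0) : X.det ≠ 0 := by
  intro hX0
  have hg : (X.transpose * A * X).det = 0 := by
    rw [Matrix.det_mul, Matrix.det_mul, hX0, mul_zero]
  rw [Matrix.det_fin_three, e00, e01, e02, e10, e11, e12, e20, e21, e22] at hg
  have h4 : e * (2 * e * d ^ 2) ^ 2 = 0 := by linear_combination -hg
  rcases mul_eq_zero.1 h4 with h5 | h5
  · exact he h5
  · have h6 := (pow_eq_zero_iff (two_ne_zero)).1 h5
    rcases mul_eq_zero.1 h6 with h7 | h7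
    · rcases mul_eq_zero.1 h7 with h8 | h8
      · exact two_ne_zero h8
      · exact he h8
    · exact hd ((pow_eq_zero_iff (two_ne_zero)).1 h7)

end

/-! ### The frame at a place -/

lemma im_mul {z w : ℂ} (hz : z.im = 0) (hw : w.im = 0) : (z * w).im = 0 := by
  simp [Complex.mul_im, hz, hw]

lemma im_sum {ι : Type*} (s : Finset ι) {f : ι → ℂ} (h : ∀ i ∈ s, (f i).im = 0) :
    (∑ i ∈ s, f i).im = 0 := by
  rw [Complex.im_sum]
  exact Finset.sum_eq_zero h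

lemma im_mulVec {M : Matrix (Fin 3) (Fin 3) ℂ} {w : Fin 3 → ℂ} (hM : ∀ i j, (M i j).im = 0)
    (hw : ∀ i, (w i).im = 0) (i : Fin 3) : (M.mulVec w i).im = 0 :=
  im_sum _ fun j _ => im_mul (hM i j) (hw j)

lemma im_vecMul {M : Matrix (Fin 3) (Fin 3) ℂ} {w : Fin 3 → ℂ} (hM : ∀ i j, (M i j).im = 0)
    (hw : ∀ i, (w i).im = 0) (i : Fin 3) : (Matrix.vecMul w M i).im = 0 :=
  im_sum _ fun j _ => im_mul (hw j) (hM j i)

lemma im_matMul {M N : Matrix (Fin 3) (Fin 3) ℂ} (hM : ∀ i j, (M i j).im = 0)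
    (hN : ∀ i j, (N i j).im = 0) (i j : Fin 3) : ((M * N) i j).im = 0 := by
  rw [Matrix.mul_apply]
  exact im_sum _ fun k _ => im_mul (hM i k) (hN k j)

lemma im_inv {M : Matrix (Fin 3) (Fin 3) ℂ} (hM : ∀ i j, (M i j).im = 0) (i j : Fin 3) :
    (M⁻¹ i j).im = 0 := by
  have h1 : Mᴴ = Mᵀ := by
    ext i j
    rw [Matrix.conjTranspose_apply, Matrix.transpose_apply]
    exact Complex.conj_eq_iff_im.2 (hM j i)
  have h2 : (M⁻¹)ᴴ = (M⁻¹)ᵀ := by
    rw [Matrix.conjTranspose_nonsing_inv, h1, Matrix.transpose_nonsing_inv]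
  have h3 := congrFun (congrFun h2 j) i
  rw [Matrix.conjTranspose_apply, Matrix.transpose_apply] at h3
  exact Complex.conj_eq_iff_im.1 h3

lemma frame (hFRM : SpecFRM) (A U : Matrix (Fin 3) (Fin 3) ℂ) (a : Fin 3 → ℂ) (m : ℝ)
    (hU : ‖U.det‖ = 1) (hA : A.det ≠ 0) (ha : a ≠ 0) (haa : a ⬝ᵥ A.mulVec a = 0)
    (hm : en (U.mulVec a) ≤ m)
    (hb : ∀ x y, ‖x ⬝ᵥ A.mulVec y‖ ≤ en (U.mulVec x) * en (U.mulVec y)) :
    ∃ Q : Matrix (Fin 3) (Fin 3) ℂ, ‖Q.det‖ = 1 ∧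
      (∀ w, en (Q.mulVec w) = en (U.mulVec w)) ∧ (Q.mulVec a) 1 = 0 ∧ (Q.mulVec a) 2 = 0 ∧
      (∀ w, ‖a ⬝ᵥ A.mulVec w‖ ≤ m * ‖(Q.mulVec w) 2‖) ∧
      (∀ w, a ⬝ᵥ A.mulVec w = 0 → (Q.mulVec w) 2 = 0) ∧
      ((∀ i, (a i).im = 0) → (∀ i j, (A i j).im = 0) → (∀ i j, (U i j).im = 0) →
        ∀ i j, (Q i j).im = 0) := by
  have hUd : IsUnit U.det := by
    rw [isUnit_iff_ne_zero]
    intro h
    rw [h] at hU
    simp at hU
  set n0 : Fin 3 → ℂ := Matrix.vecMul (Matrix.vecMul a A) U⁻¹ with hn0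
  have hfun : ∀ w, n0 ⬝ᵥ U.mulVec w = a ⬝ᵥ A.mulVec w := by
    intro w
    rw [hn0, ← Matrix.dotProduct_mulVec, Matrix.mulVec_mulVec, Matrix.nonsing_inv_mul _ hUd,
      Matrix.one_mulVec, ← Matrix.dotProduct_mulVec]
  have hn0' : n0 ≠ 0 := by
    intro h0
    have h1 : ∀ w, a ⬝ᵥ A.mulVec w = 0 := fun w => by rw [← hfun w, h0, zero_dotProduct]
    apply ha
    have h2 : Matrix.vecMul a A = 0 := by
      funext i
      have := h1 (Pi.single i 1)
      rw [Matrix.dotProduct_mulVec] at this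
      simpa using this
    exact Matrix.eq_zero_of_vecMul_eq_zero hA h2
  set n : Fin 3 → ℂ := star n0 with hn
  have hnn : n ≠ 0 := by
    intro h
    apply hn0'
    have := congrArg star h
    simpa [hn] using this
  have hu : U.mulVec a ≠ 0 := mulVec_ne hU ha
  have hun : star (U.mulVec a) ⬝ᵥ n = 0 := by
    have h1 : n0 ⬝ᵥ U.mulVec a = 0 := by rw [hfun, haa]
    rw [hn, Matrix.star_dotProduct_star, h1, star_zero]
  obtain ⟨Q, hd, hen, hin, h1, h2, h3, h4, hr⟩ := hFRM.1 (U.mulVec a) n hu hnn hun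
  have hkey : ∀ w, a ⬝ᵥ A.mulVec w = star ((Q.mulVec n) 2) * ((Q * U).mulVec w) 2 := by
    intro w
    have h5 := hin n (U.mulVec w)
    rw [hn, star_star, hfun w] at h5
    rw [← h5, ← hn, Matrix.mulVec_mulVec]
    simp only [dotProduct, Fin.sum_univ_three, Pi.star_apply, h3, h4, star_zero, zero_mul,
      zero_add]
  have henn : ‖(Q.mulVec n) 2‖ = en n := by
    rw [← hen n]
    unfold en
    rw [Fin.sum_univ_three, h3, h4]
    simp
  have hnm : en n ≤ m := by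
    have h5 : star n ⬝ᵥ n = a ⬝ᵥ A.mulVec (U⁻¹.mulVec n) := by
      rw [← hfun, Matrix.mulVec_mulVec, Matrix.mul_nonsing_inv _ hUd, Matrix.one_mulVec, hn,
        star_star]
    have h6 := hb a (U⁻¹.mulVec n)
    rw [← h5, star_dot_self, Matrix.mulVec_mulVec, Matrix.mul_nonsing_inv _ hUd,
      Matrix.one_mulVec, Complex.norm_real, Real.norm_of_nonneg (by positivity)] at h6
    have h7 := en_pos hnn
    have h8 : en n ≤ en (U.mulVec a) := by
      by_contra h9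
      push Not at h9
      nlinarith
    exact h8.trans hm
  refine ⟨Q * U, ?_, ?_, ?_, ?_, ?_, ?_, ?_⟩
  · rw [Matrix.det_mul, norm_mul, hd, hU, one_mul]
  · intro w
    rw [← Matrix.mulVec_mulVec, hen]
  · rw [← Matrix.mulVec_mulVec]; exact h1
  · rw [← Matrix.mulVec_mulVec]; exact h2
  · intro w
    rw [hkey w, norm_mul, norm_star, henn]
    exact mul_le_mul_of_nonneg_right hnm (norm_nonneg _)
  · intro w hw
    rw [hkey w] at hw
    rcases mul_eq_zero.1 hw with h | h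
    · exfalso
      have h5 : (Q.mulVec n) 2 = 0 := by simpa using h
      rw [h5, norm_zero] at henn
      exact (en_pos hnn).ne henn
    · exact h
  · intro hai hAi hUi
    refine im_matMul (hr (im_mulVec hUi hai) fun i => ?_) hUi
    have h5 : (n0 i).im = 0 := im_vecMul (im_inv hUi) (im_vecMul hAi hai) i
    rw [hn]
    simp [h5]

/-! ### Number field part -/

section

variable {F : Type u} [Field F] [NumberField F]

/-- The norm of an integral vector at a place. -/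
noncomputable def nm (U : InfinitePlace F → Matrix (Fin 3) (Fin 3) ℂ) (v : InfinitePlace F)
    (y : Fin 3 → 𝓞 F) : ℝ :=
  en ((U v).mulVec (SEL.em v fun i => (y i : F)))

lemma zero_of_small {z : 𝓞 F} (h : ∀ v : InfinitePlace F, v (z : F) < 1) : z = 0 := by
  by_contra hz
  have h1 := CNUM.norm_ge_one hz
  have h2 : ∏ v : InfinitePlace F, v (z : F) ^ v.mult < ∏ v : InfinitePlace F, (1 : ℝ) := by
    refine Finset.prod_lt_prod_of_nonempty (fun v _ => ?_) (fun v _ => ?_)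
      Finset.univ_nonempty
    · refine pow_pos ?_ _
      rw [InfinitePlace.pos_iff]
      simpa using hz
    · exact pow_lt_one₀ (apply_nonneg _ _) (h v) InfinitePlace.mult_ne_zero
  rw [Finset.prod_const_one] at h2
  linarith

omit [NumberField F] in
lemma emb_bf (v : InfinitePlace F) (A : Matrix (Fin 3) (Fin 3) (𝓞 F)) (x y : Fin 3 → 𝓞 F) :
    v.embedding ((x ⬝ᵥ A.mulVec y : 𝓞 F) : F) =
      (SEL.em v fun i => (x i : F)) ⬝ᵥ
        ((inc A).map v.embedding).mulVec (SEL.em v fun i => (y i : F)) := by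
  simp [dotProduct, Matrix.mulVec, SEL.em, inc, Fin.sum_univ_three]

variable {A : Matrix (Fin 3) (Fin 3) (𝓞 F)} {B : Matrix (Fin 3) (Fin 3) F}
  {ρ : InfinitePlace F → ℝ} {U : InfinitePlace F → Matrix (Fin 3) (Fin 3) ℂ}

omit [NumberField F] in
lemma bf_bound (hM : Maj (inc A) B ρ U) (v : InfinitePlace F) (x y : Fin 3 → 𝓞 F) :
    v ((x ⬝ᵥ A.mulVec y : 𝓞 F) : F) ≤ nm U v x * nm U v y := by
  rw [← InfinitePlace.norm_embedding_eq, emb_bf]
  exact (hM v).2.2.1 _ _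

omit [NumberField F] in
lemma nm_add (v : InfinitePlace F) (x y : Fin 3 → 𝓞 F) : nm U v (x + y) ≤ nm U v x + nm U v y := by
  have : (SEL.em v fun i => ((x + y) i : F)) =
      (SEL.em v fun i => (x i : F)) + (SEL.em v fun i => (y i : F)) := by
    funext i; simp [SEL.em]
  unfold nm
  rw [this, Matrix.mulVec_add]
  exact en_add _ _

omit [NumberField F] in
lemma nm_smul (v : InfinitePlace F) (c : 𝓞 F) (x : Fin 3 → 𝓞 F) :
    nm U v (c • x) = v (c : F) * nm U v x := by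
  have : (SEL.em v fun i => ((c • x) i : F)) =
      v.embedding (c : F) • (SEL.em v fun i => (x i : F)) := by
    funext i; simp [SEL.em]
  unfold nm
  rw [this, Matrix.mulVec_smul, en_smul, InfinitePlace.norm_embedding_eq]

omit [NumberField F] in
lemma nm_nonneg (v : InfinitePlace F) (x : Fin 3 → 𝓞 F) : 0 ≤ nm U v x := en_nonneg _

omit [NumberField F] in
/-- Dependent vectors have the same zero coordinates. -/
lemma dep_coord (v : InfinitePlace F) {x y : Fin 3 → 𝓞 F} (hx : x ≠ 0)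
    (h : crossProduct x y = 0) (Q : Matrix (Fin 3) (Fin 3) ℂ) (k : Fin 3)
    (hk : (Q.mulVec (SEL.em v fun i => (x i : F))) k = 0) :
    (Q.mulVec (SEL.em v fun i => (y i : F))) k = 0 := by
  have hx' := em_ne v (coe_ne hx)
  have h1 : ¬ LinearIndependent ℂ ![SEL.em v fun i => (x i : F), SEL.em v fun i => (y i : F)] := by
    rw [← crossProduct_ne_zero_iff_linearIndependent, not_not]
    have h0 := congrFun h 0
    have h1 := congrFun h 1
    have h2 := congrFun h 2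
    simp only [cross_apply, Matrix.cons_val_zero, Pi.zero_apply] at h0 h1 h2
    have g0 := congrArg (fun z : 𝓞 F => v.embedding (z : F)) h0
    have g1 := congrArg (fun z : 𝓞 F => v.embedding (z : F)) h1
    have g2 := congrArg (fun z : 𝓞 F => v.embedding (z : F)) h2
    simp at g0 g1 g2
    funext i
    fin_cases i
    · simpa [cross_apply, SEL.em] using g0
    · simpa [cross_apply, SEL.em] using g1
    · simpa [cross_apply, SEL.em] using g2
  rw [LinearIndependent.pair_iff' hx'] at h1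
  push Not at h1
  obtain ⟨c, hc⟩ := h1
  rw [← hc, Matrix.mulVec_smul, Pi.smul_apply, hk, smul_zero]

omit [NumberField F] in
lemma v_mul (v : InfinitePlace F) (a b : 𝓞 F) :
    v ((a * b : 𝓞 F) : F) = v (a : F) * v (b : F) := by
  have h : ((a * b : 𝓞 F) : F) = (a : F) * (b : F) := map_mul (algebraMap (𝓞 F) F) a b
  rw [h, map_mul]

omit [NumberField F] in
lemma nm_neg (v : InfinitePlace F) (x : Fin 3 → 𝓞 F) : nm U v (-x) = nm U v x := by
  have h1 := nm_smul (U := U) v (-1) x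
  rw [neg_one_smul] at h1
  have h2 : v (((-1 : 𝓞 F)) : F) = 1 := by
    rw [← InfinitePlace.norm_embedding_eq]
    simp
  rw [h1, h2, one_mul]

omit [NumberField F] in
lemma nm_sub (v : InfinitePlace F) (x y : Fin 3 → 𝓞 F) : nm U v (x - y) ≤ nm U v x + nm U v y := by
  rw [sub_eq_add_neg, ← nm_neg (U := U) v y]
  exact nm_add v _ _

omit [NumberField F] in
lemma thd_bound (hM : Maj (inc A) B ρ U) {K m : ℝ} (hK : 0 ≤ K) (hm0 : 0 < m)
    (v : InfinitePlace F) {x1 x2 x3 : Fin 3 → 𝓞 F} (b1 : nm U v x1 ≤ m) (b2 : nm U v x2 ≤ K)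
    (b3 : nm U v x3 ≤ K / m) : nm U v (thd A x1 x2 x3) ≤ 6 * K ^ 4 / m := by
  have n1 := nm_nonneg (U := U) v x1
  have n2 := nm_nonneg (U := U) v x2
  have n3 := nm_nonneg (U := U) v x3
  have hKm : 0 ≤ K / m := div_nonneg hK hm0.le
  have be := (bf_bound hM v x2 x2).trans (mul_le_mul b2 b2 n2 hK)
  have bd : v ((x1 ⬝ᵥ A.mulVec x3 : 𝓞 F) : F) ≤ K := by
    refine (bf_bound hM v x1 x3).trans ?_
    calc _ ≤ m * (K / m) := mul_le_mul b1 b3 n3 hm0.le
      _ = K := by field_simp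
  have bs := (bf_bound hM v x2 x3).trans (mul_le_mul b2 b3 n3 hK)
  have bw := (bf_bound hM v x3 x3).trans (mul_le_mul b3 b3 n3 hKm)
  have v2 : v (((2 : 𝓞 F)) : F) ≤ 2 := by
    have h2 : v.embedding (((2 : 𝓞 F)) : F) = 2 := by
      have h3 : (((2 : 𝓞 F)) : F) = 2 := map_ofNat (algebraMap (𝓞 F) F) 2
      rw [h3]
      exact map_ofNat v.embedding 2
    rw [← InfinitePlace.norm_embedding_eq, h2]
    norm_num
  unfold thd
  generalize x2 ⬝ᵥ A.mulVec x2 = e at *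
  generalize x1 ⬝ᵥ A.mulVec x3 = d at *
  generalize x2 ⬝ᵥ A.mulVec x3 = s at *
  generalize x3 ⬝ᵥ A.mulVec x3 = w at *
  have ve := apply_nonneg v (e : F)
  have vd := apply_nonneg v (d : F)
  have vs := apply_nonneg v (s : F)
  have vw := apply_nonneg v (w : F)
  have v20 := apply_nonneg v (((2 : 𝓞 F)) : F)
  have t1 : nm U v ((2 * e * d) • x3) ≤ 2 * (K * K) * K * (K / m) := by
    rw [nm_smul]
    rw [v_mul, v_mul]
    exact mul_le_mul (mul_le_mul (mul_le_mul v2 be ve (by norm_num)) bd vd (by positivity)) b3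
      n3 (by positivity)
  have t2 : nm U v ((2 * d * s) • x2) ≤ 2 * K * (K * (K / m)) * K := by
    rw [nm_smul]
    rw [v_mul, v_mul]
    exact mul_le_mul (mul_le_mul (mul_le_mul v2 bd vd (by norm_num)) bs vs (by positivity)) b2
      n2 (by positivity)
  have t3 : nm U v ((w * e - s ^ 2) • x1) ≤
      (K / m * (K / m) * (K * K) + (K * (K / m)) ^ 2) * m := by
    rw [nm_smul]
    have h4 : v (((w * e - s ^ 2 : 𝓞 F)) : F) ≤ v (w : F) * v (e : F) + v (s : F) ^ 2 := by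
      push_cast
      rw [← InfinitePlace.norm_embedding_eq, map_sub, map_mul, map_pow]
      refine (norm_sub_le _ _).trans ?_
      rw [norm_mul, norm_pow, InfinitePlace.norm_embedding_eq, InfinitePlace.norm_embedding_eq,
        InfinitePlace.norm_embedding_eq]
    have h5 : v (w : F) * v (e : F) + v (s : F) ^ 2 ≤
        K / m * (K / m) * (K * K) + (K * (K / m)) ^ 2 :=
      add_le_add (mul_le_mul bw be ve (by positivity)) (pow_le_pow_left₀ vs bs 2)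
    exact mul_le_mul (h4.trans h5) b1 n1 (by positivity)
  calc _ ≤ nm U v ((2 * e * d) • x3 - (2 * d * s) • x2) + nm U v ((w * e - s ^ 2) • x1) :=
        nm_sub v _ _
    _ ≤ nm U v ((2 * e * d) • x3) + nm U v ((2 * d * s) • x2) +
        nm U v ((w * e - s ^ 2) • x1) := by
        have := nm_sub (U := U) v ((2 * e * d) • x3) ((2 * d * s) • x2)
        linarith
    _ ≤ _ := add_le_add (add_le_add t1 t2) t3
    _ = 6 * K ^ 4 / m := by field_simp; ring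

/-- The coordinates in the frame. -/
noncomputable def co (Q : InfinitePlace F → Matrix (Fin 3) (Fin 3) ℂ) (v : InfinitePlace F)
    (y : Fin 3 → 𝓞 F) : Fin 3 → ℂ :=
  (Q v).mulVec (SEL.em v fun i => (y i : F))

lemma frames (hFRM : SpecFRM) (hd : A.det ≠ 0) (hM : Maj (inc A) B ρ U) {x1 : Fin 3 → 𝓞 F}
    {m : ℝ} (hx1 : x1 ≠ 0) (hx1m : ∀ v, nm U v x1 ≤ m) (h11 : x1 ⬝ᵥ A.mulVec x1 = 0) :
    ∃ Q : InfinitePlace F → Matrix (Fin 3) (Fin 3) ℂ,
      (∀ v, ‖(Q v).det‖ = 1 ∧ (v.IsReal → ∀ i j, (Q v i j).im = 0)) ∧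
      (∀ v y, nm U v y = en (co Q v y)) ∧
      (∀ v, co Q v x1 1 = 0 ∧ co Q v x1 2 = 0) ∧
      (∀ v y, v ((x1 ⬝ᵥ A.mulVec y : 𝓞 F) : F) ≤ m * ‖co Q v y 2‖) ∧
      (∀ v y, x1 ⬝ᵥ A.mulVec y = 0 → co Q v y 2 = 0) := by
  have hAv : ∀ v : InfinitePlace F, ((inc A).map v.embedding).det ≠ 0 := by
    intro v
    have h1 : ((inc A).map v.embedding).det = v.embedding ((A.det : 𝓞 F) : F) := by
      rw [inc, ← RingHom.mapMatrix_apply, ← RingHom.mapMatrix_apply, ← RingHom.map_det,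
        ← RingHom.map_det]
    rw [h1]
    simpa using hd
  have h0 : ∀ v : InfinitePlace F, (SEL.em v fun i => (x1 i : F)) ⬝ᵥ
      ((inc A).map v.embedding).mulVec (SEL.em v fun i => (x1 i : F)) = 0 := by
    intro v
    rw [← emb_bf, h11]
    simp
  have hfr := fun v : InfinitePlace F => frame hFRM ((inc A).map v.embedding) (U v)
    (SEL.em v fun i => (x1 i : F)) m (hM v).1 (hAv v) (em_ne v (coe_ne hx1))
    (h0 v) (hx1m v) (hM v).2.2.1
  choose Q hQd hQen hQ1 hQ2 hQb hQz hQr using hfr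
  refine ⟨Q, ?_, ?_, ?_, ?_, ?_⟩
  · intro v
    refine ⟨hQd v, fun hv => hQr v (fun i => CNUM.im_eq_zero hv _)
      (fun i j => CNUM.im_eq_zero hv _) ((hM v).2.1 hv)⟩
  · intro v y
    exact (hQen v _).symm
  · intro v
    exact ⟨hQ1 v, hQ2 v⟩
  · intro v y
    rw [← InfinitePlace.norm_embedding_eq, emb_bf]
    exact hQb v _
  · intro v y hy
    apply hQz v
    rw [← emb_bf, hy]
    simp

lemma dep_false {x1 : Fin 3 → 𝓞 F} {m : ℝ} (hm0 : 0 < m) (hx1 : x1 ≠ 0)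
    (hmin : ∀ y : Fin 3 → 𝓞 F, y ≠ 0 → ∃ v, m ≤ nm U v y)
    {Q : InfinitePlace F → Matrix (Fin 3) (Fin 3) ℂ}
    (hnm : ∀ v y, nm U v y = en (co Q v y))
    (hQ : ∀ v, co Q v x1 1 = 0 ∧ co Q v x1 2 = 0) {y : Fin 3 → 𝓞 F} (hy : y ≠ 0)
    (h0 : crossProduct x1 y = 0) (h : ∀ v, ‖co Q v y 0‖ ≤ m / 2) : False := by
  obtain ⟨v, hv⟩ := hmin y hy
  have h1 : co Q v y 1 = 0 := dep_coord v hx1 h0 (Q v) 1 (hQ v).1
  have h2 : co Q v y 2 = 0 := dep_coord v hx1 h0 (Q v) 2 (hQ v).2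
  have h3 : nm U v y ≤ m / 2 := by
    rw [hnm v y]
    refine en_le_sum.trans ?_
    rw [h1, h2, norm_zero, add_zero, add_zero]
    exact h v
  linarith

/-- Minkowski with three constant radii. -/
lemma mink {C : ℝ} (hC1 : 1 ≤ C)
    (hC : ∀ (U : InfinitePlace F → Matrix (Fin 3) (Fin 3) ℂ) (r : InfinitePlace F → Fin 3 → ℝ),
      (∀ v, ‖(U v).det‖ = 1 ∧ (v.IsReal → ∀ i j, (U v i j).im = 0)) →
      (∀ v k, 0 < r v k) → C ≤ ∏ v, (r v 0 * r v 1 * r v 2) ^ v.mult →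
      ∃ x : Fin 3 → 𝓞 F, x ≠ 0 ∧
        ∀ v k, ‖((U v).mulVec (SEL.em v fun i => (x i : F))) k‖ ≤ r v k)
    {Q : InfinitePlace F → Matrix (Fin 3) (Fin 3) ℂ}
    (hQ : ∀ v, ‖(Q v).det‖ = 1 ∧ (v.IsReal → ∀ i j, (Q v i j).im = 0))
    {r0 r1 r2 : ℝ} (h0 : 0 < r0) (h1 : 0 < r1) (h2 : 0 < r2) (h : r0 * r1 * r2 = C) :
    ∃ x : Fin 3 → 𝓞 F, x ≠ 0 ∧ ∀ v, ‖co Q v x 0‖ ≤ r0 ∧ ‖co Q v x 1‖ ≤ r1 ∧
      ‖co Q v x 2‖ ≤ r2 := by
  obtain ⟨x, hx, hx'⟩ := hC Q (fun _ => ![r0, r1, r2]) hQ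
    (by
      intro v k
      fin_cases k
      · exact h0
      · exact h1
      · exact h2)
    (by
      have : ∀ v : InfinitePlace F, ((![r0, r1, r2] : Fin 3 → ℝ) 0 *
          (![r0, r1, r2] : Fin 3 → ℝ) 1 * (![r0, r1, r2] : Fin 3 → ℝ) 2) ^ v.mult =
          C ^ v.mult := by
        intro v
        rw [← h]
        rfl
      rw [Finset.prod_congr rfl fun v _ => this v]
      exact prod_pow_ge hC1)
  exact ⟨x, hx, fun v => ⟨hx' v 0, hx' v 1, hx' v 2⟩⟩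

end

end RE2M

open NumberField IsDedekindDomain FRMM RE0M RE2M in
open scoped Classical in
theorem specRE2.{u} (hMNK : SpecMNK.{u}) (hFRM : SpecFRM) : SpecRE2.{u} := by
  intro F _ _
  obtain ⟨C, hC1, hC⟩ := hMNK F
  have hK1 : (1 : ℝ) ≤ (4 * C + 1) ^ 3 := one_le_pow₀ (by linarith)
  have hKC : 4 * C + 1 ≤ 6 * (4 * C + 1) ^ 4 := by nlinarith
  refine ⟨6 * (4 * C + 1) ^ 4, by linarith, ?_⟩
  intro A B ρ U x1 m hAs hAd hM hx1 hm0 hm1 hx1m hmin
  have hx1m' : ∀ v, nm U v x1 ≤ m := hx1m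
  have hmin' : ∀ y : Fin 3 → 𝓞 F, y ≠ 0 → ∃ v, m ≤ nm U v y := hmin
  have hA0 : A.det ≠ 0 := by rw [hAd]; simp
  have h11 : x1 ⬝ᵥ A.mulVec x1 = 0 := by
    apply zero_of_small
    intro v
    calc _ ≤ nm U v x1 * nm U v x1 := bf_bound hM v x1 x1
      _ ≤ m * m := mul_le_mul (hx1m' v) (hx1m' v) (nm_nonneg v _) hm0.le
      _ < 1 := by nlinarith
  obtain ⟨Q, hQU, hnm, hQ12, hbf, hbz⟩ := frames hFRM hA0 hM hx1 hx1m' h11
  -- the second vector
  obtain ⟨x2, hx20, hx2⟩ := mink hC1 hC hQU (r0 := m / 2) (r1 := 4 * C) (r2 := 1 / (2 * m))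
    (by positivity) (by positivity) (by positivity) (by field_simp; norm_num)
  have h12 : x1 ⬝ᵥ A.mulVec x2 = 0 := by
    apply zero_of_small
    intro v
    calc _ ≤ m * ‖co Q v x2 2‖ := hbf v x2
      _ ≤ m * (1 / (2 * m)) := mul_le_mul_of_nonneg_left (hx2 v).2.2 hm0.le
      _ = 1 / 2 := by field_simp
      _ < 1 := by norm_num
  have hn2 : ∀ v, nm U v x2 ≤ 4 * C + 1 := by
    intro v
    rw [hnm]
    refine en_le_sum.trans ?_
    rw [hbz v x2 h12, norm_zero]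
    linarith [(hx2 v).1, (hx2 v).2.1]
  have he : x2 ⬝ᵥ A.mulVec x2 ≠ 0 := fun h22 =>
    dep_false hm0 hx1 hmin' hnm hQ12 hx20 (iso_plane hAs hA0 h11 h12 h22) (fun v => (hx2 v).1)
  -- the third vector
  obtain ⟨x3, hx30, hx3⟩ := mink hC1 hC hQU (r0 := m / 2) (r1 := 1 / 2) (r2 := 4 * C / m)
    (by positivity) (by positivity) (by positivity) (by field_simp; norm_num)
  have hd0 : x1 ⬝ᵥ A.mulVec x3 ≠ 0 := by
    intro h13
    have hn3 : ∀ v, nm U v x3 < 1 := by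
      intro v
      rw [hnm]
      refine lt_of_le_of_lt en_le_sum ?_
      rw [hbz v x3 h13, norm_zero]
      linarith [(hx3 v).1, (hx3 v).2.1]
    have h33 : x3 ⬝ᵥ A.mulVec x3 = 0 := by
      apply zero_of_small
      intro v
      calc _ ≤ nm U v x3 * nm U v x3 := bf_bound hM v x3 x3
        _ < 1 := by
          have h1 := hn3 v
          have h2 := nm_nonneg (U := U) v x3
          nlinarith
    exact dep_false hm0 hx1 hmin' hnm hQ12 hx30 (iso_plane hAs hA0 h11 h13 h33)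
      (fun v => (hx3 v).1)
  have hn3 : ∀ v, nm U v x3 ≤ (4 * C + 1) / m := by
    intro v
    rw [hnm]
    refine en_le_sum.trans ?_
    have h1 : (1 : ℝ) ≤ 1 / m := by rw [le_div_iff₀ hm0]; linarith
    have h2 : (4 * C + 1) / m = 4 * C / m + 1 / m := by ring
    rw [h2]
    linarith [(hx3 v).1, (hx3 v).2.1, (hx3 v).2.2]
  obtain ⟨g1, g2, g3⟩ := thd_spec (x3 := x3) hAs h11 h12
  refine ⟨Matrix.of fun i j => ![x1, x2, thd A x1 x2 x3] j i, ?_, ?_, ?_, ?_, ?_, ?_⟩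
  · refine det_gram (A := A) he hd0 ?_ ?_ ?_ ?_ ?_ ?_ ?_ ?_ ?_
    · rw [gram]; exact h11
    · rw [gram]; exact h12
    · rw [gram]; exact g1
    · rw [gram]; exact (bf_symm hAs _ _).trans h12
    · rw [gram]; rfl
    · rw [gram]; exact g2
    · rw [gram]; exact (bf_symm hAs _ _).trans g1
    · rw [gram]; exact (bf_symm hAs _ _).trans g2
    · rw [gram]; exact g3
  · rw [gram]; exact h11
  · rw [gram]; exact h12
  · rw [gram]; exact g2
  · rw [gram]; exact g3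
  · intro v
    exact ⟨hx1m v, (hn2 v).trans hKC,
      thd_bound hM (by linarith) hm0 v (hx1m' v) (hn2 v) (hn3 v)⟩

end Pool.Agent.Lib.MP_8cb858_nt.SEL
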