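import Pool.Agent.Lib.MP_8cb858_nt.SEL.LO1

/-!
# TRV : a common zero of `A` and `B` over `F` makes the cocycle a coboundary
-/

namespace Pool.Agent.Lib.MP_8cb858_nt.SEL

open NumberField IsDedekindDomain
open scoped Classical

universe u

namespace TRVM

section

variable {K : Type u} [Field K] {a b : K} {th : Fin 3 → K}

lemma factor (h : IsRoots a b th) (x : K) :
    x ^ 3 + a * x + b = (x - th 0) * (x - th 1) * (x - th 2) := by
  have e1 := h.e1
  have e2 := h.e2
  have e3 := h.e3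
  have hb : b = -(th 0 * th 1 * th 2) := by rw [e3, neg_neg]
  rw [← e2, hb]
  linear_combination x ^ 2 * e1

lemma root (h : IsRoots a b th) (i : Fin 3) : th i ^ 3 + a * th i + b = 0 := by
  rw [factor h]
  fin_cases i <;> simp

lemma root_iff (h : IsRoots a b th) (x : K) (hx : x ^ 3 + a * x + b = 0) : ∃ k, x = th k := by
  rw [factor h] at hx
  rcases mul_eq_zero.1 hx with h1 | h1
  · rcases mul_eq_zero.1 h1 with h2 | h2
    · exact ⟨0, sub_eq_zero.1 h2⟩
    · exact ⟨1, sub_eq_zero.1 h2⟩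
  · exact ⟨2, sub_eq_zero.1 h1⟩

end

/-- An automorphism permutes the roots. -/
lemma perm {F : Type u} [Field F] {a b : F} {th : Fin 3 → AlgebraicClosure F}
    (h : IsRoots (algebraMap F _ a) (algebraMap F _ b) th) (s : Gal F) :
    ∃ σ : Equiv.Perm (Fin 3), ∀ i, s (th i) = th (σ i) := by
  have h1 : ∀ i, ∃ k, s (th i) = th k := by
    intro i
    apply root_iff h
    have h2 := congrArg s (root h i)
    simpa only [map_add, map_mul, map_pow, AlgEquiv.commutes, map_zero] using h2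
  choose k hk using h1
  have hinj : Function.Injective k := by
    intro i j hij
    have h3 : s (th i) = s (th j) := by rw [hk, hk, hij]
    exact h.inj (s.injective h3)
  exact ⟨Equiv.ofBijective k (Finite.injective_iff_bijective.1 hinj), fun i => hk i⟩

lemma two_eq {K : Type u} [Field K] {t0 t1 t2 w0 w1 w2 f0 f1 f2 : K}
    (g0 : f0 = (t0 - t1) * (t0 - t2)) (g1 : f1 = (t1 - t2) * (t1 - t0))
    (g2 : f2 = (t2 - t0) * (t2 - t1)) (n0 : f0 ≠ 0) (n1 : f1 ≠ 0) (n2 : f2 ≠ 0)
    (e1 : w0 / f0 + w1 / f1 + w2 / f2 = 0)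
    (e2 : t0 * w0 / f0 + t1 * w1 / f1 + t2 * w2 / f2 = 0) : w1 = w0 ∧ w2 = w0 := by
  have k0 : w0 = w0 / f0 * f0 := (div_mul_cancel₀ _ n0).symm
  have k1 : w1 = w1 / f1 * f1 := (div_mul_cancel₀ _ n1).symm
  have k2 : w2 = w2 / f2 * f2 := (div_mul_cancel₀ _ n2).symm
  rw [mul_div_assoc, mul_div_assoc, mul_div_assoc] at e2
  generalize w0 / f0 = u0 at *
  generalize w1 / f1 = u1 at *
  generalize w2 / f2 = u2 at *
  subst g0 g1 g2
  constructor
  · rw [k0, k1]
    linear_combination (-(t0 - t1)) * (e2 - t2 * e1)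
  · rw [k0, k2]
    linear_combination (-(t0 - t2)) * (e2 - t1 * e1)

lemma fp_zero {K : Type u} [Field K] (th : Fin 3 → K) :
    fp th 0 = (th 0 - th 1) * (th 0 - th 2) := rfl

lemma fp_one {K : Type u} [Field K] (th : Fin 3 → K) :
    fp th 1 = (th 1 - th 2) * (th 1 - th 0) := rfl

lemma fp_two {K : Type u} [Field K] (th : Fin 3 → K) :
    fp th 2 = (th 2 - th 0) * (th 2 - th 1) := rfl

lemma fp_ne {K : Type u} [Field K] {a b : K} {th : Fin 3 → K} (h : IsRoots a b th) (i : Fin 3) :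
    fp th i ≠ 0 := by
  refine mul_ne_zero (sub_ne_zero.2 fun h1 => ?_) (sub_ne_zero.2 fun h1 => ?_)
  · have h2 := h.inj h1
    revert h2; fin_cases i <;> decide
  · have h2 := h.inj h1
    revert h2; fin_cases i <;> decide

lemma quad {K : Type u} [Field K] (th : Fin 3 → K) (Z : Matrix (Fin 3) (Fin 3) K)
    (x : Fin 3 → K) : x ⬝ᵥ (gA th Z).mulVec x = ∑ i, (Z.mulVec x i) ^ 2 / fp th i := by
  simp only [gA, Matrix.mulVec, dotProduct, Fin.sum_univ_three]
  ring

lemma quadB {K : Type u} [Field K] (th : Fin 3 → K) (Z : Matrix (Fin 3) (Fin 3) K)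
    (x : Fin 3 → K) :
    x ⬝ᵥ (gB th Z).mulVec x = ∑ i, th i * (Z.mulVec x i) ^ 2 / fp th i := by
  simp only [gB, Matrix.mulVec, dotProduct, Fin.sum_univ_three]
  ring

lemma dot_map {F K : Type u} [Field F] [Field K] (f : F →+* K) (A : Matrix (Fin 3) (Fin 3) F)
    (x : Fin 3 → F) : (fun i => f (x i)) ⬝ᵥ (A.map f).mulVec (fun i => f (x i))
      = f (x ⬝ᵥ A.mulVec x) := by
  simp only [Matrix.mulVec, dotProduct, Fin.sum_univ_three, Matrix.map_apply, map_add, map_mul]

end TRVM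

open TRVM

theorem specTRV (hWEI : SpecWEI.{u}) (hPSH : SpecPSH.{u}) : SpecTRV.{u} := by
  intro F _ _ a b c A B hc hAtt x hx hxA hxB
  obtain ⟨th, hth, Z, hZ, hA, hB⟩ := hAtt
  obtain ⟨w1, w2, w3, w4⟩ := hWEI F (AlgebraicClosure F) a b th hth
  set al := algebraMap F (AlgebraicClosure F) with hal
  set X : Fin 3 → AlgebraicClosure F := fun i => al (x i) with hX
  set z := Z.mulVec X with hz
  -- transformation rule
  have hs : ∀ (s : Gal F) (i k : Fin 3), s (th i) = th k →
      s (z i) = (sg th (c s) k : AlgebraicClosure F) * z k := by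
    intro s i k hik
    have h1 : ∀ l, s (X l) = X l := fun l => s.commutes (x l)
    simp only [hz, Matrix.mulVec, dotProduct, Fin.sum_univ_three, map_add, map_mul,
      hZ.2 s i k _ hik, h1]
    ring
  have hzne : z ≠ 0 := by
    intro h0
    have h1 : X ≠ 0 := by
      intro h2
      apply hx
      funext i
      have h3 := congrFun h2 i
      exact al.injective (h3.trans (map_zero al).symm)
    exact h1 (Matrix.eq_zero_of_mulVec_eq_zero hZ.1 h0)
  have q1 : ∑ i, z i ^ 2 / fp th i = 0 := by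
    rw [← quad, hA, dot_map, hxA, map_zero]
  have q2 : ∑ i, th i * z i ^ 2 / fp th i = 0 := by
    rw [← quadB, hB, dot_map, hxB, map_zero]
  rw [Fin.sum_univ_three] at q1 q2
  obtain ⟨k1, k2⟩ := two_eq (fp_zero th) (fp_one th) (fp_two th) (fp_ne hth 0) (fp_ne hth 1)
    (fp_ne hth 2) q1 q2
  have k : ∀ i, z i ^ 2 = z 0 ^ 2 := by
    intro i
    fin_cases i
    · rfl
    · exact k1
    · exact k2
  have hq : z 0 ^ 2 ≠ 0 := by
    intro h0
    apply hzne
    funext i
    have h1 := k i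
    rw [h0] at h1
    exact (pow_eq_zero_iff (two_ne_zero)).1 h1
  -- the square is in `F`
  have sgsq : ∀ (s : Gal F) (k : Fin 3), (sg th (c s) k : AlgebraicClosure F) ^ 2 = 1 := by
    intro s k
    rcases (w2 (c s) (hc s)).1 k with h | h <;> rw [h] <;> norm_num
  obtain ⟨Q, hQ⟩ := specFXD F (z 0 ^ 2) (by
    intro s
    obtain ⟨σ, hσ⟩ := perm hth s
    rw [map_pow, hs s 0 (σ 0) (hσ 0), mul_pow, sgsq, one_mul, k])
  obtain ⟨W, hW⟩ := specFXD F (z 0 * z 1 * z 2) (by
    intro s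
    obtain ⟨σ, hσ⟩ := perm hth s
    rw [map_mul, map_mul, hs s 0 (σ 0) (hσ 0), hs s 1 (σ 1) (hσ 1), hs s 2 (σ 2) (hσ 2)]
    have h1 : z (σ 0) * z (σ 1) * z (σ 2) = z 0 * z 1 * z 2 := by
      have h2 := Equiv.prod_comp σ z
      rwa [Fin.prod_univ_three, Fin.prod_univ_three] at h2
    have h3 : (sg th (c s) (σ 0) : AlgebraicClosure F) * sg th (c s) (σ 1) * sg th (c s) (σ 2)
        = 1 := by
      have h4 := Equiv.prod_comp σ (fun i => (sg th (c s) i : AlgebraicClosure F))
      rw [Fin.prod_univ_three, Fin.prod_univ_three] at h4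
      rw [h4, ← Int.cast_mul, ← Int.cast_mul, (w2 (c s) (hc s)).2, Int.cast_one]
    calc _ = ((sg th (c s) (σ 0) : AlgebraicClosure F) * sg th (c s) (σ 1) *
          sg th (c s) (σ 2)) * (z (σ 0) * z (σ 1) * z (σ 2)) := by ring
      _ = _ := by rw [h3, h1, one_mul])
  have hQ0 : al Q ≠ 0 := by rw [hQ]; exact hq
  set r := al (W / Q) with hr
  have hrq : r ^ 2 = al Q := by
    have h1 : (al W) ^ 2 = al Q ^ 3 := by
      rw [hW, hQ]
      have h2 := k 1
      have h3 := k 2
      calc (z 0 * z 1 * z 2) ^ 2 = z 0 ^ 2 * z 1 ^ 2 * z 2 ^ 2 := by ring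
        _ = (z 0 ^ 2) ^ 3 := by rw [h2, h3]; ring
    rw [hr, map_div₀, div_pow, h1]
    field_simp
  have hr0 : r ≠ 0 := by
    intro h0
    rw [h0] at hrq
    exact hQ0 (by rw [← hrq]; norm_num)
  have hsign : ∀ i, ∃ e : ℤ, (e = 1 ∨ e = -1) ∧ z i = (e : AlgebraicClosure F) * r := by
    intro i
    have h1 : z i ^ 2 = r ^ 2 := by rw [hrq, hQ, k i]
    rcases sq_eq_sq_iff_eq_or_eq_neg.1 h1 with h | h
    · exact ⟨1, Or.inl rfl, by rw [h]; simp⟩
    · exact ⟨-1, Or.inr rfl, by rw [h]; simp⟩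
  choose e he hze using hsign
  have hprod : e 0 * e 1 * e 2 = 1 := by
    have h1 : z 0 * z 1 * z 2 = r ^ 3 := by
      rw [← hW]
      have h2 : al W = r * al Q := by
        rw [hr, map_div₀, div_mul_cancel₀ _ hQ0]
      rw [h2, ← hrq]; ring
    rw [hze 0, hze 1, hze 2] at h1
    have h3 : ((e 0 : AlgebraicClosure F) * e 1 * e 2) * r ^ 3 = 1 * r ^ 3 := by
      linear_combination h1
    have h4 := mul_right_cancel₀ (pow_ne_zero 3 hr0) h3
    have h5 : ((e 0 * e 1 * e 2 : ℤ) : AlgebraicClosure F) = ((1 : ℤ) : AlgebraicClosure F) := by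
      push_cast; exact h4
    exact_mod_cast h5
  obtain ⟨S, hS2, hSe⟩ := w4 e he hprod
  refine ⟨S, hS2, fun s => ?_⟩
  set D := push (curve a b) (s : AlgebraicClosure F →ₐ[F] AlgebraicClosure F) S with hD
  have hD2 : (2 : ℕ) • D = 0 := by rw [hD, ← map_nsmul, hS2, map_zero]
  have hnegS : -S = S := by
    rw [neg_eq_iff_add_eq_zero, ← two_nsmul]; exact hS2
  have hDS2 : (2 : ℕ) • (D + S) = 0 := by rw [nsmul_add, hD2, hS2, add_zero]
  have key : c s + (D + S) = 0 := by
    apply w3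
    · rw [nsmul_add, hc, hDS2, add_zero]
    · intro k
      obtain ⟨σ, hσ⟩ := perm hth s
      obtain ⟨i, rfl⟩ := σ.surjective k
      have h1 : sg th D (σ i) = sg th S i :=
        ((hPSH F (AlgebraicClosure F) (AlgebraicClosure F) a b th th
          (s : AlgebraicClosure F →ₐ[F] AlgebraicClosure F) hth hth i (σ i) (hσ i)).2 S).1
      rw [w1 _ _ (hc s) hDS2, w1 _ _ hD2 hS2, h1, hSe, hSe]
      -- s (z i)
      have h2 := hs s i (σ i) (hσ i)
      have h3 : s r = r := s.commutes (W / Q)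
      rw [hze i, hze (σ i), map_mul, h3, map_intCast, ← mul_assoc] at h2
      have h4 := mul_right_cancel₀ hr0 h2
      have h5 : ((e i : ℤ) : AlgebraicClosure F)
          = ((sg th (c s) (σ i) * e (σ i) : ℤ) : AlgebraicClosure F) := by
        push_cast; exact h4
      have h6 : e i = sg th (c s) (σ i) * e (σ i) := by exact_mod_cast h5
      have gg : sg th (c s) (σ i) ^ 2 = 1 := by
        rcases (w2 (c s) (hc s)).1 (σ i) with h'' | h'' <;> rw [h''] <;> norm_num
      have qq : e (σ i) ^ 2 = 1 := by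
        rcases he (σ i) with h'' | h'' <;> rw [h''] <;> norm_num
      rw [h6]
      linear_combination (e (σ i) ^ 2) * gg + qq
  rw [sub_eq_add_neg, hnegS]
  rw [add_eq_zero_iff_eq_neg] at key
  rw [key, neg_add, hnegS]
  congr 1
  rw [neg_eq_iff_add_eq_zero, ← two_nsmul]; exact hD2

end Pool.Agent.Lib.MP_8cb858_nt.SEL
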