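import Pool.Agent.Lib.MP_8cb858_nt.SEL.Defs

/-!
# Auxiliary notions for the bound on the average size of 2-Selmer groups

None of these occurs in the statement of the final theorem.
-/

namespace Pool.Agent.Lib.MP_8cb858_nt.SEL

open NumberField IsDedekindDomain
open scoped Classical

universe u

/-- `th 0, th 1, th 2` are the three roots of `x^3 + a x + b`, and they are distinct. -/
structure IsRoots {K : Type u} [Field K] (a b : K) (th : Fin 3 → K) : Prop where
  inj : Function.Injective th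
  e1 : th 0 + th 1 + th 2 = 0
  e2 : th 0 * th 1 + th 0 * th 2 + th 1 * th 2 = a
  e3 : th 0 * th 1 * th 2 = -b

/-- The derivative of `x^3 + a x + b` at its root `th i`. -/
def fp {K : Type u} [Field K] (th : Fin 3 → K) (i : Fin 3) : K :=
  (th i - th (i + 1)) * (th i - th (i + 2))

section

variable {F : Type u} [Field F] {E : WeierstrassCurve F} {K : Type u} [Field K] [Algebra F K]

/-- The Weil pairing `e_2(S, T_i)`, `T_i = (th i, 0)`, of a 2-torsion point `S`, as a sign. -/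
noncomputable def sg (th : Fin 3 → K) (S : Pt E K) (i : Fin 3) : ℤ :=
  match S with
  | .zero => 1
  | .some x _ _ => if x = th i then 1 else -1

/-- The half point function: `hlf th P i ^ 2 = x(2P) - th i`. -/
noncomputable def hlf (th : Fin 3 → K) (P : Pt E K) (i : Fin 3) : K :=
  match P with
  | .zero => 0
  | .some x y _ => ((x - th i) ^ 2 - fp th i) / (2 * y)

end

/-- The Vandermonde matrix. -/
def vnd {K : Type u} [Field K] (th : Fin 3 → K) : Matrix (Fin 3) (Fin 3) K :=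
  fun i j => th i ^ (j : ℕ)

/-- Gram matrix of the columns of `Z` for the form `∑ z_i ^ 2 / f'(th i)`. -/
def gA {K : Type u} [Field K] (th : Fin 3 → K) (Z : Matrix (Fin 3) (Fin 3) K) :
    Matrix (Fin 3) (Fin 3) K :=
  fun j k => ∑ i, Z i j * Z i k / fp th i

/-- Gram matrix of the columns of `Z` for the form `∑ th i * z_i ^ 2 / f'(th i)`. -/
def gB {K : Type u} [Field K] (th : Fin 3 → K) (Z : Matrix (Fin 3) (Fin 3) K) :
    Matrix (Fin 3) (Fin 3) K :=
  fun j k => ∑ i, th i * (Z i j * Z i k) / fp th i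

section

variable {F : Type u} [Field F]

/-- The columns of `Z` form a basis (over `Fbar`, hence over `F`) of the twisted space
`V_c = {z : s (z_i) = e_2 (c s, s T_i) z_{s i}}`. -/
def Twisted {E : WeierstrassCurve F} (th : Fin 3 → AlgebraicClosure F)
    (c : Gal F → Pt E (AlgebraicClosure F)) (Z : Matrix (Fin 3) (Fin 3) (AlgebraicClosure F)) :
    Prop :=
  Z.det ≠ 0 ∧ ∀ (s : Gal F) (i k j : Fin 3), s (th i) = th k →
    s (Z i j) = (sg th (c s) k : AlgebraicClosure F) * Z k j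

/-- The pair of symmetric matrices `(A, B)` over `F` is the pair of Gram matrices of a basis
of the twisted space of the cocycle `c`. -/
def Att (a b : F) (c : Gal F → Pt (curve a b) (AlgebraicClosure F))
    (A B : Matrix (Fin 3) (Fin 3) F) : Prop :=
  ∃ th : Fin 3 → AlgebraicClosure F,
    IsRoots (algebraMap F _ a) (algebraMap F _ b) th ∧
    ∃ Z : Matrix (Fin 3) (Fin 3) (AlgebraicClosure F), Twisted th c Z ∧
      gA th Z = A.map (algebraMap F _) ∧ gB th Z = B.map (algebraMap F _)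

end

/-- Euclidean norm of a complex vector. -/
noncomputable def en (u : Fin 3 → ℂ) : ℝ := Real.sqrt (∑ i, ‖u i‖ ^ 2)

section

variable {F : Type u} [Field F] [NumberField F]

/-- The vector of the images of the coordinates of `x` under the embedding of the place `v`. -/
noncomputable def em (v : InfinitePlace F) (x : Fin 3 → F) : Fin 3 → ℂ := fun i => v.embedding (x i)

/-- `U v` are matrices of determinant of absolute value one, real at the real places, with
`|x^T A_v y| ≤ ‖U x‖ ‖U y‖` and `|x^T B_v y| ≤ 2 ρ_v ‖U x‖ ‖U y‖`. -/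
def Maj (A B : Matrix (Fin 3) (Fin 3) F) (ρ : InfinitePlace F → ℝ)
    (U : InfinitePlace F → Matrix (Fin 3) (Fin 3) ℂ) : Prop :=
  ∀ v : InfinitePlace F, ‖(U v).det‖ = 1 ∧ (v.IsReal → ∀ i j, (U v i j).im = 0) ∧
    (∀ x y : Fin 3 → ℂ, ‖x ⬝ᵥ (A.map v.embedding).mulVec y‖ ≤
      en ((U v).mulVec x) * en ((U v).mulVec y)) ∧
    (∀ x y : Fin 3 → ℂ, ‖x ⬝ᵥ (B.map v.embedding).mulVec y‖ ≤
      2 * ρ v * (en ((U v).mulVec x) * en ((U v).mulVec y)))

/-- The inclusion of integral matrices. -/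
noncomputable def inc (A : Matrix (Fin 3) (Fin 3) (𝓞 F)) : Matrix (Fin 3) (Fin 3) F :=
  A.map (algebraMap (𝓞 F) F)

variable (F) in
/-- Reduced pairs of the first type. -/
def R1 (C : ℝ) (ρ : InfinitePlace F → ℝ) :
    Set (Matrix (Fin 3) (Fin 3) (𝓞 F) × Matrix (Fin 3) (Fin 3) (𝓞 F)) :=
  {P | P.1.IsSymm ∧ P.2.IsSymm ∧ P.1.det ≠ 0 ∧ (P.1.adjugate * P.2).trace = 0 ∧
    ∀ (v : InfinitePlace F) (i j : Fin 3), v (P.1 i j : F) ≤ C ∧ v (P.2 i j : F) ≤ C * ρ v}

variable (F) in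
/-- Reduced pairs of the second type, at level `k`. -/
def R2 (C : ℝ) (ρ : InfinitePlace F → ℝ) (k : ℕ) :
    Set (Matrix (Fin 3) (Fin 3) (𝓞 F) × Matrix (Fin 3) (Fin 3) (𝓞 F)) :=
  {P | P.1.IsSymm ∧ P.2.IsSymm ∧ P.1.det ≠ 0 ∧ (P.1.adjugate * P.2).trace = 0 ∧
    P.1 0 0 = 0 ∧ P.1 0 1 = 0 ∧ P.1 1 2 = 0 ∧ P.1 2 2 = 0 ∧ P.2 0 0 ≠ 0 ∧
    ∀ (v : InfinitePlace F) (i j : Fin 3), v (P.1 i j : F) ≤ C ∧
      v (P.2 i j : F) ≤ C * ρ v * (2 : ℝ) ^ ((k : ℤ) * ((i : ℕ) + (j : ℕ) - 2 : ℤ))}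

variable (F) in
/-- The box of pairs `(a, b)` with `|a|_v ≤ ρ_v^2`, `|b|_v ≤ ρ_v^3` (usual absolute values). -/
def Bx (ρ : InfinitePlace F → ℝ) : Set (𝓞 F × 𝓞 F) :=
  {q | 4 * q.1 ^ 3 + 27 * q.2 ^ 2 ≠ 0 ∧ ∀ v : InfinitePlace F,
    v (q.1 : F) ≤ ρ v ^ 2 ∧ v (q.2 : F) ≤ ρ v ^ 3}

/-- The product of the `ρ_v` with their multiplicities. -/
noncomputable def vol (ρ : InfinitePlace F → ℝ) : ℝ := ∏ v, ρ v ^ v.mult

end

end Pool.Agent.Lib.MP_8cb858_nt.SEL
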