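import Mathlib

/-!
# Selmer groups of elliptic curves over number fields, and boxes of elliptic curves

`F` is a number field, `E : y^2 = x^3 + a x + b` a Weierstrass curve over `F`.

* `Gal F` : the absolute Galois group of `F`, the `F`-automorphisms of `AlgebraicClosure F`.
* `Pt E K` : the group `E(K)` of points of `E` over a field extension `K` of `F`
  (Mathlib's group law on `WeierstrassCurve.Affine.Point`).
* `push E i` : the homomorphism `E(K) -> E(K')` induced by an `F`-algebra map `i : K -> K'`.
* `IsContCocycle E c` : `c : Gal F -> E(Fbar)` is a continuous 1-cocycle.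
* `LocTriv E K c` : the class of `c`, restricted to the absolute Galois group of the extension
  `K` of `F`, is trivial in `H^1(K, E)`.
* `Cocycles p E`, `Coboundaries p E`, `Sel p E` : the `p`-Selmer group, the kernel of
  `H^1(F, E[p]) -> prod_v H^1(F_v, E)`, `v` over all places of `F`.
* `Box F X` : the pairs `(a,b)` of integers of `F` with `4a^3+27b^2 <> 0` and
  `max(|a|_v^3, |b|_v^2) <= X v` for all infinite places `v` (normalized absolute values).
-/

namespace Pool.Agent.Lib.MP_8cb858_nt.SEL

open NumberField IsDedekindDomain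
open scoped Classical

universe u

/-- The Weierstrass curve `y^2 = x^3 + a x + b`. -/
def curve {F : Type u} [Field F] (a b : F) : WeierstrassCurve F := ⟨0, 0, 0, a, b⟩

/-- The absolute Galois group of `F`. -/
abbrev Gal (F : Type u) [Field F] : Type u :=
  AlgebraicClosure F ≃ₐ[F] AlgebraicClosure F

/-- The group `E(K)` of points of `E` with coordinates in an extension `K` of `F`. -/
abbrev Pt {F : Type u} [Field F] (E : WeierstrassCurve F) (K : Type u) [Field K] [Algebra F K] :
    Type u :=
  (E.baseChange K).toAffine.Point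

/-- The homomorphism `E(K) → E(K')` induced by an `F`-algebra map `K → K'`. -/
noncomputable def push {F : Type u} [Field F] (E : WeierstrassCurve F) {K K' : Type u}
    [Field K] [Algebra F K] [Field K'] [Algebra F K'] (i : K →ₐ[F] K') : Pt E K →+ Pt E K' :=
  WeierstrassCurve.Affine.Point.map i

section

variable {F : Type u} [Field F]

/-- `c` is a continuous 1-cocycle of the absolute Galois group of `F` with values in `E(Fbar)`:
`c (s t) = c s + s (c t)`, and `c s` depends only on the restriction of `s` to some finite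
extension of `F`. -/
def IsContCocycle (E : WeierstrassCurve F) (c : Gal F → Pt E (AlgebraicClosure F)) : Prop :=
  (∀ s t : Gal F, c (s * t) = c s + push E (s : AlgebraicClosure F →ₐ[F] AlgebraicClosure F) (c t))
    ∧ ∃ K : IntermediateField F (AlgebraicClosure F), FiniteDimensional F K ∧
      ∀ s t : Gal F, (∀ x ∈ K, s x = t x) → c s = c t

/-- The class of `c` restricted to the absolute Galois group of `K` is trivial in `H^1(K, E)`:
for every embedding `i` of the algebraic closures there is a point `P` over the algebraic closure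
of `K` with `c(s restricted to Fbar) = s P - P` for all `s`. -/
def LocTriv (E : WeierstrassCurve F) (K : Type u) [Field K] [Algebra F K]
    (c : Gal F → Pt E (AlgebraicClosure F)) : Prop :=
  ∀ i : AlgebraicClosure F →ₐ[F] AlgebraicClosure K,
    ∃ P : Pt E (AlgebraicClosure K),
      ∀ (s : AlgebraicClosure K ≃ₐ[K] AlgebraicClosure K) (t : Gal F),
        (∀ x, i (t x) = s (i x)) →
          push E i (c t) =
            push E ((s : AlgebraicClosure K →ₐ[K] AlgebraicClosure K).restrictScalars F) P - P

lemma IsContCocycle.zero (E : WeierstrassCurve F) : IsContCocycle E 0 :=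
  ⟨fun s t => by simp, ⊥, inferInstance, fun s t _ => rfl⟩

lemma IsContCocycle.add {E : WeierstrassCurve F} {c d : Gal F → Pt E (AlgebraicClosure F)}
    (hc : IsContCocycle E c) (hd : IsContCocycle E d) : IsContCocycle E (c + d) := by
  obtain ⟨h1, K, hK, hK'⟩ := hc
  obtain ⟨h2, L, hL, hL'⟩ := hd
  refine ⟨fun s t => ?_, K ⊔ L, IntermediateField.finiteDimensional_sup K L, fun s t h => ?_⟩
  · simp only [Pi.add_apply, h1, h2, map_add]; abel
  · simp only [Pi.add_apply]
    rw [hK' s t (fun x hx => h x (le_sup_left (a := K) (b := L) hx)),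
      hL' s t (fun x hx => h x (le_sup_right (a := K) (b := L) hx))]

lemma IsContCocycle.neg {E : WeierstrassCurve F} {c : Gal F → Pt E (AlgebraicClosure F)}
    (hc : IsContCocycle E c) : IsContCocycle E (-c) := by
  obtain ⟨h1, K, hK, hK'⟩ := hc
  refine ⟨fun s t => ?_, K, hK, fun s t h => ?_⟩
  · simp only [Pi.neg_apply, h1, map_neg]; abel
  · simp only [Pi.neg_apply]; rw [hK' s t h]

lemma LocTriv.zero (E : WeierstrassCurve F) (K : Type u) [Field K] [Algebra F K] :
    LocTriv E K 0 :=
  fun i => ⟨0, fun s t _ => by simp⟩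

lemma LocTriv.add {E : WeierstrassCurve F} {K : Type u} [Field K] [Algebra F K]
    {c d : Gal F → Pt E (AlgebraicClosure F)} (hc : LocTriv E K c) (hd : LocTriv E K d) :
    LocTriv E K (c + d) := by
  intro i
  obtain ⟨P, hP⟩ := hc i
  obtain ⟨Q, hQ⟩ := hd i
  refine ⟨P + Q, fun s t h => ?_⟩
  simp only [Pi.add_apply, map_add, hP s t h, hQ s t h]; abel

lemma LocTriv.neg {E : WeierstrassCurve F} {K : Type u} [Field K] [Algebra F K]
    {c : Gal F → Pt E (AlgebraicClosure F)} (hc : LocTriv E K c) : LocTriv E K (-c) := by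
  intro i
  obtain ⟨P, hP⟩ := hc i
  refine ⟨-P, fun s t h => ?_⟩
  simp only [Pi.neg_apply, map_neg, hP s t h]; abel

/-- The 1-coboundaries `s ↦ s T - T` with `T` in `E[p]`. -/
def Coboundaries (p : ℕ) (E : WeierstrassCurve F) :
    AddSubgroup (Gal F → Pt E (AlgebraicClosure F)) where
  carrier := {c | ∃ T : Pt E (AlgebraicClosure F), p • T = 0 ∧
    ∀ s : Gal F, c s = push E (s : AlgebraicClosure F →ₐ[F] AlgebraicClosure F) T - T}
  zero_mem' := ⟨0, by simp, fun s => by simp⟩
  add_mem' := by
    rintro c d ⟨T, hT, h⟩ ⟨T', hT', h'⟩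
    exact ⟨T + T', by rw [nsmul_add, hT, hT', add_zero], fun s => by
      simp only [Pi.add_apply, map_add, h, h']; abel⟩
  neg_mem' := by
    rintro c ⟨T, hT, h⟩
    exact ⟨-T, by rw [smul_neg, hT, neg_zero], fun s => by
      simp only [Pi.neg_apply, map_neg, h]; abel⟩

end

section

variable {F : Type u} [Field F] [NumberField F]

/-- The continuous 1-cocycles with values in `E[p]` whose class dies in `H^1(F_v, E)` for every
place `v` of `F`, finite or infinite. -/
def Cocycles (p : ℕ) (E : WeierstrassCurve F) :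
    AddSubgroup (Gal F → Pt E (AlgebraicClosure F)) where
  carrier := {c | IsContCocycle E c ∧ (∀ s, p • c s = 0) ∧
    (∀ v : HeightOneSpectrum (𝓞 F), LocTriv E (v.adicCompletion F) c) ∧
    (∀ v : InfinitePlace F, LocTriv E v.Completion c)}
  zero_mem' := ⟨IsContCocycle.zero E, fun s => by simp, fun v => LocTriv.zero E _,
    fun v => LocTriv.zero E _⟩
  add_mem' := by
    rintro c d ⟨h1, h2, h3, h4⟩ ⟨k1, k2, k3, k4⟩
    exact ⟨h1.add k1, fun s => by
      simp only [Pi.add_apply, nsmul_add, h2, k2, add_zero],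
      fun v => (h3 v).add (k3 v), fun v => (h4 v).add (k4 v)⟩
  neg_mem' := by
    rintro c ⟨h1, h2, h3, h4⟩
    exact ⟨h1.neg, fun s => by simp only [Pi.neg_apply, smul_neg, h2, neg_zero],
      fun v => (h3 v).neg, fun v => (h4 v).neg⟩

/-- The `p`-Selmer group of `E` over the number field `F`:
the kernel of `H^1(F, E[p]) → ∏_v H^1(F_v, E)`. -/
abbrev Sel (p : ℕ) (E : WeierstrassCurve F) : Type u :=
  Cocycles p E ⧸ (Coboundaries p E).addSubgroupOf (Cocycles p E)

variable (F) in
/-- The pairs `(a, b)` of integers of `F` with `4 a^3 + 27 b^2 ≠ 0` and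
`max (|a|_v^3, |b|_v^2) ≤ X v` for every infinite place `v`, with normalized absolute values. -/
def Box (X : InfinitePlace F → ℝ) : Set (𝓞 F × 𝓞 F) :=
  {q | 4 * q.1 ^ 3 + 27 * q.2 ^ 2 ≠ 0 ∧ ∀ v : InfinitePlace F,
    ((v (q.1 : F)) ^ v.mult) ^ 3 ≤ X v ∧ ((v (q.2 : F)) ^ v.mult) ^ 2 ≤ X v}

end

end Pool.Agent.Lib.MP_8cb858_nt.SEL
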