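import Pool.Agent.Lib.MP_8cb858_nt.SEL.Spec

/-!
# Module WEI (helper24): the Weil pairing with the points `T_i`
-/

set_option autoImplicit false

namespace Pool.Agent.Lib.MP_8cb858_nt.SEL

open NumberField IsDedekindDomain
open scoped Classical

universe u v w

namespace WEIM

section

variable {F : Type u} {K : Type u} [Field F] [Field K] [Algebra F K] {a b : F}

theorem negY_eq (x y : K) : ((curve a b).baseChange K).toAffine.negY x y = -y := by
  simp [WeierstrassCurve.Affine.negY, curve, WeierstrassCurve.baseChange, WeierstrassCurve.map]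

theorem eqn_iff (x y : K) : ((curve a b).baseChange K).toAffine.Equation x y ↔
    y ^ 2 = x ^ 3 + algebraMap F K a * x + algebraMap F K b := by
  rw [WeierstrassCurve.Affine.equation_iff]
  simp [curve, WeierstrassCurve.baseChange, WeierstrassCurve.map]

theorem nons_iff (x y : K) : ((curve a b).baseChange K).toAffine.Nonsingular x y ↔
    y ^ 2 = x ^ 3 + algebraMap F K a * x + algebraMap F K b ∧
      (0 ≠ 3 * x ^ 2 + algebraMap F K a ∨ y ≠ -y) := by
  rw [WeierstrassCurve.Affine.nonsingular_iff, eqn_iff]
  simp [curve, WeierstrassCurve.baseChange, WeierstrassCurve.map]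

variable {th : Fin 3 → K} (h : IsRoots (algebraMap F K a) (algebraMap F K b) th)

include h

theorem prod_eq (x : K) : x ^ 3 + algebraMap F K a * x + algebraMap F K b =
    (x - th 0) * (x - th 1) * (x - th 2) := by
  have h1 := h.e1
  have h2 := h.e2
  have h3 := h.e3
  linear_combination (x ^ 2) * h1 - x * h2 + h3

theorem fp_eq (j : Fin 3) : fp th j = 3 * th j ^ 2 + algebraMap F K a := by
  have h1 := h.e1
  have h2 := h.e2
  unfold fp
  fin_cases j
  · show (th 0 - th 1) * (th 0 - th 2) = 3 * th 0 ^ 2 + _
    linear_combination (-2 * th 0) * h1 + h2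
  · show (th 1 - th 2) * (th 1 - th 0) = 3 * th 1 ^ 2 + _
    linear_combination (-2 * th 1) * h1 + h2
  · show (th 2 - th 0) * (th 2 - th 1) = 3 * th 2 ^ 2 + _
    linear_combination (-2 * th 2) * h1 + h2

theorem fp_ne (j : Fin 3) : fp th j ≠ 0 := by
  unfold fp
  have e1 : j ≠ j + 1 := by fin_cases j <;> decide
  have e2 : j ≠ j + 2 := by fin_cases j <;> decide
  exact mul_ne_zero (sub_ne_zero.mpr (h.inj.ne e1)) (sub_ne_zero.mpr (h.inj.ne e2))

theorem nons (j : Fin 3) : ((curve a b).baseChange K).toAffine.Nonsingular (th j) 0 := by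
  rw [nons_iff]
  refine ⟨?_, Or.inl ?_⟩
  · rw [prod_eq h]
    fin_cases j <;> simp
  · rw [← fp_eq h]
    exact (fp_ne h j).symm

/-- The point `T_j`. -/
noncomputable def T (j : Fin 3) : Pt (curve a b) K :=
  WeierstrassCurve.Affine.Point.some (th j) 0 (nons h j)

theorem sg_T (i j : Fin 3) : sg th (T h j) i = if j = i then 1 else -1 := by
  show (if th j = th i then (1 : ℤ) else -1) = _
  by_cases hji : j = i
  · rw [if_pos hji, if_pos (by rw [hji])]
  · rw [if_neg hji, if_neg (fun e => hji (h.inj e))]

theorem two_T (j : Fin 3) : T h j + T h j = 0 := by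
  apply WeierstrassCurve.Affine.Point.add_self_of_Y_eq
  rw [negY_eq, neg_zero]

theorem sum_eq {j k l : Fin 3} (hjk : j ≠ k) (hjl : j ≠ l) (hkl : k ≠ l) :
    th l = - th j - th k := by
  have h1 := h.e1
  fin_cases j <;> fin_cases k <;> fin_cases l <;> first
    | exact absurd rfl hjk
    | exact absurd rfl hjl
    | exact absurd rfl hkl
    | (simp only [Fin.zero_eta, Fin.mk_one, Fin.reduceFinMk]; linear_combination h1)

theorem add_T {j k l : Fin 3} (hjk : j ≠ k) (hjl : j ≠ l) (hkl : k ≠ l) :
    T h j + T h k = T h l := by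
  have hne : th j ≠ th k := h.inj.ne hjk
  unfold T
  rw [WeierstrassCurve.Affine.Point.add_of_X_ne hne]
  have hs : ((curve a b).baseChange K).toAffine.slope (th j) (th k) 0 0 = 0 := by
    rw [WeierstrassCurve.Affine.slope_of_X_ne hne, sub_self, zero_div]
  have hx : ((curve a b).baseChange K).toAffine.addX (th j) (th k)
      (((curve a b).baseChange K).toAffine.slope (th j) (th k) 0 0) = th l := by
    rw [hs, sum_eq h hjk hjl hkl]
    simp [WeierstrassCurve.Affine.addX, curve, WeierstrassCurve.baseChange, WeierstrassCurve.map]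
  have hy : ((curve a b).baseChange K).toAffine.addY (th j) (th k) 0
      (((curve a b).baseChange K).toAffine.slope (th j) (th k) 0 0) = 0 := by
    rw [hs]
    unfold WeierstrassCurve.Affine.addY WeierstrassCurve.Affine.negAddY
    rw [negY_eq]
    simp
  rw [WeierstrassCurve.Affine.Point.some.injEq]
  exact ⟨hx, hy⟩

theorem tors [CharZero K] (S : Pt (curve a b) K) (hS : (2 : ℕ) • S = 0) :
    S = 0 ∨ ∃ j, S = T h j := by
  cases S with
  | zero => exact Or.inl rfl
  | some x y hxy =>
    right
    rw [two_nsmul] at hS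
    have h1 := eq_neg_of_add_eq_zero_left hS
    rw [WeierstrassCurve.Affine.Point.neg_some, WeierstrassCurve.Affine.Point.some.injEq,
      negY_eq] at h1
    have hy : y = 0 := self_eq_neg.mp h1.2
    have h2 := ((nons_iff (a := a) (b := b) x y).mp hxy).1
    rw [prod_eq h, hy] at h2
    have h3 : (x - th 0) * (x - th 1) * (x - th 2) = 0 := by rw [← h2]; ring
    have h4 : ∃ j, x = th j := by
      rcases mul_eq_zero.mp h3 with h5 | h5
      · rcases mul_eq_zero.mp h5 with h6 | h6
        · exact ⟨0, sub_eq_zero.mp h6⟩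
        · exact ⟨1, sub_eq_zero.mp h6⟩
      · exact ⟨2, sub_eq_zero.mp h5⟩
    obtain ⟨j, hj⟩ := h4
    refine ⟨j, ?_⟩
    unfold T
    rw [WeierstrassCurve.Affine.Point.some.injEq]
    exact ⟨hj, hy⟩

end

theorem sg_zero {F K : Type u} [Field F] [Field K] [Algebra F K] {a b : F} (th : Fin 3 → K)
    (i : Fin 3) : sg th (0 : Pt (curve a b) K) i = 1 := rfl

theorem third : ∀ j k : Fin 3, ∃ l : Fin 3, j ≠ l ∧ k ≠ l := by decide

theorem signs (i j k l : Fin 3) (hjk : j ≠ k) (hjl : j ≠ l) (hkl : k ≠ l) :
    (if l = i then (1 : ℤ) else -1) = (if j = i then 1 else -1) * (if k = i then 1 else -1) := by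
  by_cases h1 : l = i
  · rw [if_pos h1, if_neg (fun e => hjl (e.trans h1.symm)), if_neg (fun e => hkl (e.trans h1.symm))]
    norm_num
  · rw [if_neg h1]
    by_cases h2 : j = i
    · rw [if_pos h2, if_neg (fun e => hjk (h2.trans e.symm))]
      norm_num
    · rw [if_neg h2]
      have h3 : k = i := by omega
      rw [if_pos h3]
      norm_num

end WEIM

open WEIM

theorem specWEI : SpecWEI.{u} := by
  intro F K _ _ _ _ a b th h
  refine ⟨?_, ?_, ?_, ?_⟩
  · intro S S' hS hS' i
    rcases tors h S hS with rfl | ⟨j, rfl⟩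
    · rw [zero_add, sg_zero, one_mul]
    · rcases tors h S' hS' with rfl | ⟨k, rfl⟩
      · rw [add_zero, sg_zero, mul_one]
      · by_cases hjk : j = k
        · subst hjk
          rw [two_T, sg_zero, sg_T]
          split_ifs <;> norm_num
        · obtain ⟨l, hjl, hkl⟩ := third j k
          rw [add_T h hjk hjl hkl, sg_T, sg_T, sg_T]
          exact signs i j k l hjk hjl hkl
  · intro S hS
    rcases tors h S hS with rfl | ⟨j, rfl⟩
    · refine ⟨fun i => Or.inl (sg_zero th i), ?_⟩
      rw [sg_zero, sg_zero, sg_zero]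
      norm_num
    · refine ⟨fun i => ?_, ?_⟩
      · rw [sg_T]
        split_ifs
        · exact Or.inl rfl
        · exact Or.inr rfl
      · rw [sg_T, sg_T, sg_T]
        fin_cases j <;> rfl
  · intro S hS hi
    rcases tors h S hS with rfl | ⟨j, rfl⟩
    · rfl
    · exfalso
      have h1 := hi (j + 1)
      rw [sg_T, if_neg (by fin_cases j <;> decide)] at h1
      norm_num at h1
  · intro e he hprod
    by_cases hall : ∀ i, e i = 1
    · exact ⟨0, smul_zero _, fun i => by rw [sg_zero, hall i]⟩
    · -- exactly one `e j` is `1`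
      have key : ∃ j : Fin 3, ∀ i, (if j = i then (1 : ℤ) else -1) = e i := by
        have h0 := he 0
        have h1 := he 1
        have h2 := he 2
        rcases h0 with h0 | h0 <;> rcases h1 with h1 | h1 <;> rcases h2 with h2 | h2
        · exfalso
          apply hall
          intro i
          fin_cases i
          · exact h0
          · exact h1
          · exact h2
        · rw [h0, h1, h2] at hprod; norm_num at hprod
        · rw [h0, h1, h2] at hprod; norm_num at hprod
        · refine ⟨0, fun i => ?_⟩
          fin_cases i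
          · exact h0.symm
          · exact h1.symm
          · exact h2.symm
        · rw [h0, h1, h2] at hprod; norm_num at hprod
        · refine ⟨1, fun i => ?_⟩
          fin_cases i
          · exact h0.symm
          · exact h1.symm
          · exact h2.symm
        · refine ⟨2, fun i => ?_⟩
          fin_cases i
          · exact h0.symm
          · exact h1.symm
          · exact h2.symm
        · rw [h0, h1, h2] at hprod; norm_num at hprod
      obtain ⟨j, hj⟩ := key
      refine ⟨T h j, ?_, fun i => ?_⟩
      · rw [two_nsmul]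
        exact two_T h j
      · rw [sg_T]
        exact hj i

end Pool.Agent.Lib.MP_8cb858_nt.SEL
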